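import Mathlib

set_option autoImplicit false

/-!
Definitions shared by the modules for MP_67f173_co (polynomial expansion and strong coloring numbers).
-/

namespace P67

variable {V : Type*}

/-- `y` can be reached from `x` by a walk of length at most `s` inside `S`. -/
def Within (G : SimpleGraph V) (S : Set V) (s : ℕ) (x y : V) : Prop :=
  ∃ p : G.Walk x y, p.length ≤ s ∧ ∀ w ∈ p.support, w ∈ S

/-- a piece of radius at most `s` -/
def Blob (G : SimpleGraph V) (s : ℕ) (B : Set V) : Prop :=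
  ∃ x ∈ B, ∀ y ∈ B, Within G B s x y

/-- Density of shallow minors: a depth-`s` minor model with `m` branch sets has at most `D s * m`
ordered adjacent pairs. -/
def Dens (G : SimpleGraph V) (D : ℕ → ℕ) : Prop :=
  ∀ (s m : ℕ) (B : Fin m → Set V) (E : Finset (Fin m × Fin m)),
    (∀ i j, i ≠ j → Disjoint (B i) (B j)) →
    (∀ i, Blob G s (B i)) →
    (∀ e ∈ E, e.1 ≠ e.2 ∧ ∃ a ∈ B e.1, ∃ b ∈ B e.2, G.Adj a b) →
    E.card ≤ D s * m

/-- `u` is joined to `v` by a walk inside `S`. -/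
def Conn (G : SimpleGraph V) (S : Set V) (v u : V) : Prop :=
  ∃ p : G.Walk v u, ∀ w ∈ p.support, w ∈ S

/-- all components of `G[S]` have at most `K` vertices -/
def Small (G : SimpleGraph V) (S : Set V) (K : ℕ) : Prop :=
  ∀ v ∈ S, {u | Conn G S v u}.ncard ≤ K

/-- `u` sees `x ∈ X`: a walk of length at most `r` from `u` to `x` meets `X` only in `x`. -/
def Sees (G : SimpleGraph V) (r : ℕ) (X : Set V) (u x : V) : Prop :=
  x ∈ X ∧ ∃ p : G.Walk u x, p.length ≤ r ∧ ∀ w ∈ p.support, w ∈ X → w = x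

/-- torso pair: `a ≠ b` in `X`, joined by a walk of length at most `r` which meets `X` only at its ends. -/
def TPair (G : SimpleGraph V) (r : ℕ) (X : Set V) (a b : V) : Prop :=
  a ∈ X ∧ b ∈ X ∧ a ≠ b ∧ ∃ p : G.Walk a b, p.length ≤ r ∧ ∀ w ∈ p.support, w ∈ X → w = a ∨ w = b

/-- The density hypothesis for models indexed by an arbitrary finite type. -/
theorem Dens.fintype {G : SimpleGraph V} {D : ℕ → ℕ} (hD : Dens G D) {ι : Type*} [Fintype ι]
    (s : ℕ) (B : ι → Set V) (E : Finset (ι × ι))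
    (h1 : ∀ i j, i ≠ j → Disjoint (B i) (B j)) (h2 : ∀ i, Blob G s (B i))
    (h3 : ∀ e ∈ E, e.1 ≠ e.2 ∧ ∃ a ∈ B e.1, ∃ b ∈ B e.2, G.Adj a b) :
    E.card ≤ D s * Fintype.card ι := by
  classical
  let f := Fintype.equivFin ι
  have h := hD s (Fintype.card ι) (fun i => B (f.symm i))
    (E.map (f.toEmbedding.prodMap f.toEmbedding)) ?_ ?_ ?_
  · simpa using h
  · intro i j hij
    exact h1 _ _ (fun h => hij (f.symm.injective h))
  · intro i
    exact h2 _
  · intro e he
    obtain ⟨e', he', rfl⟩ := Finset.mem_map.mp he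
    obtain ⟨hne, a, ha, b, hb, hab⟩ := h3 e' he'
    refine ⟨fun h => hne (f.injective h), a, ?_, b, ?_, hab⟩
    · simpa using ha
    · simpa using hb

/-- The density hypothesis for models given as a finite set of finite vertex sets. -/
theorem Dens.finset [DecidableEq V] {G : SimpleGraph V} {D : ℕ → ℕ} (hD : Dens G D)
    (s : ℕ) (𝓑 : Finset (Finset V)) (E : Finset (Finset V × Finset V))
    (h1 : ∀ A ∈ 𝓑, ∀ B ∈ 𝓑, A ≠ B → Disjoint A B) (h2 : ∀ B ∈ 𝓑, Blob G s (B : Set V))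
    (h3 : ∀ e ∈ E, e.1 ∈ 𝓑 ∧ e.2 ∈ 𝓑 ∧ e.1 ≠ e.2 ∧ ∃ a ∈ e.1, ∃ b ∈ e.2, G.Adj a b) :
    E.card ≤ D s * 𝓑.card := by
  classical
  let E' : Finset ({x // x ∈ 𝓑} × {x // x ∈ 𝓑}) :=
    Finset.univ.filter (fun e => (e.1.1, e.2.1) ∈ E)
  have h := hD.fintype (ι := {x // x ∈ 𝓑}) s (fun i => (i.1 : Set V)) E' ?_ ?_ ?_
  · have hc : E'.card = E.card := by
      apply Finset.card_bij (fun e _ => (e.1.1, e.2.1))
      · intro e he
        simpa [E'] using he
      · intro e _ e' _ h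
        rw [Prod.mk.injEq] at h
        exact Prod.ext (Subtype.ext h.1) (Subtype.ext h.2)
      · intro e he
        obtain ⟨ha, hb, -, -⟩ := h3 e he
        exact ⟨(⟨e.1, ha⟩, ⟨e.2, hb⟩), by simpa [E'] using he, rfl⟩
    rw [hc] at h
    simpa using h
  · intro i j hij
    exact Finset.disjoint_coe.mpr (h1 _ i.2 _ j.2 (fun h => hij (Subtype.ext h)))
  · intro i
    exact h2 _ i.2
  · intro e he
    have he' : (e.1.1, e.2.1) ∈ E := by simpa [E'] using he
    obtain ⟨-, -, hne, a, ha, b, hb, hab⟩ := h3 _ he'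
    exact ⟨fun h => hne (congrArg Subtype.val h), a, ha, b, hb, hab⟩

theorem Conn.refl {G : SimpleGraph V} {S : Set V} {v : V} (hv : v ∈ S) : Conn G S v v :=
  ⟨.nil, by simpa using hv⟩

theorem Conn.symm {G : SimpleGraph V} {S : Set V} {v u : V} (h : Conn G S v u) : Conn G S u v := by
  obtain ⟨p, hp⟩ := h
  exact ⟨p.reverse, by simpa using hp⟩

theorem Conn.trans {G : SimpleGraph V} {S : Set V} {v u w : V} (h : Conn G S v u)
    (h' : Conn G S u w) : Conn G S v w := by
  obtain ⟨p, hp⟩ := h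
  obtain ⟨q, hq⟩ := h'
  refine ⟨p.append q, fun x hx => ?_⟩
  rw [SimpleGraph.Walk.mem_support_append_iff] at hx
  exact hx.elim (hp x) (hq x)

theorem Conn.mono {G : SimpleGraph V} {S T : Set V} (hST : S ⊆ T) {v u : V} (h : Conn G S v u) :
    Conn G T v u := by
  obtain ⟨p, hp⟩ := h
  exact ⟨p, fun w hw => hST (hp w hw)⟩

theorem Conn.mem_left {G : SimpleGraph V} {S : Set V} {v u : V} (h : Conn G S v u) : v ∈ S := by
  obtain ⟨p, hp⟩ := h
  exact hp _ p.start_mem_support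

theorem Conn.mem_right {G : SimpleGraph V} {S : Set V} {v u : V} (h : Conn G S v u) : u ∈ S := by
  obtain ⟨p, hp⟩ := h
  exact hp _ p.end_mem_support

end P67
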