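import Pool.Agent.Lib.P67f173.Chain

set_option autoImplicit false

/-!
Separation of a closed set, and of the new part of a closed set relative to an older closed set.
-/

namespace P67

variable {V : Type*} {G : SimpleGraph V}

open Classical in
/-- A small subset `S` of a closed set `X` which separates the rest of `X` into small parts. -/
theorem exists_sep [Fintype V] {D : ℕ → ℕ} (hD : Dens G D) (r q m m' K : ℕ)
    (hm : m' * q * (1 + (r + 1) * (D r * (1 + r * q ^ 2))) ≤ m)
    (hfrag : ∀ W : Finset V, ∃ Y : Finset V, Y ⊆ W ∧ m * Y.card ≤ W.card ∧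
      Small G ((W : Set V) \ (Y : Set V)) K)
    (X : Finset V) (hX : ∀ u, {x | Sees G r (X : Set V) u x}.ncard ≤ q) :
    ∃ S : Finset V, S ⊆ X ∧ m' * S.card ≤ X.card ∧
      ∀ a ∈ X, a ∉ S → {b | b ∈ X ∧ ∃ p : G.Walk a b, p.length ≤ r ∧
        ∀ w ∈ p.support, w ∉ S}.ncard ≤ K := by
  set A : Finset (V × V) := Finset.univ.filter (fun e : V × V => TPair G r (X : Set V) e.1 e.2)
    with hA
  have hAc : A.card ≤ D r * X.card * (1 + r * q ^ 2) := torso_card hD r q X hX
  have hAm : ∀ e, e ∈ A ↔ TPair G r (X : Set V) e.1 e.2 := by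
    intro e
    simp [hA]
  have hch : ∀ e : V × V, ∃ S : Finset V, e ∈ A → ∃ p : G.Walk e.1 e.2, p.IsPath ∧ p.length ≤ r ∧
      (∀ w ∈ p.support, w ∈ X → w = e.1 ∨ w = e.2) ∧ S = p.support.toFinset := by
    intro e
    by_cases he : e ∈ A
    · obtain ⟨p, h1, h2, h3⟩ := ((hAm e).mp he).path
      exact ⟨_, fun _ => ⟨p, h1, h2, fun w hw hwX => h3 w hw (by simpa using hwX), rfl⟩⟩
    · exact ⟨∅, fun h => (he h).elim⟩
  choose I hI using hch
  have hIcard : ∀ e ∈ A, (I e).card ≤ r + 1 := by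
    intro e he
    obtain ⟨p, h1, h2, h3, h4⟩ := hI e he
    rw [h4]
    have h6 : p.support.toFinset.card ≤ p.support.length := List.toFinset_card_le _
    rw [SimpleGraph.Walk.length_support] at h6
    omega
  let W : Finset V := X ∪ A.biUnion I
  have hW : W.card ≤ X.card * (1 + (r + 1) * (D r * (1 + r * q ^ 2))) := by
    calc W.card ≤ X.card + (A.biUnion I).card := Finset.card_union_le _ _
      _ ≤ X.card + ∑ e ∈ A, (I e).card := Nat.add_le_add_left Finset.card_biUnion_le _
      _ ≤ X.card + ∑ e ∈ A, (r + 1) := Nat.add_le_add_left (Finset.sum_le_sum hIcard) _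
      _ = X.card + A.card * (r + 1) := by rw [Finset.sum_const, smul_eq_mul]
      _ ≤ X.card + (D r * X.card * (1 + r * q ^ 2)) * (r + 1) :=
          Nat.add_le_add_left (Nat.mul_le_mul_right _ hAc) _
      _ = X.card * (1 + (r + 1) * (D r * (1 + r * q ^ 2))) := by ring
  obtain ⟨Y, hYW, hYc, hYs⟩ := hfrag W
  let M : V → Finset V := fun u => Finset.univ.filter (fun x => Sees G r (X : Set V) u x)
  have hM : ∀ u, (M u).card ≤ q := by
    intro u
    have := hX u
    rwa [← Set.ncard_coe_finset, show (↑(M u) : Set V) = {x | Sees G r (X : Set V) u x} by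
      ext x; simp [M]]
  set S : Finset V := Y.biUnion M with hSdef
  have hMem : ∀ u x, u ∈ Y → Sees G r (X : Set V) u x → x ∈ S := by
    intro u x hu hx
    exact Finset.mem_biUnion.mpr ⟨u, hu, Finset.mem_filter.mpr ⟨Finset.mem_univ _, hx⟩⟩
  have hself : ∀ a ∈ X, a ∈ Y → a ∈ S := by
    intro a ha haY
    refine hMem a a haY ⟨by simpa using ha, .nil, by simp, ?_⟩
    intro w hw _
    simpa using hw
  refine ⟨S, ?_, ?_, ?_⟩
  · intro x hx
    obtain ⟨u, hu, hxu⟩ := Finset.mem_biUnion.mp hx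
    have := (Finset.mem_filter.mp hxu).2.1
    simpa using this
  · -- cardinality
    have h1 : S.card ≤ Y.card * q := by
      calc (Y.biUnion M).card ≤ ∑ u ∈ Y, (M u).card := Finset.card_biUnion_le
        _ ≤ ∑ u ∈ Y, q := Finset.sum_le_sum (fun u _ => hM u)
        _ = Y.card * q := by rw [Finset.sum_const, smul_eq_mul]
    have h3 : (m' * S.card) * (1 + (r + 1) * (D r * (1 + r * q ^ 2))) ≤
        X.card * (1 + (r + 1) * (D r * (1 + r * q ^ 2))) := by
      calc (m' * S.card) * (1 + (r + 1) * (D r * (1 + r * q ^ 2)))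
          ≤ (m' * (Y.card * q)) * (1 + (r + 1) * (D r * (1 + r * q ^ 2))) :=
            Nat.mul_le_mul_right _ (Nat.mul_le_mul_left _ h1)
        _ = (m' * q * (1 + (r + 1) * (D r * (1 + r * q ^ 2)))) * Y.card := by ring
        _ ≤ m * Y.card := Nat.mul_le_mul_right _ hm
        _ ≤ W.card := hYc
        _ ≤ _ := hW
    exact Nat.le_of_mul_le_mul_right h3 (by omega)
  · intro a ha haS
    have hS : ∀ a ∈ (X : Set V), a ∉ (S : Set V) → a ∈ (W : Set V) \ (Y : Set V) := by
      intro a ha haS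
      refine ⟨?_, fun haY => haS ?_⟩
      · exact Finset.mem_coe.mpr (Finset.mem_union_left _ (by simpa using ha))
      · exact Finset.mem_coe.mpr (hself a (by simpa using ha) (by simpa using haY))
    have hconn : ∀ a b, a ∉ (S : Set V) → b ∉ (S : Set V) → TPair G r (X : Set V) a b →
        Conn G ((W : Set V) \ (Y : Set V)) a b := by
      intro a b ha' hb' hab
      have he : (a, b) ∈ A := (hAm (a, b)).mpr hab
      obtain ⟨p, h1, h2, h3, h4⟩ := hI (a, b) he
      have haX : a ∈ (X : Set V) := hab.1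
      have hbX : b ∈ (X : Set V) := hab.2.1
      refine ⟨p, fun w hw => ⟨?_, fun hwY => ?_⟩⟩
      · refine Finset.mem_coe.mpr (Finset.mem_union_right _ (Finset.mem_biUnion.mpr
          ⟨(a, b), he, ?_⟩))
        rw [h4]
        simpa using hw
      · have hwY' : w ∈ Y := by simpa using hwY
        by_cases hwb : w = b
        · subst hwb
          exact hb' (Finset.mem_coe.mpr (hself w (by simpa using hbX) hwY'))
        · have hs : Sees G r (X : Set V) w a :=
            Sees.of_path p h1 h2 (fun z hz hzX => h3 z hz (by simpa using hzX)) haX hw hwb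
          exact ha' (Finset.mem_coe.mpr (hMem w a hwY' hs))
    have hsub : {b | b ∈ X ∧ ∃ p : G.Walk a b, p.length ≤ r ∧ ∀ w ∈ p.support, w ∉ S} ⊆
        {u | Conn G ((W : Set V) \ (Y : Set V)) a u} := by
      rintro b ⟨hb, p, hp, hpw⟩
      exact own_conn hS hconn r a b p hp le_rfl (by simpa using ha) (by simpa using hb)
        (fun w hw => by simpa using hpw w hw)
    exact (Set.ncard_le_ncard hsub (Set.toFinite _)).trans
      (hYs a (hS a (by simpa using ha) (by simpa using haS)))

/-- the graph `G` with the edges at vertices of `A` deleted -/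
def del (G : SimpleGraph V) (A : Set V) : SimpleGraph V where
  Adj a b := G.Adj a b ∧ a ∉ A ∧ b ∉ A
  symm := ⟨fun _ _ h => ⟨h.1.symm, h.2.2, h.2.1⟩⟩
  loopless := ⟨fun _ h => h.1.ne rfl⟩

theorem del_le (A : Set V) : del G A ≤ G := fun _ _ h => h.1

/-- a walk of `del G A` as a walk of `G` -/
theorem del_walk {A : Set V} {a b : V} (p : (del G A).Walk a b) :
    ∃ q : G.Walk a b, q.length = p.length ∧ q.support = p.support ∧
      (q.length ≠ 0 → ∀ w ∈ q.support, w ∉ A) := by
  induction p with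
  | nil => exact ⟨.nil, rfl, rfl, fun h => absurd rfl h⟩
  | @cons a b c h p ih =>
    obtain ⟨q, hq1, hq2, hq3⟩ := ih
    refine ⟨.cons h.1 q, by simp [hq1], by simp [hq2], ?_⟩
    intro _ w hw
    rw [SimpleGraph.Walk.support_cons, List.mem_cons] at hw
    rcases hw with rfl | hw
    · exact h.2.1
    · by_cases h0 : q.length = 0
      · cases q with
        | nil =>
          simp only [SimpleGraph.Walk.support_nil, List.mem_singleton] at hw
          rw [hw]
          exact h.2.2
        | cons h' q' => simp at h0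
      · exact hq3 h0 w hw

/-- a walk of `G` which avoids `A` as a walk of `del G A` -/
theorem walk_del {A : Set V} {a b : V} (p : G.Walk a b) (h : ∀ w ∈ p.support, w ∉ A) :
    ∃ q : (del G A).Walk a b, q.length = p.length ∧ q.support = p.support := by
  induction p with
  | nil => exact ⟨.nil, rfl, rfl⟩
  | @cons a b c hab p ih =>
    obtain ⟨q, hq1, hq2⟩ := ih (fun w hw => h w (by simp [hw]))
    have hadj : (del G A).Adj a b := ⟨hab, h a (by simp), h b (by simp)⟩
    refine ⟨SimpleGraph.Walk.cons hadj q, ?_, ?_⟩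
    · rw [SimpleGraph.Walk.length_cons, SimpleGraph.Walk.length_cons, hq1]
    · rw [SimpleGraph.Walk.support_cons, SimpleGraph.Walk.support_cons, hq2]

theorem dens_del {D : ℕ → ℕ} (hD : Dens G D) (A : Set V) : Dens (del G A) D := by
  intro s m B E h1 h2 h3
  refine hD s m B E h1 ?_ ?_
  · intro i
    obtain ⟨x, hx, h⟩ := h2 i
    refine ⟨x, hx, fun y hy => ?_⟩
    obtain ⟨p, hp, hpw⟩ := h y hy
    obtain ⟨q, hq1, hq2, -⟩ := del_walk p
    exact ⟨q, by omega, by rw [hq2]; exact hpw⟩
  · intro e he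
    obtain ⟨hne, a, ha, b, hb, hab⟩ := h3 e he
    exact ⟨hne, a, ha, b, hb, hab.1⟩

theorem small_del [Finite V] {T : Set V} {K : ℕ} (h : Small G T K) (A : Set V) :
    Small (del G A) T K := by
  intro v hv
  refine le_trans (Set.ncard_le_ncard ?_ (Set.toFinite _)) (h v hv)
  rintro u ⟨p, hp⟩
  obtain ⟨q, -, hq2, -⟩ := del_walk p
  exact ⟨q, by rw [hq2]; exact hp⟩

open Classical in
/-- Separation of the new part of a closed set relative to an older set. -/
theorem exists_batch_sep [Fintype V] {D : ℕ → ℕ} (hD : Dens G D) (r q m m' K : ℕ)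
    (hm : m' * q * (1 + (r + 1) * (D r * (1 + r * q ^ 2))) ≤ m)
    (hfrag : ∀ W : Finset V, ∃ Y : Finset V, Y ⊆ W ∧ m * Y.card ≤ W.card ∧
      Small G ((W : Set V) \ (Y : Set V)) K)
    (A A' : Finset V) (hA' : ∀ u, {x | Sees G r (A' : Set V) u x}.ncard ≤ q) :
    ∃ S : Finset V, S ⊆ A' \ A ∧ m' * S.card ≤ (A' \ A).card ∧
      ∀ a ∈ A' \ A, a ∉ S → {b | b ∈ A' \ A ∧ ∃ p : G.Walk a b, p.length ≤ r ∧
        ∀ w ∈ p.support, w ∉ A ∧ w ∉ S}.ncard ≤ K := by
  have hX : ∀ u, {x | Sees (del G (A : Set V)) r ((A' \ A : Finset V) : Set V) u x}.ncard ≤ q := by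
    intro u
    refine le_trans (Set.ncard_le_ncard ?_ (Set.toFinite _)) (hA' u)
    rintro x ⟨hx, p, hp, hpw⟩
    have hx' := Finset.mem_sdiff.mp (Finset.mem_coe.mp hx)
    obtain ⟨p', hq1, hq2, hq3⟩ := del_walk p
    refine ⟨Finset.mem_coe.mpr hx'.1, p', by omega, ?_⟩
    intro w hw hwA'
    by_cases hwA : w ∈ A
    · by_cases h0 : p'.length = 0
      · cases p' with
        | nil =>
          simp only [SimpleGraph.Walk.support_nil, List.mem_singleton] at hw
          exact hw
        | cons h' q' => simp at h0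
      · exact absurd (Finset.mem_coe.mpr hwA) (hq3 h0 w hw)
    · rw [hq2] at hw
      exact hpw w hw (Finset.mem_coe.mpr (Finset.mem_sdiff.mpr ⟨Finset.mem_coe.mp hwA', hwA⟩))
  obtain ⟨S, hS1, hS2, hS3⟩ := exists_sep (G := del G (A : Set V)) (dens_del hD _) r q m m' K hm
    (fun W => by
      obtain ⟨Y, h1, h2, h3⟩ := hfrag W
      exact ⟨Y, h1, h2, small_del h3 _⟩) (A' \ A) hX
  refine ⟨S, hS1, hS2, fun a ha haS => ?_⟩
  refine le_trans (Set.ncard_le_ncard ?_ (Set.toFinite _)) (hS3 a ha haS)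
  rintro b ⟨hb, p, hp, hpw⟩
  obtain ⟨p', hq1, hq2⟩ := walk_del (A := (A : Set V)) p
    (fun w hw => fun h => (hpw w hw).1 (Finset.mem_coe.mp h))
  exact ⟨hb, p', by omega, fun w hw => (hpw w (by rwa [hq2] at hw)).2⟩

end P67
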