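import Pool.Agent.Lib.P67f173.Basic

set_option autoImplicit false

/-!
The torso of a closed set has few edges.
-/

namespace P67

variable {V : Type*} {G : SimpleGraph V}

theorem Sees.of_path {r : ℕ} {X : Set V} {a b : V} (p : G.Walk a b) (hp : p.IsPath)
    (hl : p.length ≤ r) (hX : ∀ w ∈ p.support, w ∈ X → w = a ∨ w = b) (ha : a ∈ X) {u : V}
    (hu : u ∈ p.support) (hub : u ≠ b) : Sees G r X u a := by
  classical
  refine ⟨ha, (p.takeUntil u hu).reverse, ?_, ?_⟩
  · rw [SimpleGraph.Walk.length_reverse]
    exact (p.length_takeUntil_le_length hu).trans hl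
  · intro w hw hwX
    rw [SimpleGraph.Walk.support_reverse, List.mem_reverse] at hw
    rcases hX w (p.support_takeUntil_subset_support hu hw) hwX with h | h
    · exact h
    · subst h
      exact (SimpleGraph.Walk.endpoint_notMem_support_takeUntil hp hu (fun h => hub h.symm) hw).elim

theorem TPair.path {r : ℕ} {X : Set V} {a b : V} (h : TPair G r X a b) :
    ∃ p : G.Walk a b, p.IsPath ∧ p.length ≤ r ∧ ∀ w ∈ p.support, w ∈ X → w = a ∨ w = b := by
  classical
  obtain ⟨-, -, -, p, hp, hw⟩ := h
  exact ⟨p.toPath, p.toPath.2, (p.length_bypass_le_length).trans hp,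
    fun w hws hwX => hw w (p.support_toPath_subset_support hws) hwX⟩

open Classical in
theorem torso_card [Fintype V] {D : ℕ → ℕ} (hD : Dens G D) (r q : ℕ) (X : Finset V)
    (hq : ∀ u, {x | Sees G r (X : Set V) u x}.ncard ≤ q) :
    (Finset.univ.filter (fun e : V × V => TPair G r (X : Set V) e.1 e.2)).card ≤
      D r * X.card * (1 + r * q ^ 2) := by
  set A : Finset (V × V) := Finset.univ.filter (fun e : V × V => TPair G r (X : Set V) e.1 e.2)
    with hA
  have hAm : ∀ e, e ∈ A ↔ TPair G r (X : Set V) e.1 e.2 := by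
    intro e
    simp [hA]
  have hch : ∀ e : V × V, ∃ S : Finset V, e ∈ A → ∃ p : G.Walk e.1 e.2, p.IsPath ∧ p.length ≤ r ∧
      (∀ w ∈ p.support, w ∈ X → w = e.1 ∨ w = e.2) ∧ S = p.support.toFinset \ {e.1, e.2} := by
    intro e
    by_cases he : e ∈ A
    · obtain ⟨p, h1, h2, h3⟩ := ((hAm e).mp he).path
      exact ⟨_, fun _ => ⟨p, h1, h2, fun w hw hwX => h3 w hw (by simpa using hwX), rfl⟩⟩
    · exact ⟨∅, fun h => (he h).elim⟩
  choose I hI using hch
  have hIcard : ∀ e ∈ A, (I e).card ≤ r := by
    intro e he
    obtain ⟨p, h1, h2, h3, h4⟩ := hI e he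
    have hsub : I e ⊆ p.support.toFinset.erase e.1 := by
      rw [h4]
      intro w hw
      simp only [Finset.mem_sdiff, Finset.mem_insert, Finset.mem_singleton, not_or] at hw
      exact Finset.mem_erase.mpr ⟨hw.2.1, hw.1⟩
    have h5 := Finset.card_le_card hsub
    rw [Finset.card_erase_of_mem (by simp)] at h5
    have h6 : p.support.toFinset.card ≤ p.support.length := List.toFinset_card_le _
    rw [SimpleGraph.Walk.length_support] at h6
    omega
  have hIX : ∀ e ∈ A, ∀ w ∈ I e, w ∉ X := by
    intro e he w hw hwX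
    obtain ⟨p, h1, h2, h3, h4⟩ := hI e he
    rw [h4] at hw
    simp only [Finset.mem_sdiff, Finset.mem_insert, Finset.mem_singleton, not_or,
      List.mem_toFinset] at hw
    rcases h3 w hw.1 hwX with h | h
    · exact hw.2.1 h
    · exact hw.2.2 h
  -- a maximal family with disjoint interiors
  let P : Finset (V × V) → Prop := fun F => ∀ e ∈ F, ∀ f ∈ F, e ≠ f → Disjoint (I e) (I f)
  obtain ⟨F, hF, hFmax⟩ := Finset.exists_max_image (A.powerset.filter P) Finset.card
    ⟨∅, by simp [P]⟩
  obtain ⟨hFA, hFP⟩ := Finset.mem_filter.mp hF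
  rw [Finset.mem_powerset] at hFA
  -- its size
  have hFcard : F.card ≤ D r * X.card := by
    let B : {x // x ∈ X} → Set V := fun a => {y | y = a.1 ∨ ∃ e ∈ F, e.1 = a.1 ∧ y ∈ I e}
    let E' : Finset ({x // x ∈ X} × {x // x ∈ X}) :=
      Finset.univ.filter (fun e => (e.1.1, e.2.1) ∈ F)
    have h := hD.fintype (ι := {x // x ∈ X}) r B E' ?_ ?_ ?_
    · have hc : E'.card = F.card := by
        apply Finset.card_bij (fun e _ => (e.1.1, e.2.1))
        · intro e he
          simpa [E'] using he
        · intro e _ e' _ h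
          rw [Prod.mk.injEq] at h
          exact Prod.ext (Subtype.ext h.1) (Subtype.ext h.2)
        · intro e he
          obtain ⟨ha, hb, -⟩ := (hAm e).mp (hFA he)
          exact ⟨(⟨e.1, by simpa using ha⟩, ⟨e.2, by simpa using hb⟩), by simpa [E'] using he, rfl⟩
      rw [hc] at h
      simpa using h
    · intro i j hij
      rw [Set.disjoint_left]
      intro y hy hy'
      have hne : i.1 ≠ j.1 := fun h => hij (Subtype.ext h)
      rcases hy with hy | ⟨e, he, hei, hy⟩
      · rcases hy' with hy' | ⟨f, hf, hfj, hy'⟩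
        · exact hne (hy.symm.trans hy')
        · exact hIX f (hFA hf) y hy' (hy ▸ i.2)
      · rcases hy' with hy' | ⟨f, hf, hfj, hy'⟩
        · exact hIX e (hFA he) y hy (hy' ▸ j.2)
        · have hef : e ≠ f := by
            rintro rfl
            exact hne (hei.symm.trans hfj)
          exact Finset.disjoint_left.mp (hFP e he f hf hef) hy hy'
    · intro i
      refine ⟨i.1, Or.inl rfl, ?_⟩
      rintro y (hy | ⟨e, he, hei, hy⟩)
      · subst hy
        exact ⟨.nil, by simp, by simp [B]⟩
      · obtain ⟨p, h1, h2, h3, h4⟩ := hI e (hFA he)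
        have hy0 := hy
        rw [h4] at hy
        simp only [Finset.mem_sdiff, Finset.mem_insert, Finset.mem_singleton, not_or,
          List.mem_toFinset] at hy
        have key : Within G (B i) r e.1 y := by
          refine ⟨p.takeUntil y hy.1, (p.length_takeUntil_le_length hy.1).trans h2, ?_⟩
          intro w hw
          have hw' := p.support_takeUntil_subset_support hy.1 hw
          have hw2 : w ≠ e.2 := by
            rintro rfl
            exact SimpleGraph.Walk.endpoint_notMem_support_takeUntil h1 hy.1
              (fun h => hy.2.2 h.symm) hw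
          by_cases hw1 : w = e.1
          · exact Or.inl (hw1.trans hei)
          · refine Or.inr ⟨e, he, hei, ?_⟩
            rw [h4]
            simp [hw1, hw2, hw']
        rwa [hei] at key
    · intro e he
      have he' : (e.1.1, e.2.1) ∈ F := by simpa [E'] using he
      obtain ⟨p, h1, h2, h3, h4⟩ := hI _ (hFA he')
      obtain ⟨-, -, hne, -⟩ := (hAm _).mp (hFA he')
      have hnn : ¬ p.Nil := SimpleGraph.Walk.not_nil_of_ne hne
      have hadj := p.adj_penultimate hnn
      refine ⟨fun h => hne (congrArg Subtype.val h), p.penultimate, ?_, e.2.1, Or.inl rfl, hadj⟩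
      by_cases hp1 : p.penultimate = e.1.1
      · exact Or.inl hp1
      · refine Or.inr ⟨_, he', rfl, ?_⟩
        rw [h4]
        have := List.mem_of_mem_dropLast (p.penultimate_mem_dropLast_support hnn)
        simp [hp1, hadj.ne, this]
  -- the other pairs conflict
  let M : V → Finset V := fun u => Finset.univ.filter (fun x => Sees G r (X : Set V) u x)
  have hM : ∀ u, (M u).card ≤ q := by
    intro u
    have := hq u
    rwa [← Set.ncard_coe_finset, show (↑(M u) : Set V) = {x | Sees G r (X : Set V) u x} by
      ext x; simp [M]]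
  have hcov : A ⊆ F ∪ (F.biUnion I).biUnion (fun u => M u ×ˢ M u) := by
    intro e he
    by_cases heF : e ∈ F
    · exact Finset.mem_union_left _ heF
    · apply Finset.mem_union_right
      have hno : ¬ P (insert e F) := by
        intro hP
        have := hFmax (insert e F) (Finset.mem_filter.mpr
          ⟨Finset.mem_powerset.mpr (Finset.insert_subset he hFA), hP⟩)
        rw [Finset.card_insert_of_notMem heF] at this
        omega
      have hex : ∃ f ∈ F, ¬ Disjoint (I e) (I f) := by
        by_contra hcon
        push Not at hcon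
        apply hno
        intro a ha b hb hab
        rcases Finset.mem_insert.mp ha with hae | haF
        · rcases Finset.mem_insert.mp hb with hbe | hbF
          · exact (hab (hae.trans hbe.symm)).elim
          · rw [hae]
            exact hcon b hbF
        · rcases Finset.mem_insert.mp hb with hbe | hbF
          · rw [hbe]
            exact (hcon a haF).symm
          · exact hFP a haF b hbF hab
      obtain ⟨f, hf, hdis⟩ := hex
      obtain ⟨u, hu, hu'⟩ := Finset.not_disjoint_iff.mp hdis
      obtain ⟨p, h1, h2, h3, h4⟩ := hI e he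
      obtain ⟨ha, hb, -, -⟩ := (hAm e).mp he
      rw [h4] at hu
      simp only [Finset.mem_sdiff, Finset.mem_insert, Finset.mem_singleton, not_or,
        List.mem_toFinset] at hu
      refine Finset.mem_biUnion.mpr ⟨u, Finset.mem_biUnion.mpr ⟨f, hf, hu'⟩, ?_⟩
      refine Finset.mem_product.mpr ⟨?_, ?_⟩
      · refine Finset.mem_filter.mpr ⟨Finset.mem_univ _, ?_⟩
        exact Sees.of_path p h1 h2 (fun w hw hwX => h3 w hw (by simpa using hwX)) ha hu.1 hu.2.2
      · refine Finset.mem_filter.mpr ⟨Finset.mem_univ _, ?_⟩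
        refine Sees.of_path p.reverse h1.reverse (by simpa using h2) ?_ hb (by simpa using hu.1)
          hu.2.1
        intro w hw hwX
        exact (h3 w (by simpa using hw) (by simpa using hwX)).symm
  calc A.card ≤ (F ∪ (F.biUnion I).biUnion (fun u => M u ×ˢ M u)).card :=
        Finset.card_le_card hcov
    _ ≤ F.card + ((F.biUnion I).biUnion (fun u => M u ×ˢ M u)).card := Finset.card_union_le _ _
    _ ≤ F.card + ∑ u ∈ F.biUnion I, (M u ×ˢ M u).card :=
        Nat.add_le_add_left Finset.card_biUnion_le _
    _ ≤ F.card + ∑ u ∈ F.biUnion I, q ^ 2 := by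
        refine Nat.add_le_add_left (Finset.sum_le_sum (fun u _ => ?_)) _
        rw [Finset.card_product, sq]
        exact Nat.mul_le_mul (hM u) (hM u)
    _ = F.card + (F.biUnion I).card * q ^ 2 := by rw [Finset.sum_const, smul_eq_mul]
    _ ≤ F.card + (∑ f ∈ F, (I f).card) * q ^ 2 :=
        Nat.add_le_add_left (Nat.mul_le_mul_right _ Finset.card_biUnion_le) _
    _ ≤ F.card + (∑ f ∈ F, r) * q ^ 2 :=
        Nat.add_le_add_left (Nat.mul_le_mul_right _
          (Finset.sum_le_sum (fun f hf => hIcard f (hFA hf)))) _
    _ = F.card * (1 + r * q ^ 2) := by rw [Finset.sum_const, smul_eq_mul]; ring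
    _ ≤ D r * X.card * (1 + r * q ^ 2) := Nat.mul_le_mul_right _ hFcard

end P67
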