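import Pool.Agent.Lib.P67f173.Closure
import Pool.Agent.Lib.P67f173.Torso

set_option autoImplicit false

/-!
The chain of closed sets and the vertex order obtained from it.
-/

namespace P67

section own

variable {V : Type*} {G : SimpleGraph V}

/-- Short walks avoiding `X'` between vertices of `X \ X'` stay in one component of `G[S]`. -/
theorem own_conn {r : ℕ} {X X' S : Set V}
    (hS : ∀ a ∈ X, a ∉ X' → a ∈ S)
    (hconn : ∀ a b, a ∉ X' → b ∉ X' → TPair G r X a b → Conn G S a b) :
    ∀ (n : ℕ) (a b : V) (p : G.Walk a b), p.length ≤ n → n ≤ r → a ∈ X → b ∈ X →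
      (∀ w ∈ p.support, w ∉ X') → Conn G S a b := by
  classical
  intro n
  induction n using Nat.strong_induction_on with
  | _ n ih =>
    intro a b p hpn hnr ha hb hX'
    have haX' : a ∉ X' := hX' a p.start_mem_support
    have hbX' : b ∉ X' := hX' b p.end_mem_support
    by_cases hab : a = b
    · subst hab
      exact Conn.refl (hS a ha haX')
    -- pass to a path
    have hq1 : (p.toPath : G.Walk a b).length ≤ n := (p.length_bypass_le_length).trans hpn
    have hq2 : ∀ w ∈ (p.toPath : G.Walk a b).support, w ∉ X' :=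
      fun w hw => hX' w (p.support_toPath_subset_support hw)
    have hq3 : (p.toPath : G.Walk a b).IsPath := p.toPath.2
    generalize (p.toPath : G.Walk a b) = q at hq1 hq2 hq3
    by_cases hin : ∀ w ∈ q.support, w ∈ X → w = a ∨ w = b
    · exact hconn a b haX' hbX' ⟨ha, hb, hab, q, hq1.trans hnr, hin⟩
    · push Not at hin
      obtain ⟨w, hw, hwX, hwa, hwb⟩ := hin
      have hlen : (q.takeUntil w hw).length + (q.dropUntil w hw).length = q.length := by
        rw [← SimpleGraph.Walk.length_append, q.take_spec hw]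
      have h1 : (q.takeUntil w hw).length ≠ 0 := by
        intro h0
        exact hwa (SimpleGraph.Walk.eq_of_length_eq_zero h0).symm
      have h2 : (q.dropUntil w hw).length ≠ 0 := by
        intro h0
        exact hwb (SimpleGraph.Walk.eq_of_length_eq_zero h0)
      have c1 : Conn G S a w := ih (q.takeUntil w hw).length (by omega) a w (q.takeUntil w hw) le_rfl
        (by omega) ha hwX (fun x hx => hq2 x (q.support_takeUntil_subset_support hw hx))
      have c2 : Conn G S w b := ih (q.dropUntil w hw).length (by omega) w b (q.dropUntil w hw) le_rfl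
        (by omega) hwX hb (fun x hx => hq2 x (q.support_dropUntil_subset_support hw hx))
      exact c1.trans c2

open Classical in
/-- One step of the chain. -/
theorem exists_step [Fintype V] {D : ℕ → ℕ} (hD : Dens G D) (r ξ q m K : ℕ)
    (hξ : 2 * D r + 1 ≤ ξ) (hq : ξ * (ξ * r + 1) ≤ q)
    (hm : 4 * (ξ * r + 1) * q * (1 + (r + 1) * (D r * (1 + r * q ^ 2))) ≤ m)
    (hfrag : ∀ W : Finset V, ∃ Y : Finset V, Y ⊆ W ∧ m * Y.card ≤ W.card ∧
      Small G ((W : Set V) \ (Y : Set V)) K)
    (X : Finset V) (hX : ∀ u, {x | Sees G r (X : Set V) u x}.ncard ≤ q) :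
    ∃ X' : Finset V, 2 * X'.card ≤ X.card ∧
      (∀ u, {x | Sees G r (X' : Set V) u x}.ncard ≤ q) ∧
      ∀ a ∈ X, a ∉ X' → {b | b ∈ X ∧ ∃ p : G.Walk a b, p.length ≤ r ∧
        ∀ w ∈ p.support, w ∉ X'}.ncard ≤ K := by
  set A : Finset (V × V) := Finset.univ.filter (fun e : V × V => TPair G r (X : Set V) e.1 e.2)
    with hA
  have hAc : A.card ≤ D r * X.card * (1 + r * q ^ 2) := torso_card hD r q X hX
  have hAm : ∀ e, e ∈ A ↔ TPair G r (X : Set V) e.1 e.2 := by
    intro e
    simp [hA]
  have hch : ∀ e : V × V, ∃ S : Finset V, e ∈ A → ∃ p : G.Walk e.1 e.2, p.IsPath ∧ p.length ≤ r ∧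
      (∀ w ∈ p.support, w ∈ X → w = e.1 ∨ w = e.2) ∧ S = p.support.toFinset := by
    intro e
    by_cases he : e ∈ A
    · obtain ⟨p, h1, h2, h3⟩ := ((hAm e).mp he).path
      exact ⟨_, fun _ => ⟨p, h1, h2, fun w hw hwX => h3 w hw (by simpa using hwX), rfl⟩⟩
    · exact ⟨∅, fun h => (he h).elim⟩
  choose I hI using hch
  have hIcard : ∀ e ∈ A, (I e).card ≤ r + 1 := by
    intro e he
    obtain ⟨p, h1, h2, h3, h4⟩ := hI e he
    rw [h4]
    have h6 : p.support.toFinset.card ≤ p.support.length := List.toFinset_card_le _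
    rw [SimpleGraph.Walk.length_support] at h6
    omega
  let W : Finset V := X ∪ A.biUnion I
  have hW : W.card ≤ X.card * (1 + (r + 1) * (D r * (1 + r * q ^ 2))) := by
    calc W.card ≤ X.card + (A.biUnion I).card := Finset.card_union_le _ _
      _ ≤ X.card + ∑ e ∈ A, (I e).card := Nat.add_le_add_left Finset.card_biUnion_le _
      _ ≤ X.card + ∑ e ∈ A, (r + 1) := Nat.add_le_add_left (Finset.sum_le_sum hIcard) _
      _ = X.card + A.card * (r + 1) := by rw [Finset.sum_const, smul_eq_mul]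
      _ ≤ X.card + (D r * X.card * (1 + r * q ^ 2)) * (r + 1) :=
          Nat.add_le_add_left (Nat.mul_le_mul_right _ hAc) _
      _ = X.card * (1 + (r + 1) * (D r * (1 + r * q ^ 2))) := by ring
  obtain ⟨Y, hYW, hYc, hYs⟩ := hfrag W
  let M : V → Finset V := fun u => Finset.univ.filter (fun x => Sees G r (X : Set V) u x)
  have hM : ∀ u, (M u).card ≤ q := by
    intro u
    have := hX u
    rwa [← Set.ncard_coe_finset, show (↑(M u) : Set V) = {x | Sees G r (X : Set V) u x} by
      ext x; simp [M]]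
  obtain ⟨X', hYX', hX'c, hX'⟩ := exists_closed hD r ξ hξ (Y.biUnion M)
  have hMem : ∀ u x, u ∈ Y → Sees G r (X : Set V) u x → x ∈ X' := by
    intro u x hu hx
    exact hYX' (Finset.mem_biUnion.mpr ⟨u, hu, Finset.mem_filter.mpr ⟨Finset.mem_univ _, hx⟩⟩)
  have hself : ∀ a ∈ X, a ∈ Y → a ∈ X' := by
    intro a ha haY
    refine hMem a a haY ⟨by simpa using ha, .nil, by simp, ?_⟩
    intro w hw _
    simpa using hw
  refine ⟨X', ?_, fun u => (hX' u).trans hq, ?_⟩
  · -- cardinality
    have h1 : (Y.biUnion M).card ≤ Y.card * q := by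
      calc (Y.biUnion M).card ≤ ∑ u ∈ Y, (M u).card := Finset.card_biUnion_le
        _ ≤ ∑ u ∈ Y, q := Finset.sum_le_sum (fun u _ => hM u)
        _ = Y.card * q := by rw [Finset.sum_const, smul_eq_mul]
    have h2 : 2 * X'.card ≤ 4 * (ξ * r + 1) * q * Y.card := by
      calc 2 * X'.card ≤ 2 * (2 * (ξ * r + 1) * (Y.biUnion M).card) := Nat.mul_le_mul_left _ hX'c
        _ ≤ 2 * (2 * (ξ * r + 1) * (Y.card * q)) :=
          Nat.mul_le_mul_left _ (Nat.mul_le_mul_left _ h1)
        _ = 4 * (ξ * r + 1) * q * Y.card := by ring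
    have h3 : (2 * X'.card) * (1 + (r + 1) * (D r * (1 + r * q ^ 2))) ≤
        X.card * (1 + (r + 1) * (D r * (1 + r * q ^ 2))) := by
      calc (2 * X'.card) * (1 + (r + 1) * (D r * (1 + r * q ^ 2)))
          ≤ (4 * (ξ * r + 1) * q * Y.card) * (1 + (r + 1) * (D r * (1 + r * q ^ 2))) :=
            Nat.mul_le_mul_right _ h2
        _ = (4 * (ξ * r + 1) * q * (1 + (r + 1) * (D r * (1 + r * q ^ 2)))) * Y.card := by ring
        _ ≤ m * Y.card := Nat.mul_le_mul_right _ hm
        _ ≤ W.card := hYc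
        _ ≤ _ := hW
    exact Nat.le_of_mul_le_mul_right h3 (by omega)
  · intro a ha haX'
    have hS : ∀ a ∈ (X : Set V), a ∉ (X' : Set V) → a ∈ (W : Set V) \ (Y : Set V) := by
      intro a ha haX'
      refine ⟨?_, fun haY => haX' ?_⟩
      · exact Finset.mem_coe.mpr (Finset.mem_union_left _ (by simpa using ha))
      · exact Finset.mem_coe.mpr (hself a (by simpa using ha) (by simpa using haY))
    have hconn : ∀ a b, a ∉ (X' : Set V) → b ∉ (X' : Set V) → TPair G r (X : Set V) a b →
        Conn G ((W : Set V) \ (Y : Set V)) a b := by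
      intro a b ha' hb' hab
      have he : (a, b) ∈ A := (hAm (a, b)).mpr hab
      obtain ⟨p, h1, h2, h3, h4⟩ := hI (a, b) he
      have haX : a ∈ (X : Set V) := hab.1
      have hbX : b ∈ (X : Set V) := hab.2.1
      refine ⟨p, fun w hw => ⟨?_, fun hwY => ?_⟩⟩
      · refine Finset.mem_coe.mpr (Finset.mem_union_right _ (Finset.mem_biUnion.mpr
          ⟨(a, b), he, ?_⟩))
        rw [h4]
        simpa using hw
      · have hwY' : w ∈ Y := by simpa using hwY
        by_cases hwb : w = b
        · subst hwb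
          exact hb' (Finset.mem_coe.mpr (hself w (by simpa using hbX) hwY'))
        · have hs : Sees G r (X : Set V) w a :=
            Sees.of_path p h1 h2 (fun z hz hzX => h3 z hz (by simpa using hzX)) haX hw hwb
          exact ha' (Finset.mem_coe.mpr (hMem w a hwY' hs))
    have hsub : {b | b ∈ X ∧ ∃ p : G.Walk a b, p.length ≤ r ∧ ∀ w ∈ p.support, w ∉ X'} ⊆
        {u | Conn G ((W : Set V) \ (Y : Set V)) a u} := by
      rintro b ⟨hb, p, hp, hpw⟩
      exact own_conn hS hconn r a b p hp le_rfl (by simpa using ha) (by simpa using hb)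
        (fun w hw => by simpa using hpw w hw)
    exact (Set.ncard_le_ncard hsub (Set.toFinite _)).trans
      (hYs a (hS a (by simpa using ha) (by simpa using haX')))

end own

open Classical in
/-- The order obtained from a chain. -/
theorem exists_order (n : ℕ) (G : SimpleGraph (Fin n)) {D : ℕ → ℕ} (hD : Dens G D)
    (r ξ q m K : ℕ) (hξ : 2 * D r + 1 ≤ ξ) (hq : ξ * (ξ * r + 1) ≤ q)
    (hm : 4 * (ξ * r + 1) * q * (1 + (r + 1) * (D r * (1 + r * q ^ 2))) ≤ m)
    (hfrag : ∀ W : Finset (Fin n), ∃ Y : Finset (Fin n), Y ⊆ W ∧ m * Y.card ≤ W.card ∧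
      Small G ((W : Set (Fin n)) \ (Y : Set (Fin n))) K) :
    ∃ σ : Equiv.Perm (Fin n), ∀ v : Fin n,
      {u : Fin n | σ u < σ v ∧ ∃ p : G.Walk u v, p.length ≤ r ∧
        ∀ w ∈ p.support, w ≠ u → w ≠ v → σ v < σ w}.ncard ≤ q * (Nat.log 2 n + 1) + K := by
  -- the chain
  let Cl : Finset (Fin n) → Prop := fun X => ∀ u, {x | Sees G r (X : Set (Fin n)) u x}.ncard ≤ q
  have hstep : ∀ X : {X : Finset (Fin n) // Cl X}, ∃ X' : {X : Finset (Fin n) // Cl X},
      2 * X'.1.card ≤ X.1.card ∧
      ∀ a ∈ X.1, a ∉ X'.1 → {b | b ∈ X.1 ∧ ∃ p : G.Walk a b, p.length ≤ r ∧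
        ∀ w ∈ p.support, w ∉ X'.1}.ncard ≤ K := by
    rintro ⟨X, hX⟩
    obtain ⟨X', h1, h2, h3⟩ := exists_step hD r ξ q m K hξ hq hm hfrag X hX
    exact ⟨⟨X', h2⟩, h1, h3⟩
  choose f hf using hstep
  have huniv : Cl Finset.univ := by
    intro u
    have hsub : {x | Sees G r ((Finset.univ : Finset (Fin n)) : Set (Fin n)) u x} ⊆ {u} := by
      rintro x ⟨-, p, -, hp⟩
      exact (hp u p.start_mem_support (by simp)).symm
    calc _ ≤ ({u} : Set (Fin n)).ncard := Set.ncard_le_ncard hsub (Set.finite_singleton u)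
      _ = 1 := Set.ncard_singleton u
      _ ≤ 1 * 1 := by norm_num
      _ ≤ ξ * (ξ * r + 1) := Nat.mul_le_mul (by omega) (by omega)
      _ ≤ q := hq
  let A' : ℕ → {X : Finset (Fin n) // Cl X} := fun j => f^[j] ⟨Finset.univ, huniv⟩
  let A : ℕ → Finset (Fin n) := fun j => (A' j).1
  have hA0 : A 0 = Finset.univ := rfl
  have hAs : ∀ j, A' (j + 1) = f (A' j) := fun j => Function.iterate_succ_apply' f j _
  have hhalf : ∀ j, 2 * (A (j + 1)).card ≤ (A j).card := by
    intro j
    show 2 * (A' (j + 1)).1.card ≤ (A' j).1.card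
    rw [hAs]
    exact (hf (A' j)).1
  have hcl : ∀ j u, {x | Sees G r (A j : Set (Fin n)) u x}.ncard ≤ q := fun j => (A' j).2
  have hown : ∀ j, ∀ a ∈ A j, a ∉ A (j + 1) → {b | b ∈ A j ∧ ∃ p : G.Walk a b, p.length ≤ r ∧
        ∀ w ∈ p.support, w ∉ A (j + 1)}.ncard ≤ K := by
    intro j
    have := (hf (A' j)).2
    rw [← hAs] at this
    exact this
  have hpow : ∀ j, 2 ^ j * (A j).card ≤ n := by
    intro j
    induction j with
    | zero => simp [hA0]
    | succ j ih =>
      calc 2 ^ (j + 1) * (A (j + 1)).card = 2 ^ j * (2 * (A (j + 1)).card) := by ring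
        _ ≤ 2 ^ j * (A j).card := Nat.mul_le_mul_left _ (hhalf j)
        _ ≤ n := ih
  set T : ℕ := Nat.log 2 n + 1 with hT
  have hempty : ∀ j, T ≤ j → A j = ∅ := by
    intro j hj
    by_contra hne
    have hpos : 0 < (A j).card := Finset.card_pos.mpr (Finset.nonempty_iff_ne_empty.mpr hne)
    have h1 : n < 2 ^ T := Nat.lt_pow_succ_log_self (by norm_num) n
    have h2 : 2 ^ T ≤ 2 ^ j := Nat.pow_le_pow_right (by norm_num) hj
    have h3 := hpow j
    have h4 : 2 ^ j * 1 ≤ 2 ^ j * (A j).card := Nat.mul_le_mul_left _ hpos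
    omega
  -- levels
  let lev : Fin n → ℕ := fun v => Nat.findGreatest (fun j => v ∈ A j) T
  have hlevmem : ∀ v, v ∈ A (lev v) := by
    intro v
    exact Nat.findGreatest_spec (P := fun j => v ∈ A j) (Nat.zero_le T) (by simp [hA0])
  have hlevle : ∀ v, lev v ≤ T := fun v => Nat.findGreatest_le T
  have hlevnot : ∀ v j, lev v < j → v ∉ A j := by
    intro v j hj hv
    rcases le_or_gt j T with h | h
    · exact Nat.findGreatest_is_greatest hj h hv
    · rw [hempty j h.le] at hv
      simp at hv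
  have hlevT : ∀ v, lev v < T := by
    intro v
    rcases (hlevle v).lt_or_eq with h | h
    · exact h
    · have := hlevmem v
      rw [h, hempty T le_rfl] at this
      simp at this
  -- the order
  let g : Fin n → ℕ := fun v => T - lev v
  have hσ : ∀ u v : Fin n, (Tuple.sort g).symm u < (Tuple.sort g).symm v → lev v ≤ lev u := by
    intro u v huv
    have h1 := Tuple.monotone_sort g huv.le
    simp only [Function.comp_apply, Equiv.apply_symm_apply, g] at h1
    have := hlevle u
    have := hlevle v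
    omega
  refine ⟨(Tuple.sort g).symm, fun v => ?_⟩
  have hsub : {u : Fin n | (Tuple.sort g).symm u < (Tuple.sort g).symm v ∧ ∃ p : G.Walk u v,
      p.length ≤ r ∧ ∀ w ∈ p.support, w ≠ u → w ≠ v →
        (Tuple.sort g).symm v < (Tuple.sort g).symm w} ⊆
      (⋃ j ∈ Finset.range T, {x | Sees G r (A j : Set (Fin n)) v x}) ∪
      {b | b ∈ A (lev v) ∧ ∃ p : G.Walk v b, p.length ≤ r ∧
        ∀ w ∈ p.support, w ∉ A (lev v + 1)} := by
    rintro u ⟨huv, p, hp, hpw⟩
    have hle : lev v ≤ lev u := hσ u v huv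
    have hin : ∀ w ∈ p.support, w ≠ u → w ≠ v → lev w ≤ lev v :=
      fun w hw h1 h2 => hσ v w (hpw w hw h1 h2)
    rcases hle.lt_or_eq with hlt | heq
    · left
      refine Set.mem_biUnion (Finset.mem_coe.mpr (Finset.mem_range.mpr (hlevT u))) ?_
      refine ⟨Finset.mem_coe.mpr (hlevmem u), p.reverse, by simpa using hp, ?_⟩
      intro w hw hwA
      by_contra hwu
      have hw' : w ∈ p.support := by simpa using hw
      by_cases hwv : w = v
      · subst hwv
        exact hlevnot w (lev u) hlt (by simpa using hwA)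
      · exact hlevnot w (lev u) (lt_of_le_of_lt (hin w hw' hwu hwv) hlt) (by simpa using hwA)
    · right
      refine ⟨heq ▸ hlevmem u, p.reverse, by simpa using hp, ?_⟩
      intro w hw
      have hw' : w ∈ p.support := by simpa using hw
      apply hlevnot
      by_cases hwv : w = v
      · subst hwv; omega
      · by_cases hwu : w = u
        · subst hwu; omega
        · have := hin w hw' hwu hwv
          omega
  calc _ ≤ ((⋃ j ∈ Finset.range T, {x | Sees G r (A j : Set (Fin n)) v x}) ∪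
      {b | b ∈ A (lev v) ∧ ∃ p : G.Walk v b, p.length ≤ r ∧
        ∀ w ∈ p.support, w ∉ A (lev v + 1)}).ncard := Set.ncard_le_ncard hsub (Set.toFinite _)
    _ ≤ (⋃ j ∈ Finset.range T, {x | Sees G r (A j : Set (Fin n)) v x}).ncard +
      {b | b ∈ A (lev v) ∧ ∃ p : G.Walk v b, p.length ≤ r ∧
        ∀ w ∈ p.support, w ∉ A (lev v + 1)}.ncard := Set.ncard_union_le _ _
    _ ≤ (∑ j ∈ Finset.range T, {x | Sees G r (A j : Set (Fin n)) v x}.ncard) + K := by
        refine Nat.add_le_add ?_ (hown (lev v) v (hlevmem v) (hlevnot v _ (Nat.lt_succ_self _)))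
        exact Finset.set_ncard_biUnion_le _ _
    _ ≤ (∑ j ∈ Finset.range T, q) + K :=
        Nat.add_le_add_right (Finset.sum_le_sum (fun j _ => hcl j v)) _
    _ = q * (Nat.log 2 n + 1) + K := by
        rw [Finset.sum_const, smul_eq_mul, Finset.card_range, mul_comm]

end P67
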