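import Pool.Agent.Lib.P67f173.Basic

set_option autoImplicit false

/-!
Closure lemma: every set `X` of a graph with sparse shallow minors is contained in a set `X'` of
comparable size such that every vertex sees few vertices of `X'`.
-/

namespace P67

open Classical in
/-- A system of disjoint pieces covering `X`, with many adjacent pairs. -/
structure BSys {V : Type*} (G : SimpleGraph V) (r ξ : ℕ) (X : Finset V) (𝓑 : Finset (Finset V))
    (E : Finset (Finset V × Finset V)) : Prop where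
  disj : ∀ A ∈ 𝓑, ∀ B ∈ 𝓑, A ≠ B → Disjoint A B
  blob : ∀ B ∈ 𝓑, Blob G r (B : Set V)
  card : ∀ B ∈ 𝓑, B.card ≤ ξ * r + 1
  adj : ∀ e ∈ E, e.1 ∈ 𝓑 ∧ e.2 ∈ 𝓑 ∧ e.1 ≠ e.2 ∧ ∃ a ∈ e.1, ∃ b ∈ e.2, G.Adj a b
  many : ξ * 𝓑.card ≤ E.card + ξ * X.card
  sub : ∀ x ∈ X, ∃ B ∈ 𝓑, x ∈ B

variable {V : Type*} {G : SimpleGraph V}

open Classical in
theorem BSys.start (r ξ : ℕ) (X : Finset V) :
    BSys G r ξ X (X.image (fun x => ({x} : Finset V))) ∅ where
  disj := by
    intro A hA B hB hne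
    obtain ⟨a, -, rfl⟩ := Finset.mem_image.mp hA
    obtain ⟨b, -, rfl⟩ := Finset.mem_image.mp hB
    rw [Finset.disjoint_singleton]
    rintro rfl
    exact hne rfl
  blob := by
    intro A hA
    obtain ⟨a, -, rfl⟩ := Finset.mem_image.mp hA
    refine ⟨a, by simp, fun y hy => ?_⟩
    have : y = a := by simpa using hy
    subst this
    exact ⟨.nil, by simp, by simp⟩
  card := by
    intro A hA
    obtain ⟨a, -, rfl⟩ := Finset.mem_image.mp hA
    simp
  adj := by simp
  many := by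
    have : (X.image (fun x => ({x} : Finset V))).card ≤ X.card := Finset.card_image_le
    simpa using Nat.mul_le_mul_left ξ this
  sub := by
    intro x hx
    exact ⟨{x}, Finset.mem_image_of_mem _ hx, by simp⟩

open Classical in
/-- One step: a vertex which sees many pieces gives a new piece. -/
theorem BSys.step {r ξ : ℕ} (hξ : 1 ≤ ξ) {X : Finset V} {𝓑 : Finset (Finset V)}
    {E : Finset (Finset V × Finset V)} (h : BSys G r ξ X 𝓑 E) (u : V)
    (hu : u ∉ 𝓑.biUnion id) (𝓢 : Finset (Finset V)) (hs : 𝓢 ⊆ 𝓑) (hc : 𝓢.card = ξ)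
    (hsee : ∀ B ∈ 𝓢, ∃ x ∈ B, Sees G r (↑(𝓑.biUnion id) : Set V) u x) :
    ∃ 𝓑' E', BSys G r ξ X 𝓑' E' ∧ 𝓑'.card = 𝓑.card + 1 := by
  -- choose the end vertices and paths
  have hsee' : ∀ B : Finset V, ∃ x : V, ∃ p : G.Walk u x, B ∈ 𝓢 → (x ∈ B ∧ p.IsPath ∧
      p.length ≤ r ∧ ∀ w ∈ p.support, w ∈ 𝓑.biUnion id → w = x) := by
    intro B
    by_cases hB : B ∈ 𝓢
    · obtain ⟨x, hx, -, p, hp, hpw⟩ := hsee B hB
      refine ⟨x, p.toPath, fun _ => ⟨hx, p.toPath.2, ?_, ?_⟩⟩
      · exact (SimpleGraph.Walk.length_bypass_le_length p).trans hp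
      · intro w hw hwX
        exact hpw w (SimpleGraph.Walk.support_toPath_subset_support p hw) (by simpa using hwX)
    · exact ⟨u, .nil, fun h => (hB h).elim⟩
  choose x p hp using hsee'
  let T : Finset V := 𝓢.biUnion (fun B => (p B).support.toFinset.erase (x B))
  have hTmem : ∀ y, y ∈ T ↔ ∃ B ∈ 𝓢, y ≠ x B ∧ y ∈ (p B).support := by
    intro y
    simp [T]
  -- `T` avoids the old pieces
  have hTX : ∀ y ∈ T, y ∉ 𝓑.biUnion id := by
    intro y hy hyX
    obtain ⟨B, hB, hne, hys⟩ := (hTmem y).mp hy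
    exact hne ((hp B hB).2.2.2 y hys hyX)
  have hxne : ∀ B ∈ 𝓢, u ≠ x B := by
    intro B hB he
    apply hu
    rw [he]
    exact Finset.mem_biUnion.mpr ⟨B, hs hB, (hp B hB).1⟩
  obtain ⟨B₀, hB₀⟩ : 𝓢.Nonempty := Finset.card_pos.mp (by omega)
  have huT : u ∈ T := (hTmem u).mpr ⟨B₀, hB₀, hxne B₀ hB₀, (p B₀).start_mem_support⟩
  have hTn : T ∉ 𝓑 := by
    intro hT
    exact hTX u huT (Finset.mem_biUnion.mpr ⟨T, hT, huT⟩)
  have hTd : ∀ B ∈ 𝓑, Disjoint T B := by
    intro B hB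
    rw [Finset.disjoint_left]
    intro y hy hyB
    exact hTX y hy (Finset.mem_biUnion.mpr ⟨B, hB, hyB⟩)
  refine ⟨insert T 𝓑, E ∪ 𝓢.image (fun B => (T, B)), ?_, Finset.card_insert_of_notMem hTn⟩
  constructor
  · intro A hA B hB hne
    rcases Finset.mem_insert.mp hA with rfl | hA
    · rcases Finset.mem_insert.mp hB with rfl | hB
      · exact (hne rfl).elim
      · exact hTd B hB
    · rcases Finset.mem_insert.mp hB with rfl | hB
      · exact (hTd A hA).symm
      · exact h.disj A hA B hB hne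
  · intro A hA
    rcases Finset.mem_insert.mp hA with rfl | hA
    · refine ⟨u, by simpa using huT, fun y hy => ?_⟩
      obtain ⟨B, hB, hne, hys⟩ := (hTmem y).mp (by simpa using hy)
      refine ⟨(p B).takeUntil y hys, ?_, ?_⟩
      · exact (SimpleGraph.Walk.length_takeUntil_le_length _ hys).trans (hp B hB).2.2.1
      · intro w hw
        have hw' : w ∈ (p B).support := SimpleGraph.Walk.support_takeUntil_subset_support _ hys hw
        have : w ≠ x B := by
          rintro rfl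
          exact SimpleGraph.Walk.endpoint_notMem_support_takeUntil (hp B hB).2.1 hys
            (fun h => hne h.symm) hw
        simpa using (hTmem w).mpr ⟨B, hB, this, hw'⟩
    · exact h.blob A hA
  · intro A hA
    rcases Finset.mem_insert.mp hA with rfl | hA
    · have : T.card ≤ ∑ B ∈ 𝓢, ((p B).support.toFinset.erase (x B)).card :=
        Finset.card_biUnion_le
      have h2 : ∀ B ∈ 𝓢, ((p B).support.toFinset.erase (x B)).card ≤ r := by
        intro B hB
        rw [Finset.card_erase_of_mem (by simp)]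
        have h3 : (p B).support.toFinset.card ≤ (p B).support.length :=
          List.toFinset_card_le _
        rw [SimpleGraph.Walk.length_support] at h3
        have h4 := (hp B hB).2.2.1
        omega
      have h5 : ∑ B ∈ 𝓢, ((p B).support.toFinset.erase (x B)).card ≤ ∑ B ∈ 𝓢, r :=
        Finset.sum_le_sum h2
      rw [Finset.sum_const, smul_eq_mul, hc] at h5
      omega
    · exact h.card A hA
  · intro e he
    rcases Finset.mem_union.mp he with he | he
    · obtain ⟨h1, h2, h3⟩ := h.adj e he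
      exact ⟨Finset.mem_insert_of_mem h1, Finset.mem_insert_of_mem h2, h3⟩
    · obtain ⟨B, hB, rfl⟩ := Finset.mem_image.mp he
      refine ⟨Finset.mem_insert_self _ _, Finset.mem_insert_of_mem (hs hB), ?_, ?_⟩
      · intro heq
        have heq' : T = B := heq
        exact hTn (heq' ▸ hs hB)
      · have hnn : ¬ (p B).Nil := SimpleGraph.Walk.not_nil_of_ne (hxne B hB)
        have hadj := (p B).adj_penultimate hnn
        refine ⟨(p B).penultimate, ?_, x B, (hp B hB).1, hadj⟩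
        exact (hTmem _).mpr ⟨B, hB, hadj.ne, List.mem_of_mem_dropLast ((p B).penultimate_mem_dropLast_support hnn)⟩
  · have hE : (E ∪ 𝓢.image (fun B => (T, B))).card = E.card + ξ := by
      rw [Finset.card_union_of_disjoint, Finset.card_image_of_injective, hc]
      · intro A B hAB
        exact (Prod.mk.inj hAB).2
      · rw [Finset.disjoint_left]
        intro e he he'
        obtain ⟨B, hB, rfl⟩ := Finset.mem_image.mp he'
        exact hTn (h.adj _ he).1
    rw [hE, Finset.card_insert_of_notMem hTn, Nat.mul_add]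
    have := h.many
    omega
  · intro y hy
    obtain ⟨B, hB, hyB⟩ := h.sub y hy
    exact ⟨B, Finset.mem_insert_of_mem hB, hyB⟩

open Classical in
/-- Closure lemma. -/
theorem exists_closed [Fintype V] {D : ℕ → ℕ} (hD : Dens G D) (r ξ : ℕ) (hξ : 2 * D r + 1 ≤ ξ)
    (X : Finset V) :
    ∃ X' : Finset V, X ⊆ X' ∧ X'.card ≤ 2 * (ξ * r + 1) * X.card ∧
      ∀ u, {x | Sees G r (X' : Set V) u x}.ncard ≤ ξ * (ξ * r + 1) := by
  have hmax : ∀ N : ℕ, (∃ 𝓑 E, BSys G r ξ X 𝓑 E ∧ ∀ u ∉ 𝓑.biUnion id,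
      (𝓑.filter (fun B => ∃ x ∈ B, Sees G r (↑(𝓑.biUnion id) : Set V) u x)).card < ξ) ∨
      (∃ 𝓑 E, BSys G r ξ X 𝓑 E ∧ N ≤ 𝓑.card) := by
    intro N
    induction N with
    | zero => exact Or.inr ⟨_, _, BSys.start r ξ X, Nat.zero_le _⟩
    | succ N ih =>
      rcases ih with ih | ⟨𝓑, E, h, hN⟩
      · exact Or.inl ih
      · by_cases hcl : ∀ u ∉ 𝓑.biUnion id,
          (𝓑.filter (fun B => ∃ x ∈ B, Sees G r (↑(𝓑.biUnion id) : Set V) u x)).card < ξ
        · exact Or.inl ⟨𝓑, E, h, hcl⟩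
        · push Not at hcl
          obtain ⟨u, hu, hle⟩ := hcl
          obtain ⟨𝓢, hs, hc⟩ := Finset.exists_subset_card_eq hle
          obtain ⟨𝓑', E', h', hc'⟩ := h.step (by omega) u hu 𝓢
            (fun B hB => (Finset.mem_filter.mp (hs hB)).1) hc
            (fun B hB => (Finset.mem_filter.mp (hs hB)).2)
          exact Or.inr ⟨𝓑', E', h', by omega⟩
  have hbound : ∀ 𝓑 E, BSys G r ξ X 𝓑 E → 𝓑.card ≤ 2 * X.card := by
    intro 𝓑 E h
    have h1 := hD.finset r 𝓑 E h.disj h.blob h.adj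
    have h2 := h.many
    by_contra hlt
    push Not at hlt
    have h3 : 2 * (ξ * 𝓑.card) ≤ 2 * (D r * 𝓑.card) + 2 * (ξ * X.card) := by omega
    have h4 : 2 * (D r * 𝓑.card) < ξ * 𝓑.card ∨ 𝓑.card = 0 := by
      rcases Nat.eq_zero_or_pos 𝓑.card with h0 | h0
      · exact Or.inr h0
      · left
        calc 2 * (D r * 𝓑.card) = (2 * D r) * 𝓑.card := by ring
          _ < ξ * 𝓑.card := Nat.mul_lt_mul_of_pos_right (by omega) h0
    have h5 : ξ * (2 * X.card) < ξ * 𝓑.card := Nat.mul_lt_mul_of_pos_left hlt (by omega)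
    have h6 : ξ * (2 * X.card) = 2 * (ξ * X.card) := by ring
    rcases h4 with h4 | h4 <;> omega
  obtain ⟨𝓑, E, h, hcl⟩ : ∃ 𝓑 E, BSys G r ξ X 𝓑 E ∧ ∀ u ∉ 𝓑.biUnion id,
      (𝓑.filter (fun B => ∃ x ∈ B, Sees G r (↑(𝓑.biUnion id) : Set V) u x)).card < ξ := by
    rcases hmax (2 * X.card + 1) with h | ⟨𝓑, E, h, hN⟩
    · exact h
    · have := hbound 𝓑 E h
      omega
  refine ⟨𝓑.biUnion id, ?_, ?_, ?_⟩
  · intro x hx
    obtain ⟨B, hB, hxB⟩ := h.sub x hx
    exact Finset.mem_biUnion.mpr ⟨B, hB, hxB⟩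
  · calc (𝓑.biUnion id).card ≤ ∑ B ∈ 𝓑, (id B).card := Finset.card_biUnion_le
      _ ≤ ∑ B ∈ 𝓑, (ξ * r + 1) := Finset.sum_le_sum (fun B hB => h.card B hB)
      _ = 𝓑.card * (ξ * r + 1) := by rw [Finset.sum_const, smul_eq_mul]
      _ ≤ (2 * X.card) * (ξ * r + 1) := Nat.mul_le_mul_right _ (hbound 𝓑 E h)
      _ = 2 * (ξ * r + 1) * X.card := by ring
  · intro u
    by_cases hu : u ∈ 𝓑.biUnion id
    · have hsub : {x | Sees G r (↑(𝓑.biUnion id) : Set V) u x} ⊆ {u} := by
        rintro x ⟨-, p, -, hp⟩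
        exact (hp u p.start_mem_support (by simpa using hu)).symm
      calc _ ≤ ({u} : Set V).ncard := Set.ncard_le_ncard hsub (Set.finite_singleton u)
        _ = 1 := Set.ncard_singleton u
        _ ≤ 1 * 1 := by norm_num
        _ ≤ ξ * (ξ * r + 1) := Nat.mul_le_mul (by omega) (by omega)
    · let 𝓢 := 𝓑.filter (fun B => ∃ x ∈ B, Sees G r (↑(𝓑.biUnion id) : Set V) u x)
      have hsub : {x | Sees G r (↑(𝓑.biUnion id) : Set V) u x} ⊆ (↑(𝓢.biUnion id) : Set V) := by
        intro x hx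
        have hx0 : x ∈ 𝓑.biUnion id := by simpa using hx.1
        obtain ⟨B, hB, hxB⟩ := Finset.mem_biUnion.mp hx0
        exact Finset.mem_coe.mpr (Finset.mem_biUnion.mpr
          ⟨B, Finset.mem_filter.mpr ⟨hB, x, hxB, hx⟩, hxB⟩)
      calc _ ≤ (↑(𝓢.biUnion id) : Set V).ncard := Set.ncard_le_ncard hsub (Finset.finite_toSet _)
        _ = (𝓢.biUnion id).card := Set.ncard_coe_finset _
        _ ≤ ∑ B ∈ 𝓢, (id B).card := Finset.card_biUnion_le
        _ ≤ ∑ B ∈ 𝓢, (ξ * r + 1) :=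
          Finset.sum_le_sum (fun B hB => h.card B (Finset.mem_filter.mp hB).1)
        _ = 𝓢.card * (ξ * r + 1) := by rw [Finset.sum_const, smul_eq_mul]
        _ ≤ ξ * (ξ * r + 1) := Nat.mul_le_mul_right _ (hcl u hu).le

end P67
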