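import Pool.Agent.Lib.P67f173.Basic

set_option autoImplicit false

/-!
From one balanced separator at every scale to fragmentation into pieces of polynomial size.
-/

namespace P67

variable {V : Type*} {G : SimpleGraph V}

/-- A walk inside `S` from a vertex of `T` stays in `T` if `S` has no edge leaving `T`. -/
theorem Conn.restrict {S T : Set V} (hT : ∀ a ∈ T, ∀ b ∈ S, G.Adj a b → b ∈ T) {v u : V}
    (hv : v ∈ T) (h : Conn G S v u) : Conn G (S ∩ T) v u := by
  obtain ⟨p, hp⟩ := h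
  induction p with
  | nil => exact Conn.refl ⟨hp _ (by simp), hv⟩
  | cons hadj p ih =>
    rename_i a b c
    have hb : b ∈ S := hp b (by simp)
    have hbT : b ∈ T := hT a hv b hb hadj
    obtain ⟨q, hq⟩ := ih hbT (fun w hw => hp w (by simp [hw]))
    refine ⟨.cons hadj q, fun w hw => ?_⟩
    rw [SimpleGraph.Walk.support_cons, List.mem_cons] at hw
    rcases hw with rfl | hw
    · exact ⟨hp w (by simp), hv⟩
    · exact hq w hw

theorem Small.mono [Finite V] {S T : Set V} {K : ℕ} (h : Small G S K) (hTS : T ⊆ S) :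
    Small G T K := by
  intro v hv
  refine le_trans (Set.ncard_le_ncard ?_ (Set.toFinite _)) (h v (hTS hv))
  intro u hu
  exact Conn.mono hTS hu

theorem Small.weaken {S : Set V} {K K' : ℕ} (h : Small G S K) (hK : K ≤ K') : Small G S K' :=
  fun v hv => (h v hv).trans hK

theorem small_card [Finite V] (W : Finset V) : Small G (W : Set V) W.card := by
  intro v _
  rw [← Set.ncard_coe_finset]
  refine Set.ncard_le_ncard ?_ (Set.toFinite _)
  intro u hu
  exact Conn.mem_right hu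

open Classical in
/-- Extension from small sets to sets with small components. -/
theorem frag_comp [Finite V] (N K l c : ℕ)
    (h : ∀ W : Finset V, W.card ≤ N → ∃ Y : Finset V, Y ⊆ W ∧ l * Y.card ≤ c * W.card ∧
      Small G ((W : Set V) \ (Y : Set V)) K) :
    ∀ W : Finset V, Small G (W : Set V) N → ∃ Y : Finset V, Y ⊆ W ∧ l * Y.card ≤ c * W.card ∧
      Small G ((W : Set V) \ (Y : Set V)) K := by
  intro W
  induction W using Finset.strongInduction with
  | _ W ih =>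
    intro hW
    rcases W.eq_empty_or_nonempty with rfl | ⟨v, hv⟩
    · exact ⟨∅, by simp, by simp, fun v hv => by simp at hv⟩
    set C : Finset V := W.filter (fun u => Conn G (W : Set V) v u) with hC
    have hvC : v ∈ C := Finset.mem_filter.mpr ⟨hv, Conn.refl (by simpa using hv)⟩
    have hCW : C ⊆ W := Finset.filter_subset _ _
    have hCc : C.card ≤ N := by
      rw [← Set.ncard_coe_finset]
      refine le_trans (Set.ncard_le_ncard ?_ (Set.toFinite _)) (hW v (by simpa using hv))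
      intro u hu
      have hu' : u ∈ C := by simpa using hu
      exact (Finset.mem_filter.mp hu').2
    have hClosed : ∀ a ∈ C, ∀ b ∈ W, G.Adj a b → b ∈ C := by
      intro a ha b hb hab
      refine Finset.mem_filter.mpr ⟨hb, (Finset.mem_filter.mp ha).2.trans
        ⟨.cons hab .nil, ?_⟩⟩
      intro w hw
      simp only [SimpleGraph.Walk.support_cons, SimpleGraph.Walk.support_nil, List.mem_cons,
        List.not_mem_nil, or_false] at hw
      rcases hw with rfl | rfl
      · exact Finset.mem_coe.mpr (hCW ha)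
      · exact Finset.mem_coe.mpr hb
    obtain ⟨Y₁, hY₁, hc₁, hs₁⟩ := h C hCc
    have hss : W \ C ⊂ W := by
      refine Finset.ssubset_iff_subset_ne.mpr ⟨Finset.sdiff_subset, fun heq => ?_⟩
      have : v ∈ W \ C := by rw [heq]; exact hv
      exact (Finset.mem_sdiff.mp this).2 hvC
    obtain ⟨Y₂, hY₂, hc₂, hs₂⟩ := ih (W \ C) hss
      (hW.mono (by simp))
    refine ⟨Y₁ ∪ Y₂, ?_, ?_, ?_⟩
    · exact Finset.union_subset (hY₁.trans hCW) (hY₂.trans Finset.sdiff_subset)
    · have hcard : C.card + (W \ C).card = W.card := by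
        rw [add_comm]
        exact Finset.card_sdiff_add_card_eq_card hCW
      calc l * (Y₁ ∪ Y₂).card ≤ l * (Y₁.card + Y₂.card) :=
            Nat.mul_le_mul_left _ (Finset.card_union_le _ _)
        _ = l * Y₁.card + l * Y₂.card := by ring
        _ ≤ c * C.card + c * (W \ C).card := Nat.add_le_add hc₁ hc₂
        _ = c * (C.card + (W \ C).card) := by ring
        _ = c * W.card := by rw [hcard]
    · intro a ha
      have haW : a ∈ W := by simpa using ha.1
      have haY : a ∉ Y₁ ∧ a ∉ Y₂ := by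
        have := ha.2
        simp only [Finset.coe_union, Set.mem_union, Finset.mem_coe, not_or] at this
        exact this
      by_cases haC : a ∈ C
      · refine le_trans (Set.ncard_le_ncard ?_ (Set.toFinite _))
          (hs₁ a ⟨Finset.mem_coe.mpr haC, by simpa using haY.1⟩)
        intro u hu
        have h1 := Conn.restrict (T := (C : Set V)) (fun x hx y hy hxy =>
          Finset.mem_coe.mpr (hClosed x (by simpa using hx) y (by simpa using hy.1) hxy))
          (Finset.mem_coe.mpr haC) hu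
        refine h1.mono ?_
        rintro w ⟨⟨hw1, hw2⟩, hw3⟩
        refine ⟨hw3, fun hw4 => hw2 ?_⟩
        simp only [Finset.coe_union, Set.mem_union]
        exact Or.inl hw4
      · have haC' : a ∈ W \ C := Finset.mem_sdiff.mpr ⟨haW, haC⟩
        refine le_trans (Set.ncard_le_ncard ?_ (Set.toFinite _))
          (hs₂ a ⟨Finset.mem_coe.mpr haC', by simpa using haY.2⟩)
        intro u hu
        have h1 := Conn.restrict (T := ((W \ C : Finset V) : Set V)) (fun x hx y hy hxy => by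
          have hx' := Finset.mem_sdiff.mp (Finset.mem_coe.mp hx)
          have hyW : y ∈ W := by simpa using hy.1
          refine Finset.mem_coe.mpr (Finset.mem_sdiff.mpr ⟨hyW, fun hyC => hx'.2 ?_⟩)
          exact hClosed y hyC x hx'.1 hxy.symm) (Finset.mem_coe.mpr haC') hu
        refine h1.mono ?_
        rintro w ⟨⟨hw1, hw2⟩, hw3⟩
        refine ⟨hw3, fun hw4 => hw2 ?_⟩
        simp only [Finset.coe_union, Set.mem_union]
        exact Or.inr hw4

theorem two_mul_pow_le (l : ℕ) (hl : 1 ≤ l) : 2 * l ^ l ≤ (l + 1) ^ l := by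
  have h : ∀ n : ℕ, (l + n) * l ^ n ≤ l * (l + 1) ^ n := by
    intro n
    induction n with
    | zero => simp
    | succ n ih =>
      calc (l + (n + 1)) * l ^ (n + 1) ≤ (l + 1) * ((l + n) * l ^ n) := by
            rw [pow_succ]
            have : (l + (n + 1)) * (l ^ n * l) + n * l ^ n = (l + 1) * ((l + n) * l ^ n) := by ring
            omega
        _ ≤ (l + 1) * (l * (l + 1) ^ n) := Nat.mul_le_mul_left _ ih
        _ = l * (l + 1) ^ (n + 1) := by ring
  have h1 := h l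
  have h2 : l * (2 * l ^ l) ≤ l * (l + 1) ^ l := by
    calc l * (2 * l ^ l) = (l + l) * l ^ l := by ring
      _ ≤ _ := h1
  exact Nat.le_of_mul_le_mul_left h2 (by omega)

theorem poly_le_two_pow (C k : ℕ) : ∃ i₀ : ℕ, ∀ i, i₀ ≤ i → C * (i + 3) ^ k ≤ 2 ^ i := by
  have h := tendsto_pow_const_div_const_pow_of_one_lt k (r := 2) (by norm_num)
  have hpos : (0 : ℝ) < 1 / (8 * (C + 1)) := by positivity
  have h2 := (h.eventually (gt_mem_nhds hpos))
  obtain ⟨N, hN⟩ := Filter.eventually_atTop.mp h2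
  refine ⟨N, fun i hi => ?_⟩
  have h3 := hN (i + 3) (by omega)
  have h4 : (0 : ℝ) < 2 ^ (i + 3) := by positivity
  rw [div_lt_iff₀ h4] at h3
  push_cast at h3
  have h5 : ((i : ℝ) + 3) ^ k * (C + 1) < 2 ^ i := by
    have : (1 : ℝ) / (8 * (C + 1)) * 2 ^ (i + 3) * (C + 1) = 2 ^ i := by
      field_simp
      ring
    rw [← this]
    exact mul_lt_mul_of_pos_right h3 (by positivity)
  have h6 : (C : ℝ) * (i + 3) ^ k ≤ 2 ^ i := by
    have : (0 : ℝ) ≤ ((i : ℝ) + 3) ^ k := by positivity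
    nlinarith
  exact_mod_cast h6

/-- the separator property used below (one balanced separator) -/
def SepProp (G : SimpleGraph V) (D : ℕ → ℕ) : Prop :=
  ∀ (W : Finset V) (l L : ℕ), 1 ≤ l → W.card * l ^ L < (l + 1) ^ L →
    ∃ Y : Finset V, Y ⊆ W ∧
      l * Y.card ≤ W.card + l * ((2 * D (2 * L + 1) + 2) * ((2 * D (2 * L + 1) + 2) * (2 * L + 2))) ∧
      Small G ((W : Set V) \ (Y : Set V)) (W.card / 2)

/-- one scale -/
theorem frag_scale [Finite V] (c k i : ℕ) (hsep : SepProp G (fun s => c * (s + 1) ^ k))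
    (hi : ((2 * c + 2) ^ 2 * 2 ^ (2 * k + 1) * (i + 3) ^ (2 * k + 1)) ^ 2 ≤ 2 ^ i)
    (W : Finset V) (hW : W.card ≤ 2 ^ (i + 1)) :
    ∃ Y : Finset V, Y ⊆ W ∧ 2 ^ (i / (4 * k + 4)) * Y.card ≤ 2 * W.card ∧
      Small G ((W : Set V) \ (Y : Set V)) (2 ^ i) := by
  rcases Nat.lt_or_ge (2 ^ i) W.card with hlt | hle
  swap
  · exact ⟨∅, by simp, by simp, by simpa using (small_card W).weaken hle⟩
  set l : ℕ := 2 ^ (i / (4 * k + 4)) with hl
  have hl1 : 1 ≤ l := Nat.one_le_two_pow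
  have hL : W.card * l ^ (l * (i + 2)) < (l + 1) ^ (l * (i + 2)) := by
    have h1 : 2 ^ (i + 2) * l ^ (l * (i + 2)) ≤ (l + 1) ^ (l * (i + 2)) := by
      rw [pow_mul, pow_mul, ← mul_pow]
      exact Nat.pow_le_pow_left (two_mul_pow_le l hl1) _
    have h2 : W.card < 2 ^ (i + 2) := lt_of_le_of_lt hW (Nat.pow_lt_pow_right (by norm_num)
      (by omega))
    exact lt_of_lt_of_le (Nat.mul_lt_mul_of_pos_right h2 (Nat.pow_pos (by omega))) h1
  obtain ⟨Y, hYW, hYc, hYs⟩ := hsep W l (l * (i + 2)) hl1 hL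
  refine ⟨Y, hYW, ?_, hYs.weaken ?_⟩
  · have key : l * ((2 * (c * (2 * (l * (i + 2)) + 1 + 1) ^ k) + 2) *
        ((2 * (c * (2 * (l * (i + 2)) + 1 + 1) ^ k) + 2) * (2 * (l * (i + 2)) + 2))) ≤ 2 ^ i := by
      set M : ℕ := 2 * (l * (i + 2)) + 2 with hM
      have hM1 : 1 ≤ M ^ k := Nat.one_le_pow _ _ (by omega)
      have hM2 : M ≤ 2 * l * (i + 3) := by
        rw [hM]
        nlinarith
      have e2 : 2 * (c * M ^ k) + 2 ≤ (2 * c + 2) * M ^ k := by nlinarith
      have e3 : l * ((2 * (c * M ^ k) + 2) * ((2 * (c * M ^ k) + 2) * M)) ≤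
          l * (((2 * c + 2) * M ^ k) * (((2 * c + 2) * M ^ k) * M)) :=
        Nat.mul_le_mul_left _ (Nat.mul_le_mul e2 (Nat.mul_le_mul_right _ e2))
      refine e3.trans ?_
      have e4 : l * (((2 * c + 2) * M ^ k) * (((2 * c + 2) * M ^ k) * M)) =
          (2 * c + 2) ^ 2 * l * M ^ (2 * k + 1) := by ring
      have e5 : M ^ (2 * k + 1) ≤ (2 * l * (i + 3)) ^ (2 * k + 1) := Nat.pow_le_pow_left hM2 _
      have e6 : (2 * c + 2) ^ 2 * l * M ^ (2 * k + 1) ≤
          l ^ (2 * k + 2) * ((2 * c + 2) ^ 2 * 2 ^ (2 * k + 1) * (i + 3) ^ (2 * k + 1)) := by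
        refine (Nat.mul_le_mul_left _ e5).trans (le_of_eq ?_)
        rw [mul_pow, mul_pow]
        ring
      rw [e4]
      refine e6.trans ?_
      have e7 : (l ^ (2 * k + 2)) ^ 2 ≤ 2 ^ i := by
        rw [hl, ← pow_mul, ← pow_mul]
        refine Nat.pow_le_pow_right (by norm_num) ?_
        calc i / (4 * k + 4) * ((2 * k + 2) * 2) = i / (4 * k + 4) * (4 * k + 4) := by ring
          _ ≤ i := Nat.div_mul_le_self _ _
      have e8 : (l ^ (2 * k + 2) * ((2 * c + 2) ^ 2 * 2 ^ (2 * k + 1) * (i + 3) ^ (2 * k + 1))) ^ 2 ≤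
          (2 ^ i) ^ 2 := by
        rw [mul_pow, sq (2 ^ i)]
        exact Nat.mul_le_mul e7 hi
      exact (Nat.pow_le_pow_iff_left (by norm_num)).mp e8
    have h3 : l * Y.card ≤ W.card + 2 ^ i := hYc.trans (Nat.add_le_add_left key _)
    omega
  · rw [Nat.div_le_iff_le_mul_add_pred (by norm_num)]
    rw [pow_succ] at hW
    omega

open Classical in
/-- one block of scales -/
theorem frag_block [Finite V] (a j : ℕ)
    (h : ∀ i, i / a = j → ∀ W : Finset V, Small G (W : Set V) (2 ^ (i + 1)) →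
      ∃ Y : Finset V, Y ⊆ W ∧ 2 ^ j * Y.card ≤ 2 * W.card ∧
        Small G ((W : Set V) \ (Y : Set V)) (2 ^ i)) :
    ∀ t, t ≤ a → ∀ W : Finset V, Small G (W : Set V) (2 ^ (a * j + t)) →
      ∃ Y : Finset V, Y ⊆ W ∧ 2 ^ j * Y.card ≤ 2 * t * W.card ∧
        Small G ((W : Set V) \ (Y : Set V)) (2 ^ (a * j)) := by
  intro t
  induction t with
  | zero =>
    intro _ W hW
    exact ⟨∅, by simp, by simp, by simpa using hW⟩
  | succ t ih =>
    intro ht W hW
    have hdiv : (a * j + t) / a = j := by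
      rw [Nat.mul_add_div (by omega), Nat.div_eq_of_lt (by omega), add_zero]
    obtain ⟨Y₁, hY₁, hc₁, hs₁⟩ := h (a * j + t) hdiv W hW
    obtain ⟨Y₂, hY₂, hc₂, hs₂⟩ := ih (by omega) (W \ Y₁) (by simpa using hs₁)
    refine ⟨Y₁ ∪ Y₂, Finset.union_subset hY₁ (hY₂.trans Finset.sdiff_subset), ?_, ?_⟩
    · have h2 : (W \ Y₁).card ≤ W.card := Finset.card_le_card Finset.sdiff_subset
      calc 2 ^ j * (Y₁ ∪ Y₂).card ≤ 2 ^ j * (Y₁.card + Y₂.card) :=
            Nat.mul_le_mul_left _ (Finset.card_union_le _ _)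
        _ = 2 ^ j * Y₁.card + 2 ^ j * Y₂.card := by ring
        _ ≤ 2 * W.card + 2 * t * (W \ Y₁).card := Nat.add_le_add hc₁ hc₂
        _ ≤ 2 * W.card + 2 * t * W.card := Nat.add_le_add_left (Nat.mul_le_mul_left _ h2) _
        _ = 2 * (t + 1) * W.card := by ring
    · refine hs₂.mono ?_
      intro x hx
      simp only [Finset.coe_union, Finset.coe_sdiff, Set.mem_sdiff, Set.mem_union, not_or] at hx ⊢
      exact ⟨⟨hx.1, hx.2.1⟩, hx.2.2⟩

open Classical in
/-- all scales -/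
theorem frag_all [Finite V] (a j₁ : ℕ)
    (h : ∀ i, j₁ ≤ i / a → ∀ W : Finset V, Small G (W : Set V) (2 ^ (i + 1)) →
      ∃ Y : Finset V, Y ⊆ W ∧ 2 ^ (i / a) * Y.card ≤ 2 * W.card ∧
        Small G ((W : Set V) \ (Y : Set V)) (2 ^ i)) :
    ∀ n, ∀ W : Finset V, Small G (W : Set V) (2 ^ (a * (j₁ + n))) →
      ∃ Y : Finset V, Y ⊆ W ∧ 2 ^ (j₁ + n) * Y.card + 4 * a * W.card ≤ 4 * a * 2 ^ n * W.card ∧
        Small G ((W : Set V) \ (Y : Set V)) (2 ^ (a * j₁)) := by
  intro n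
  induction n with
  | zero =>
    intro W hW
    exact ⟨∅, by simp, by simp, by simpa using hW⟩
  | succ n ih =>
    intro W hW
    have hb := frag_block (G := G) a (j₁ + n) (fun i hi W hW => by
      have := h i (by omega) W hW
      rwa [hi] at this) a le_rfl W (by
        rw [show a * (j₁ + n) + a = a * (j₁ + (n + 1)) by ring]
        exact hW)
    obtain ⟨Y₁, hY₁, hc₁, hs₁⟩ := hb
    obtain ⟨Y₂, hY₂, hc₂, hs₂⟩ := ih (W \ Y₁) (by simpa using hs₁)
    refine ⟨Y₁ ∪ Y₂, Finset.union_subset hY₁ (hY₂.trans Finset.sdiff_subset), ?_, ?_⟩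
    · have h2 : (W \ Y₁).card ≤ W.card := Finset.card_le_card Finset.sdiff_subset
      have h3 : 2 ^ (j₁ + n) * Y₂.card + 4 * a * W.card ≤ 4 * a * 2 ^ n * W.card := by
        have e1 : 1 ≤ 2 ^ n := Nat.one_le_two_pow
        obtain ⟨d, hd⟩ := Nat.exists_eq_add_of_le h2
        have e2 : 4 * a * d ≤ 4 * a * 2 ^ n * d := by
          calc 4 * a * d = 4 * a * 1 * d := by ring
            _ ≤ 4 * a * 2 ^ n * d := Nat.mul_le_mul_right _ (Nat.mul_le_mul_left _ e1)
        rw [hd]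
        calc 2 ^ (j₁ + n) * Y₂.card + 4 * a * ((W \ Y₁).card + d)
            = (2 ^ (j₁ + n) * Y₂.card + 4 * a * (W \ Y₁).card) + 4 * a * d := by ring
          _ ≤ 4 * a * 2 ^ n * (W \ Y₁).card + 4 * a * 2 ^ n * d := Nat.add_le_add hc₂ e2
          _ = 4 * a * 2 ^ n * ((W \ Y₁).card + d) := by ring
      calc 2 ^ (j₁ + (n + 1)) * (Y₁ ∪ Y₂).card + 4 * a * W.card
          ≤ 2 ^ (j₁ + (n + 1)) * (Y₁.card + Y₂.card) + 4 * a * W.card :=
            Nat.add_le_add_right (Nat.mul_le_mul_left _ (Finset.card_union_le _ _)) _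
        _ = 2 * (2 ^ (j₁ + n) * Y₁.card) + 2 * (2 ^ (j₁ + n) * Y₂.card) + 4 * a * W.card := by
            ring
        _ ≤ 2 * (2 * a * W.card) + 2 * (2 ^ (j₁ + n) * Y₂.card) + 4 * a * W.card := by
            have := Nat.mul_le_mul_left 2 hc₁
            omega
        _ = 2 * (2 ^ (j₁ + n) * Y₂.card + 4 * a * W.card) := by ring
        _ ≤ 2 * (4 * a * 2 ^ n * W.card) := Nat.mul_le_mul_left _ h3
        _ = 4 * a * 2 ^ (n + 1) * W.card := by ring
    · refine hs₂.mono ?_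
      intro x hx
      simp only [Finset.coe_union, Finset.coe_sdiff, Set.mem_sdiff, Set.mem_union, not_or] at hx ⊢
      exact ⟨⟨hx.1, hx.2.1⟩, hx.2.2⟩

/-- Fragmentation into pieces of polynomial size, from balanced separators. -/
theorem exists_frag_of_sep (c k : ℕ) : ∃ C d : ℕ, ∀ (V : Type) [Finite V] (G : SimpleGraph V),
    SepProp G (fun s => c * (s + 1) ^ k) → ∀ (m : ℕ), 1 ≤ m → ∀ W : Finset V,
    ∃ Y : Finset V, Y ⊆ W ∧ m * Y.card ≤ W.card ∧
      Small G ((W : Set V) \ (Y : Set V)) (C * m ^ d) := by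
  obtain ⟨i₀, hi₀⟩ := poly_le_two_pow (((2 * c + 2) ^ 2 * 2 ^ (2 * k + 1)) ^ 2) ((2 * k + 1) * 2)
  set a : ℕ := 4 * k + 4 with ha
  refine ⟨2 ^ (a * i₀ + a) * (4 * a) ^ a, a, ?_⟩
  intro V _ G hsep m hm W
  set j₁ : ℕ := i₀ + Nat.log 2 (4 * a * m) + 1 with hj₁
  have hpow1 : 4 * a * m < 2 ^ j₁ := by
    have h1 : 4 * a * m < 2 ^ (Nat.log 2 (4 * a * m) + 1) :=
      Nat.lt_pow_succ_log_self (by norm_num) _
    exact lt_of_lt_of_le h1 (Nat.pow_le_pow_right (by norm_num) (by omega))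
  have hpow2 : 2 ^ (a * j₁) ≤ 2 ^ (a * i₀ + a) * (4 * a) ^ a * m ^ a := by
    have h1 : 2 ^ Nat.log 2 (4 * a * m) ≤ 4 * a * m := Nat.pow_log_le_self 2 (by positivity)
    calc 2 ^ (a * j₁) = 2 ^ (a * i₀ + a) * (2 ^ Nat.log 2 (4 * a * m)) ^ a := by
          rw [← pow_mul, ← pow_add, hj₁]
          congr 1
          ring
      _ ≤ 2 ^ (a * i₀ + a) * (4 * a * m) ^ a :=
          Nat.mul_le_mul_left _ (Nat.pow_le_pow_left h1 _)
      _ = 2 ^ (a * i₀ + a) * (4 * a) ^ a * m ^ a := by rw [mul_pow, mul_assoc]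
  have hscale : ∀ i, j₁ ≤ i / a → ∀ W : Finset V, Small G (W : Set V) (2 ^ (i + 1)) →
      ∃ Y : Finset V, Y ⊆ W ∧ 2 ^ (i / a) * Y.card ≤ 2 * W.card ∧
        Small G ((W : Set V) \ (Y : Set V)) (2 ^ i) := by
    intro i hi
    have hii : i₀ ≤ i := by
      have : i / a ≤ i := Nat.div_le_self _ _
      omega
    have hpoly : ((2 * c + 2) ^ 2 * 2 ^ (2 * k + 1) * (i + 3) ^ (2 * k + 1)) ^ 2 ≤ 2 ^ i := by
      have := hi₀ i hii
      rw [mul_pow _ ((i + 3) ^ (2 * k + 1)), ← pow_mul]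
      exact this
    exact frag_comp _ _ _ _ (fun W hW => frag_scale c k i hsep hpoly W hW)
  have hW : Small G (W : Set V) (2 ^ (a * (j₁ + W.card))) := by
    refine (small_card W).weaken ?_
    have h1 : W.card < 2 ^ W.card := Nat.lt_two_pow_self
    refine h1.le.trans (Nat.pow_le_pow_right (by norm_num) ?_)
    have : 1 * W.card ≤ a * (j₁ + W.card) := Nat.mul_le_mul (by omega) (by omega)
    omega
  obtain ⟨Y, hY, hc, hs⟩ := frag_all a j₁ hscale W.card W hW
  refine ⟨Y, hY, ?_, hs.weaken hpow2⟩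
  have h1 : 2 ^ (j₁ + W.card) * Y.card ≤ 4 * a * 2 ^ W.card * W.card := by omega
  have h2 : 2 ^ j₁ * Y.card ≤ 4 * a * W.card := by
    have h3 : 2 ^ W.card * (2 ^ j₁ * Y.card) ≤ 2 ^ W.card * (4 * a * W.card) := by
      calc 2 ^ W.card * (2 ^ j₁ * Y.card) = 2 ^ (j₁ + W.card) * Y.card := by
            rw [pow_add]; ring
        _ ≤ 4 * a * 2 ^ W.card * W.card := h1
        _ = 2 ^ W.card * (4 * a * W.card) := by ring
    exact Nat.le_of_mul_le_mul_left h3 (Nat.pow_pos (by norm_num))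
  have h4 : 4 * a * (m * Y.card) ≤ 4 * a * W.card := by
    calc 4 * a * (m * Y.card) = (4 * a * m) * Y.card := by ring
      _ ≤ 2 ^ j₁ * Y.card := Nat.mul_le_mul_right _ hpow1.le
      _ ≤ 4 * a * W.card := h2
  exact Nat.le_of_mul_le_mul_left h4 (by omega)

end P67
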