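import Pool.Agent.Lib.P67f173.Chain
import Pool.Agent.Lib.P67f173.FragOfSep

set_option autoImplicit false

/-!
Economical closure: a small set `S` such that every vertex outside `Z ∪ S` sees few vertices of
`Z ∪ S`.
-/

namespace P67

variable {V : Type*} {G : SimpleGraph V}

open Classical in
/-- One step of the chain. -/
theorem exists_step_gen [Fintype V] {D : ℕ → ℕ} (hD : Dens G D) (t r ξ q m K : ℕ)
    (hξ : 2 * D r + 1 ≤ ξ) (hq : ξ * (ξ * r + 1) ≤ q)
    (hm : 2 * t * (ξ * r + 1) * q * (1 + (r + 1) * (D r * (1 + r * q ^ 2))) ≤ m)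
    (hfrag : ∀ W : Finset V, ∃ Y : Finset V, Y ⊆ W ∧ m * Y.card ≤ W.card ∧
      Small G ((W : Set V) \ (Y : Set V)) K)
    (X : Finset V) (hX : ∀ u, {x | Sees G r (X : Set V) u x}.ncard ≤ q) :
    ∃ X' : Finset V, t * X'.card ≤ X.card ∧
      (∀ u, {x | Sees G r (X' : Set V) u x}.ncard ≤ q) ∧
      ∀ a ∈ X, a ∉ X' → {b | b ∈ X ∧ ∃ p : G.Walk a b, p.length ≤ r ∧
        ∀ w ∈ p.support, w ∉ X'}.ncard ≤ K := by
  set A : Finset (V × V) := Finset.univ.filter (fun e : V × V => TPair G r (X : Set V) e.1 e.2)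
    with hA
  have hAc : A.card ≤ D r * X.card * (1 + r * q ^ 2) := torso_card hD r q X hX
  have hAm : ∀ e, e ∈ A ↔ TPair G r (X : Set V) e.1 e.2 := by
    intro e
    simp [hA]
  have hch : ∀ e : V × V, ∃ S : Finset V, e ∈ A → ∃ p : G.Walk e.1 e.2, p.IsPath ∧ p.length ≤ r ∧
      (∀ w ∈ p.support, w ∈ X → w = e.1 ∨ w = e.2) ∧ S = p.support.toFinset := by
    intro e
    by_cases he : e ∈ A
    · obtain ⟨p, h1, h2, h3⟩ := ((hAm e).mp he).path
      exact ⟨_, fun _ => ⟨p, h1, h2, fun w hw hwX => h3 w hw (by simpa using hwX), rfl⟩⟩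
    · exact ⟨∅, fun h => (he h).elim⟩
  choose I hI using hch
  have hIcard : ∀ e ∈ A, (I e).card ≤ r + 1 := by
    intro e he
    obtain ⟨p, h1, h2, h3, h4⟩ := hI e he
    rw [h4]
    have h6 : p.support.toFinset.card ≤ p.support.length := List.toFinset_card_le _
    rw [SimpleGraph.Walk.length_support] at h6
    omega
  let W : Finset V := X ∪ A.biUnion I
  have hW : W.card ≤ X.card * (1 + (r + 1) * (D r * (1 + r * q ^ 2))) := by
    calc W.card ≤ X.card + (A.biUnion I).card := Finset.card_union_le _ _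
      _ ≤ X.card + ∑ e ∈ A, (I e).card := Nat.add_le_add_left Finset.card_biUnion_le _
      _ ≤ X.card + ∑ e ∈ A, (r + 1) := Nat.add_le_add_left (Finset.sum_le_sum hIcard) _
      _ = X.card + A.card * (r + 1) := by rw [Finset.sum_const, smul_eq_mul]
      _ ≤ X.card + (D r * X.card * (1 + r * q ^ 2)) * (r + 1) :=
          Nat.add_le_add_left (Nat.mul_le_mul_right _ hAc) _
      _ = X.card * (1 + (r + 1) * (D r * (1 + r * q ^ 2))) := by ring
  obtain ⟨Y, hYW, hYc, hYs⟩ := hfrag W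
  let M : V → Finset V := fun u => Finset.univ.filter (fun x => Sees G r (X : Set V) u x)
  have hM : ∀ u, (M u).card ≤ q := by
    intro u
    have := hX u
    rwa [← Set.ncard_coe_finset, show (↑(M u) : Set V) = {x | Sees G r (X : Set V) u x} by
      ext x; simp [M]]
  obtain ⟨X', hYX', hX'c, hX'⟩ := exists_closed hD r ξ hξ (Y.biUnion M)
  have hMem : ∀ u x, u ∈ Y → Sees G r (X : Set V) u x → x ∈ X' := by
    intro u x hu hx
    exact hYX' (Finset.mem_biUnion.mpr ⟨u, hu, Finset.mem_filter.mpr ⟨Finset.mem_univ _, hx⟩⟩)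
  have hself : ∀ a ∈ X, a ∈ Y → a ∈ X' := by
    intro a ha haY
    refine hMem a a haY ⟨by simpa using ha, .nil, by simp, ?_⟩
    intro w hw _
    simpa using hw
  refine ⟨X', ?_, fun u => (hX' u).trans hq, ?_⟩
  · -- cardinality
    have h1 : (Y.biUnion M).card ≤ Y.card * q := by
      calc (Y.biUnion M).card ≤ ∑ u ∈ Y, (M u).card := Finset.card_biUnion_le
        _ ≤ ∑ u ∈ Y, q := Finset.sum_le_sum (fun u _ => hM u)
        _ = Y.card * q := by rw [Finset.sum_const, smul_eq_mul]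
    have h2 : t * X'.card ≤ 2 * t * (ξ * r + 1) * q * Y.card := by
      calc t * X'.card ≤ t * (2 * (ξ * r + 1) * (Y.biUnion M).card) := Nat.mul_le_mul_left _ hX'c
        _ ≤ t * (2 * (ξ * r + 1) * (Y.card * q)) :=
          Nat.mul_le_mul_left _ (Nat.mul_le_mul_left _ h1)
        _ = 2 * t * (ξ * r + 1) * q * Y.card := by ring
    have h3 : (t * X'.card) * (1 + (r + 1) * (D r * (1 + r * q ^ 2))) ≤
        X.card * (1 + (r + 1) * (D r * (1 + r * q ^ 2))) := by
      calc (t * X'.card) * (1 + (r + 1) * (D r * (1 + r * q ^ 2)))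
          ≤ (2 * t * (ξ * r + 1) * q * Y.card) * (1 + (r + 1) * (D r * (1 + r * q ^ 2))) :=
            Nat.mul_le_mul_right _ h2
        _ = (2 * t * (ξ * r + 1) * q * (1 + (r + 1) * (D r * (1 + r * q ^ 2)))) * Y.card := by ring
        _ ≤ m * Y.card := Nat.mul_le_mul_right _ hm
        _ ≤ W.card := hYc
        _ ≤ _ := hW
    exact Nat.le_of_mul_le_mul_right h3 (by omega)
  · intro a ha haX'
    have hS : ∀ a ∈ (X : Set V), a ∉ (X' : Set V) → a ∈ (W : Set V) \ (Y : Set V) := by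
      intro a ha haX'
      refine ⟨?_, fun haY => haX' ?_⟩
      · exact Finset.mem_coe.mpr (Finset.mem_union_left _ (by simpa using ha))
      · exact Finset.mem_coe.mpr (hself a (by simpa using ha) (by simpa using haY))
    have hconn : ∀ a b, a ∉ (X' : Set V) → b ∉ (X' : Set V) → TPair G r (X : Set V) a b →
        Conn G ((W : Set V) \ (Y : Set V)) a b := by
      intro a b ha' hb' hab
      have he : (a, b) ∈ A := (hAm (a, b)).mpr hab
      obtain ⟨p, h1, h2, h3, h4⟩ := hI (a, b) he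
      have haX : a ∈ (X : Set V) := hab.1
      have hbX : b ∈ (X : Set V) := hab.2.1
      refine ⟨p, fun w hw => ⟨?_, fun hwY => ?_⟩⟩
      · refine Finset.mem_coe.mpr (Finset.mem_union_right _ (Finset.mem_biUnion.mpr
          ⟨(a, b), he, ?_⟩))
        rw [h4]
        simpa using hw
      · have hwY' : w ∈ Y := by simpa using hwY
        by_cases hwb : w = b
        · subst hwb
          exact hb' (Finset.mem_coe.mpr (hself w (by simpa using hbX) hwY'))
        · have hs : Sees G r (X : Set V) w a :=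
            Sees.of_path p h1 h2 (fun z hz hzX => h3 z hz (by simpa using hzX)) haX hw hwb
          exact ha' (Finset.mem_coe.mpr (hMem w a hwY' hs))
    have hsub : {b | b ∈ X ∧ ∃ p : G.Walk a b, p.length ≤ r ∧ ∀ w ∈ p.support, w ∉ X'} ⊆
        {u | Conn G ((W : Set V) \ (Y : Set V)) a u} := by
      rintro b ⟨hb, p, hp, hpw⟩
      exact own_conn hS hconn r a b p hp le_rfl (by simpa using ha) (by simpa using hb)
        (fun w hw => by simpa using hpw w hw)
    exact (Set.ncard_le_ncard hsub (Set.toFinite _)).trans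
      (hYs a (hS a (by simpa using ha) (by simpa using haX')))


/-- the economical closure property -/
def EclProp (c k C a : ℕ) : Prop :=
  ∀ (V : Type) [Finite V] [DecidableEq V] (G : SimpleGraph V), Dens G (fun s => c * (s + 1) ^ k) →
    ∀ (ρ m : ℕ), 1 ≤ ρ → 1 ≤ m → ∀ Z : Finset V, ∃ S : Finset V, m * S.card ≤ Z.card ∧
      ∀ w, w ∉ Z → w ∉ S → {x | Sees G ρ ((Z : Set V) ∪ (S : Set V)) w x}.ncard ≤ C * (ρ * m) ^ a

/-- functions of two variables bounded by a polynomial in the product -/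
def PB2 (f : ℕ → ℕ → ℕ) : Prop := ∃ c d : ℕ, ∀ r m, 1 ≤ r → 1 ≤ m → f r m ≤ c * (r * m) ^ d

theorem PB2.const (a : ℕ) : PB2 (fun _ _ => a) := ⟨a, 0, fun r m _ _ => by simp⟩

theorem PB2.fst : PB2 (fun r _ => r) :=
  ⟨1, 1, fun r m _ hm => by simpa using Nat.le_mul_of_pos_right r hm⟩

theorem PB2.snd : PB2 (fun _ m => m) :=
  ⟨1, 1, fun r m hr _ => by simpa using Nat.le_mul_of_pos_left m hr⟩

theorem PB2.add {f g : ℕ → ℕ → ℕ} (hf : PB2 f) (hg : PB2 g) : PB2 (fun r m => f r m + g r m) := by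
  obtain ⟨c, d, h⟩ := hf
  obtain ⟨c', d', h'⟩ := hg
  refine ⟨c + c', d + d', fun r m hr hm => ?_⟩
  have h0 : 1 ≤ r * m := Nat.mul_pos hr hm
  have h1 : (r * m) ^ d ≤ (r * m) ^ (d + d') := Nat.pow_le_pow_right h0 (by omega)
  have h2 : (r * m) ^ d' ≤ (r * m) ^ (d + d') := Nat.pow_le_pow_right h0 (by omega)
  calc f r m + g r m ≤ c * (r * m) ^ d + c' * (r * m) ^ d' :=
        Nat.add_le_add (h r m hr hm) (h' r m hr hm)
    _ ≤ c * (r * m) ^ (d + d') + c' * (r * m) ^ (d + d') :=
        Nat.add_le_add (Nat.mul_le_mul_left _ h1) (Nat.mul_le_mul_left _ h2)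
    _ = (c + c') * (r * m) ^ (d + d') := by ring

theorem PB2.mul {f g : ℕ → ℕ → ℕ} (hf : PB2 f) (hg : PB2 g) : PB2 (fun r m => f r m * g r m) := by
  obtain ⟨c, d, h⟩ := hf
  obtain ⟨c', d', h'⟩ := hg
  refine ⟨c * c', d + d', fun r m hr hm => ?_⟩
  calc f r m * g r m ≤ (c * (r * m) ^ d) * (c' * (r * m) ^ d') :=
        Nat.mul_le_mul (h r m hr hm) (h' r m hr hm)
    _ = c * c' * (r * m) ^ (d + d') := by ring

theorem PB2.pow {f : ℕ → ℕ → ℕ} (hf : PB2 f) (n : ℕ) : PB2 (fun r m => f r m ^ n) := by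
  induction n with
  | zero => simpa using PB2.const 1
  | succ n ih => simpa [pow_succ] using ih.mul hf

/-- The economical closure property holds, given fragmentation. -/
theorem exists_ecl (c k : ℕ)
    (hsep : ∀ (V : Type) [Finite V] (G : SimpleGraph V), Dens G (fun s => c * (s + 1) ^ k) →
      SepProp G (fun s => c * (s + 1) ^ k)) : ∃ C a : ℕ, EclProp c k C a := by
  classical
  obtain ⟨Cf, df, hf⟩ := exists_frag_of_sep c k
  -- radius `2 * r`
  let D : ℕ → ℕ := fun s => c * (s + 1) ^ k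
  let ξ : ℕ → ℕ → ℕ := fun r _ => 2 * D (2 * r) + 1
  let q : ℕ → ℕ → ℕ := fun r m => ξ r m * (ξ r m * (2 * r) + 1)
  let t : ℕ → ℕ → ℕ := fun r m => m * (2 * (ξ r m * (2 * r) + 1))
  let M : ℕ → ℕ → ℕ := fun r m => 2 * t r m * (ξ r m * (2 * r) + 1) * q r m *
    (1 + (2 * r + 1) * (D (2 * r) * (1 + 2 * r * q r m ^ 2)))
  let K : ℕ → ℕ → ℕ := fun r m => Cf * M r m ^ df
  have p2r : PB2 (fun r _ => 2 * r) := (PB2.const 2).mul PB2.fst
  have pD : PB2 (fun r _ => D (2 * r)) := (PB2.const c).mul ((p2r.add (PB2.const 1)).pow k)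
  have pξ : PB2 ξ := ((PB2.const 2).mul pD).add (PB2.const 1)
  have pq : PB2 q := pξ.mul ((pξ.mul p2r).add (PB2.const 1))
  have pt : PB2 t := PB2.snd.mul ((PB2.const 2).mul ((pξ.mul p2r).add (PB2.const 1)))
  have pM : PB2 M := ((((PB2.const 2).mul pt).mul ((pξ.mul p2r).add (PB2.const 1))).mul pq).mul
    ((PB2.const 1).add ((p2r.add (PB2.const 1)).mul
      (pD.mul ((PB2.const 1).add (p2r.mul (pq.pow 2))))))
  have pK : PB2 K := (PB2.const Cf).mul (pM.pow df)
  obtain ⟨C, a, hCa⟩ := (pq.add pK).add (PB2.const 1)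
  refine ⟨C, a, ?_⟩
  intro V _ _ G hdens r m hr hm Z
  have : Fintype V := Fintype.ofFinite V
  have hξ1 : 1 ≤ ξ r m := by simp [ξ]
  have hq1 : 1 ≤ q r m := Nat.mul_pos hξ1 (by omega)
  have ht1 : 1 ≤ t r m := Nat.mul_pos hm (by omega)
  have hM1 : 1 ≤ M r m := Nat.mul_pos (Nat.mul_pos (Nat.mul_pos (by omega) (by omega)) hq1)
    (by omega)
  obtain ⟨X, hZX, hXc, hX⟩ := exists_closed hdens (2 * r) (ξ r m) le_rfl Z
  obtain ⟨S, hSc, hScl, hSown⟩ := exists_step_gen hdens (t r m) (2 * r) (ξ r m) (q r m) (M r m)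
    (K r m) le_rfl le_rfl le_rfl
    (fun W => hf V G (hsep V G hdens) (M r m) hM1 W) X (fun u => by
      convert hX u using 3)
  refine ⟨S, ?_, ?_⟩
  · -- cardinality
    have h1 : (m * S.card) * (2 * (ξ r m * (2 * r) + 1)) ≤ Z.card * (2 * (ξ r m * (2 * r) + 1)) := by
      calc (m * S.card) * (2 * (ξ r m * (2 * r) + 1)) = t r m * S.card := by
            simp only [t]; ring
        _ ≤ X.card := hSc
        _ ≤ 2 * (ξ r m * (2 * r) + 1) * Z.card := hXc
        _ = Z.card * (2 * (ξ r m * (2 * r) + 1)) := by ring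
    exact Nat.le_of_mul_le_mul_right h1 (by omega)
  · intro w hwZ hwS
    refine le_trans ?_ (hCa r m hr hm)
    -- the seen vertices
    by_cases hex : ∃ x₁, x₁ ∉ S ∧ Sees G r ((Z : Set V) ∪ (S : Set V)) w x₁
    · obtain ⟨x₁, hx₁S, hx₁, p₁, hp₁, hpw₁⟩ := hex
      have hx₁Z : x₁ ∈ Z := by
        rcases hx₁ with h | h
        · exact h
        · exact (hx₁S h).elim
      have hav₁ : ∀ z ∈ p₁.support, z ∉ S := by
        intro z hz hzS
        have := hpw₁ z hz (Or.inr hzS)
        exact hx₁S (this ▸ hzS)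
      have hsub : {x | Sees G r ((Z : Set V) ∪ (S : Set V)) w x} ⊆
          {x | Sees G (2 * r) (S : Set V) w x} ∪ {b | b ∈ X ∧ ∃ p : G.Walk x₁ b, p.length ≤ 2 * r ∧
            ∀ z ∈ p.support, z ∉ S} := by
        rintro x ⟨hx, p, hp, hpw⟩
        by_cases hxS : x ∈ S
        · left
          exact ⟨hxS, p, by omega, fun z hz hzS => hpw z hz (Or.inr hzS)⟩
        · right
          have hxZ : x ∈ Z := by
            rcases hx with h | h
            · exact h
            · exact (hxS h).elim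
          refine ⟨hZX hxZ, p₁.reverse.append p, ?_, ?_⟩
          · rw [SimpleGraph.Walk.length_append, SimpleGraph.Walk.length_reverse]
            omega
          · intro z hz
            rw [SimpleGraph.Walk.mem_support_append_iff] at hz
            rcases hz with hz | hz
            · exact hav₁ z (by simpa using hz)
            · intro hzS
              have := hpw z hz (Or.inr hzS)
              exact hxS (this ▸ hzS)
      calc _ ≤ ({x | Sees G (2 * r) (S : Set V) w x} ∪ {b | b ∈ X ∧ ∃ p : G.Walk x₁ b,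
            p.length ≤ 2 * r ∧ ∀ z ∈ p.support, z ∉ S}).ncard :=
            Set.ncard_le_ncard hsub (Set.toFinite _)
        _ ≤ q r m + K r m := (Set.ncard_union_le _ _).trans (Nat.add_le_add (hScl w)
            (hSown x₁ (hZX hx₁Z) hx₁S))
        _ ≤ q r m + K r m + 1 := Nat.le_succ _
    · push Not at hex
      have hsub : {x | Sees G r ((Z : Set V) ∪ (S : Set V)) w x} ⊆
          {x | Sees G (2 * r) (S : Set V) w x} := by
        rintro x hx
        have hxS : x ∈ S := by
          by_contra hxS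
          exact hex x hxS hx
        obtain ⟨-, p, hp, hpw⟩ := hx
        exact ⟨hxS, p, by omega, fun z hz hzS => hpw z hz (Or.inr hzS)⟩
      calc _ ≤ {x | Sees G (2 * r) (S : Set V) w x}.ncard :=
            Set.ncard_le_ncard hsub (Set.toFinite _)
        _ ≤ q r m := hScl w
        _ ≤ q r m + K r m + 1 := by omega

end P67
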