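import Pool.Agent.Lib.P67f173.FragOfSep

set_option autoImplicit false

/-!
One balanced separator from the density of shallow minors (region growing with a growing
clique minor of bounded depth).
-/

namespace P67

variable {V : Type*} {G : SimpleGraph V}

theorem small_of_closed [Finite V] {X : Set V} {K : ℕ}
    (h : ∀ v ∈ X, ∃ T : Finset V, v ∈ T ∧ T.card ≤ K ∧
      ∀ a ∈ T, ∀ b ∈ X, G.Adj a b → b ∈ T) :
    Small G X K := by
  intro v hv
  obtain ⟨T, hvT, hTc, hT⟩ := h v hv
  refine le_trans ?_ hTc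
  rw [← Set.ncard_coe_finset]
  refine Set.ncard_le_ncard ?_ (Set.toFinite _)
  intro u hu
  have h1 := Conn.restrict (T := (T : Set V)) (fun a ha b hb hab =>
    Finset.mem_coe.mpr (hT a (Finset.mem_coe.mp ha) b hb hab)) (Finset.mem_coe.mpr hvT) hu
  exact h1.mem_right.2

theorem Within.trans {S : Set V} {i j : ℕ} {x y z : V} (h : Within G S i x y)
    (h' : Within G S j y z) : Within G S (i + j) x z := by
  obtain ⟨p, hp, hpS⟩ := h
  obtain ⟨q, hq, hqS⟩ := h'
  refine ⟨p.append q, ?_, fun w hw => ?_⟩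
  · rw [SimpleGraph.Walk.length_append]
    omega
  · rw [SimpleGraph.Walk.mem_support_append_iff] at hw
    exact hw.elim (hpS w) (hqS w)

theorem Within.symm {S : Set V} {i : ℕ} {x y : V} (h : Within G S i x y) :
    Within G S i y x := by
  obtain ⟨p, hp, hpS⟩ := h
  exact ⟨p.reverse, by simpa using hp, by simpa using hpS⟩

theorem Within.mono_len {S : Set V} {i j : ℕ} (hij : i ≤ j) {x y : V} (h : Within G S i x y) :
    Within G S j x y := by
  obtain ⟨p, hp, hpS⟩ := h
  exact ⟨p, hp.trans hij, hpS⟩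

open Classical in
/-- the ball of radius `i` around `T` inside `U` -/
noncomputable def gball (G : SimpleGraph V) (U T : Finset V) (i : ℕ) : Finset V :=
  U.filter (fun u => ∃ t ∈ T, Within G (U : Set V) i t u)

theorem mem_gball {U T : Finset V} {i : ℕ} {u : V} :
    u ∈ gball G U T i ↔ u ∈ U ∧ ∃ t ∈ T, Within G (U : Set V) i t u := by
  classical
  simp [gball]

theorem gball_subset {U T : Finset V} {i : ℕ} : gball G U T i ⊆ U := fun _ hu =>
  (mem_gball.mp hu).1

theorem gball_mono {U T : Finset V} {i j : ℕ} (hij : i ≤ j) :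
    gball G U T i ⊆ gball G U T j := by
  intro u hu
  obtain ⟨hU, t, ht, h⟩ := mem_gball.mp hu
  exact mem_gball.mpr ⟨hU, t, ht, h.mono_len hij⟩

theorem subset_gball {U T : Finset V} (hT : T ⊆ U) (i : ℕ) : T ⊆ gball G U T i := by
  intro u hu
  refine mem_gball.mpr ⟨hT hu, u, hu, .nil, by simp, ?_⟩
  intro w hw
  simp only [SimpleGraph.Walk.support_nil, List.mem_singleton] at hw
  rw [hw]
  exact Finset.mem_coe.mpr (hT hu)

theorem gball_adj {U T : Finset V} {i : ℕ} {a b : V} (ha : a ∈ gball G U T i) (hb : b ∈ U)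
    (hab : G.Adj a b) : b ∈ gball G U T (i + 1) := by
  obtain ⟨haU, t, ht, h⟩ := mem_gball.mp ha
  refine mem_gball.mpr ⟨hb, t, ht, h.trans ⟨.cons hab .nil, by simp, ?_⟩⟩
  intro w hw
  simp only [SimpleGraph.Walk.support_cons, SimpleGraph.Walk.support_nil, List.mem_cons,
    List.not_mem_nil, or_false] at hw
  rcases hw with rfl | rfl
  · exact Finset.mem_coe.mpr haU
  · exact Finset.mem_coe.mpr hb

/-- a sparse layer exists -/
theorem exists_sparse_layer {U T : Finset V} (hT : T ⊆ U) (hne : T.Nonempty) {l L : ℕ}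
    (hL : U.card * l ^ L < (l + 1) ^ L) :
    ∃ i, i < L ∧ l * (gball G U T (i + 1)).card ≤ (l + 1) * (gball G U T i).card := by
  by_contra hcon
  push Not at hcon
  have h1 : ∀ i, i ≤ L → (l + 1) ^ i ≤ l ^ i * (gball G U T i).card := by
    intro i
    induction i with
    | zero =>
      intro _
      have : 0 < (gball G U T 0).card :=
        Finset.card_pos.mpr (hne.mono (subset_gball hT 0))
      simpa using this
    | succ i ih =>
      intro hi
      have h2 := ih (by omega)
      have h3 := hcon i (by omega)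
      calc (l + 1) ^ (i + 1) = (l + 1) ^ i * (l + 1) := pow_succ _ _
        _ ≤ l ^ i * (gball G U T i).card * (l + 1) := Nat.mul_le_mul_right _ h2
        _ = l ^ i * ((l + 1) * (gball G U T i).card) := by ring
        _ ≤ l ^ i * (l * (gball G U T (i + 1)).card) := Nat.mul_le_mul_left _ h3.le
        _ = l ^ (i + 1) * (gball G U T (i + 1)).card := by ring
  have h4 := h1 L le_rfl
  have h5 : (gball G U T L).card ≤ U.card := Finset.card_le_card gball_subset
  have h6 : l ^ L * (gball G U T L).card ≤ U.card * l ^ L := by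
    rw [mul_comm]
    exact Nat.mul_le_mul_right _ h5
  omega

/-- The state of the separator construction. -/
structure State (G : SimpleGraph V) (W : Finset V) (l L H : ℕ) (U S : Finset V)
    (B : Finset (Finset V)) : Prop where
  subU : U ⊆ W
  subS : S ⊆ W
  subB : ∀ A ∈ B, A ⊆ W
  disjU : ∀ A ∈ B, Disjoint A U
  disj : ∀ A ∈ B, ∀ A' ∈ B, A ≠ A' → Disjoint A A'
  blob : ∀ A ∈ B, Blob G (2 * L) (A : Set V)
  adj : ∀ A ∈ B, ∀ A' ∈ B, A ≠ A' → ∃ a ∈ A, ∃ b ∈ A', G.Adj a b
  cardB : ∀ A ∈ B, A.card ≤ H * (2 * L + 2)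
  cardS : l * S.card + U.card ≤ W.card
  big : W.card < 2 * U.card
  sep : ∀ a ∈ U, ∀ b ∈ W, b ∉ U → b ∉ S → (∀ A ∈ B, b ∉ A) → ¬ G.Adj a b

theorem State.card_le {W : Finset V} {l L H : ℕ} {U S : Finset V} {B : Finset (Finset V)}
    (hs : State G W l L H U S B) {D : ℕ → ℕ} (hD : Dens G D) : B.card ≤ D (2 * L) + 1 := by
  classical
  have h := hD.finset (2 * L) B B.offDiag hs.disj hs.blob (by
    intro e he
    obtain ⟨h1, h2, h3⟩ := Finset.mem_offDiag.mp he
    exact ⟨h1, h2, h3, hs.adj _ h1 _ h2 h3⟩)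
  rw [Finset.offDiag_card] at h
  by_contra hcon
  push Not at hcon
  have h1 : (D (2 * L) + 1) * B.card < B.card * B.card :=
    Nat.mul_lt_mul_of_pos_right hcon (by omega)
  have h2 : (D (2 * L) + 1) * B.card = D (2 * L) * B.card + B.card := by ring
  omega

/-- the final separator of a state, when the rest of `U` has been split -/
theorem State.finish [Finite V] [DecidableEq V] {W : Finset V} {l L H : ℕ} {U S : Finset V}
    {B : Finset (Finset V)} (hs : State G W l L H U S B) (hB : B.card + 1 ≤ H)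
    (Z C : Finset V) (hZU : Z ⊆ U) (hCU : C ⊆ U)
    (hC : 2 * C.card ≤ W.card) (hU : 2 * (U \ (C ∪ Z)).card ≤ W.card)
    (hsepC : ∀ a ∈ C, ∀ b ∈ U, b ∉ C → b ∉ Z → ¬ G.Adj a b)
    (hcard : l * (S ∪ Z).card ≤ W.card + l * (H * (2 * L + 2))
      ∧ l * (S.card + Z.card) ≤ W.card + l * (H * (2 * L + 2))) :
    ∃ Y : Finset V, Y ⊆ W ∧ l * Y.card ≤ W.card + l * (H * (H * (2 * L + 2))) ∧
      Small G ((W : Set V) \ (Y : Set V)) (W.card / 2) := by
  refine ⟨S ∪ Z ∪ B.biUnion id, ?_, ?_, ?_⟩
  · refine Finset.union_subset (Finset.union_subset hs.subS (hZU.trans hs.subU)) ?_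
    exact Finset.biUnion_subset.mpr hs.subB
  · have h1 : (B.biUnion id).card ≤ B.card * (H * (2 * L + 2)) :=
      Finset.card_biUnion_le_card_mul _ _ _ hs.cardB
    have h2 : (S ∪ Z ∪ B.biUnion id).card ≤ (S ∪ Z).card + B.card * (H * (2 * L + 2)) :=
      (Finset.card_union_le _ _).trans (Nat.add_le_add_left h1 _)
    have h3 : (B.card + 1) * (H * (2 * L + 2)) ≤ H * (H * (2 * L + 2)) :=
      Nat.mul_le_mul_right _ hB
    calc l * (S ∪ Z ∪ B.biUnion id).card
        ≤ l * ((S ∪ Z).card + B.card * (H * (2 * L + 2))) := Nat.mul_le_mul_left _ h2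
      _ = l * (S ∪ Z).card + l * (B.card * (H * (2 * L + 2))) := by ring
      _ ≤ (W.card + l * (H * (2 * L + 2))) + l * (B.card * (H * (2 * L + 2))) :=
          Nat.add_le_add_right hcard.1 _
      _ = W.card + l * ((B.card + 1) * (H * (2 * L + 2))) := by ring
      _ ≤ W.card + l * (H * (H * (2 * L + 2))) :=
          Nat.add_le_add_left (Nat.mul_le_mul_left _ h3) _
  · refine small_of_closed ?_
    intro v hv
    have hvW : v ∈ W := Finset.mem_coe.mp hv.1
    have hX : ∀ b ∈ ((W : Set V) \ ((S ∪ Z ∪ B.biUnion id : Finset V) : Set V)),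
        b ∈ W ∧ b ∉ S ∧ b ∉ Z ∧ ∀ A ∈ B, b ∉ A := by
      intro b hb
      have h1 : b ∉ (S ∪ Z ∪ B.biUnion id : Finset V) := fun h => hb.2 (Finset.mem_coe.mpr h)
      simp only [Finset.mem_union, Finset.mem_biUnion, id, not_or, not_exists, not_and] at h1
      exact ⟨Finset.mem_coe.mp hb.1, h1.1.1, h1.1.2, h1.2⟩
    have hv' := hX v hv
    by_cases hvU : v ∈ U
    · by_cases hvC : v ∈ C
      · refine ⟨C, hvC, by omega, ?_⟩
        intro a ha b hb hab
        have hb' := hX b hb
        by_contra hbC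
        by_cases hbU : b ∈ U
        · exact hsepC a ha b hbU hbC hb'.2.2.1 hab
        · exact hs.sep a (hCU ha) b hb'.1 hbU hb'.2.1 hb'.2.2.2 hab
      · refine ⟨U \ (C ∪ Z), ?_, by omega, ?_⟩
        · simp only [Finset.mem_sdiff, Finset.mem_union, not_or]
          exact ⟨hvU, hvC, hv'.2.2.1⟩
        · intro a ha b hb hab
          simp only [Finset.mem_sdiff, Finset.mem_union, not_or] at ha ⊢
          have hb' := hX b hb
          have hbU : b ∈ U := by
            by_contra hbU
            exact hs.sep a ha.1 b hb'.1 hbU hb'.2.1 hb'.2.2.2 hab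
          refine ⟨hbU, ?_, hb'.2.2.1⟩
          intro hbC
          exact hsepC b hbC a ha.1 ha.2.1 ha.2.2 hab.symm
    · refine ⟨(W \ U) \ (S ∪ B.biUnion id), ?_, ?_, ?_⟩
      · simp only [Finset.mem_sdiff, Finset.mem_union, Finset.mem_biUnion, id, not_or, not_exists,
          not_and]
        exact ⟨⟨hvW, hvU⟩, hv'.2.1, hv'.2.2.2⟩
      · have h1 : (W \ U).card + U.card = W.card := Finset.card_sdiff_add_card_eq_card hs.subU
        have h2 := hs.big
        have h3 : ((W \ U) \ (S ∪ B.biUnion id)).card ≤ (W \ U).card :=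
          Finset.card_le_card Finset.sdiff_subset
        omega
      · intro a ha b hb hab
        simp only [Finset.mem_sdiff, Finset.mem_union, Finset.mem_biUnion, id, not_or, not_exists,
          not_and] at ha ⊢
        have hb' := hX b hb
        refine ⟨⟨hb'.1, fun hbU => ?_⟩, hb'.2.1, hb'.2.2.2⟩
        exact hs.sep b hbU a ha.1.1 ha.1.2 ha.2.1 ha.2.2 hab.symm

/-- cutting off a ball -/
theorem State.cut [Finite V] [DecidableEq V] {W : Finset V} {l L H : ℕ} {U S : Finset V}
    {B : Finset (Finset V)} (hs : State G W l L H U S B) (hB : B.card + 1 ≤ H)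
    (hL : W.card * l ^ L < (l + 1) ^ L) (T : Finset V) (hT : T ⊆ U) (hne : T.Nonempty)
    (hhalf : 2 * (gball G U T L).card ≤ U.card)
    (ih : ∀ (U' S' : Finset V) (B' : Finset (Finset V)), 2 * U'.card + B'.card <
      2 * U.card + B.card → State G W l L H U' S' B' →
      ∃ Y : Finset V, Y ⊆ W ∧ l * Y.card ≤ W.card + l * (H * (H * (2 * L + 2))) ∧
      Small G ((W : Set V) \ (Y : Set V)) (W.card / 2)) :
    ∃ Y : Finset V, Y ⊆ W ∧ l * Y.card ≤ W.card + l * (H * (H * (2 * L + 2))) ∧
      Small G ((W : Set V) \ (Y : Set V)) (W.card / 2) := by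
  have hUW : U.card ≤ W.card := Finset.card_le_card hs.subU
  obtain ⟨i, hiL, hi⟩ := exists_sparse_layer (G := G) hT hne
    (lt_of_le_of_lt (Nat.mul_le_mul_right _ hUW) hL)
  set C := gball G U T i with hC
  set C' := gball G U T (i + 1) with hC'
  have hCC' : C ⊆ C' := gball_mono (by omega)
  have hC'U : C' ⊆ U := gball_subset
  have hCU : C ⊆ U := gball_subset
  set Z := C' \ C with hZ
  have hZU : Z ⊆ U := Finset.sdiff_subset.trans hC'U
  have hCZ : C ∪ Z = C' := Finset.union_sdiff_of_subset hCC'
  have hZc : Z.card + C.card = C'.card := Finset.card_sdiff_add_card_eq_card hCC'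
  have hlZ : l * Z.card ≤ C.card := by
    have h1 : l * Z.card + l * C.card = l * C'.card := by rw [← hZc]; ring
    have h2 : (l + 1) * C.card = l * C.card + C.card := by ring
    omega
  have hCL : C.card ≤ (gball G U T L).card := Finset.card_le_card (gball_mono (by omega))
  have hsepC : ∀ a ∈ C, ∀ b ∈ U, b ∉ C → b ∉ Z → ¬ G.Adj a b := by
    intro a ha b hb hbC hbZ hab
    have h1 : b ∈ C' := gball_adj ha hb hab
    exact hbZ (Finset.mem_sdiff.mpr ⟨h1, hbC⟩)
  have hC'ne : 0 < C'.card := Finset.card_pos.mpr (hne.mono (subset_gball hT _))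
  have hUC' : (U \ C').card + C'.card = U.card := Finset.card_sdiff_add_card_eq_card hC'U
  have hcardS' : l * (S ∪ Z).card + (U \ C').card ≤ W.card := by
    have h1 : l * (S ∪ Z).card ≤ l * S.card + l * Z.card := by
      calc l * (S ∪ Z).card ≤ l * (S.card + Z.card) :=
            Nat.mul_le_mul_left _ (Finset.card_union_le _ _)
        _ = _ := by ring
    have h2 := hs.cardS
    omega
  by_cases hbig : W.card < 2 * (U \ C').card
  · refine ih (U \ C') (S ∪ Z) B (by omega) ?_
    refine ⟨Finset.sdiff_subset.trans hs.subU, Finset.union_subset hs.subS (hZU.trans hs.subU),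
      hs.subB, fun A hA => (hs.disjU A hA).mono_right Finset.sdiff_subset, hs.disj, hs.blob,
      hs.adj, hs.cardB, hcardS', hbig, ?_⟩
    intro a ha b hbW hbU hbS hbB hab
    simp only [Finset.mem_sdiff, Finset.mem_union, not_or, not_and, not_not] at ha hbU hbS
    by_cases hb : b ∈ U
    · have hb1 : b ∈ C' := hbU hb
      have hb2 : b ∈ C := by
        by_contra hb2
        exact hbS.2 (Finset.mem_sdiff.mpr ⟨hb1, hb2⟩)
      exact ha.2 (gball_adj hb2 ha.1 hab.symm)
    · exact hs.sep a ha.1 b hbW hb hbS.1 hbB hab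
  · refine hs.finish hB Z C hZU hCU ?_ ?_ hsepC ⟨?_, ?_⟩
    · omega
    · rw [hCZ]
      omega
    · have := Nat.zero_le (l * (H * (2 * L + 2)))
      omega
    · have h1 : l * (S.card + Z.card) = l * S.card + l * Z.card := by ring
      have h2 := hs.cardS
      have := Nat.zero_le (l * (H * (2 * L + 2)))
      have h3 : C.card ≤ U.card := Finset.card_le_card hCU
      omega

/-- adding a new blob -/
theorem State.grow [Finite V] [DecidableEq V] {W : Finset V} {l L H : ℕ} {U S : Finset V}
    {B : Finset (Finset V)} (hs : State G W l L H U S B) (hB : B.card + 1 ≤ H)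
    (v : V) (hv : v ∈ U)
    (hP : ∀ A ∈ B, ∃ t ∈ U, (∃ a ∈ A, G.Adj a t) ∧ Within G (U : Set V) (2 * L) v t)
    (ih : ∀ (U' S' : Finset V) (B' : Finset (Finset V)), 2 * U'.card + B'.card <
      2 * U.card + B.card → State G W l L H U' S' B' →
      ∃ Y : Finset V, Y ⊆ W ∧ l * Y.card ≤ W.card + l * (H * (H * (2 * L + 2))) ∧
      Small G ((W : Set V) \ (Y : Set V)) (W.card / 2)) :
    ∃ Y : Finset V, Y ⊆ W ∧ l * Y.card ≤ W.card + l * (H * (H * (2 * L + 2))) ∧
      Small G ((W : Set V) \ (Y : Set V)) (W.card / 2) := by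
  have hP2 : ∀ A ∈ B, ∃ P : Finset V, P ⊆ U ∧ P.card ≤ 2 * L + 1 ∧
      (∃ a ∈ A, ∃ t ∈ P, G.Adj a t) ∧ ∀ y ∈ P, Within G (P : Set V) (2 * L) v y := by
    intro A hA
    obtain ⟨t, htU, ⟨a, haA, hat⟩, p, hp, hpU⟩ := hP A hA
    refine ⟨p.support.toFinset, ?_, ?_, ⟨a, haA, t, ?_, hat⟩, ?_⟩
    · intro w hw
      exact Finset.mem_coe.mp (hpU w (List.mem_toFinset.mp hw))
    · refine (List.toFinset_card_le _).trans ?_
      rw [SimpleGraph.Walk.length_support]
      omega
    · exact List.mem_toFinset.mpr p.end_mem_support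
    · intro y hy
      have hy' := List.mem_toFinset.mp hy
      refine ⟨p.takeUntil y hy', (p.length_takeUntil_le_length hy').trans hp, ?_⟩
      intro w hw
      exact Finset.mem_coe.mpr (List.mem_toFinset.mpr (p.support_takeUntil_subset_support hy' hw))
  choose! P hPU hPc hPa hPw using hP2
  set N : Finset V := insert v (B.biUnion P) with hN
  have hNU : N ⊆ U := by
    refine Finset.insert_subset hv ?_
    exact Finset.biUnion_subset.mpr hPU
  have hvN : v ∈ N := Finset.mem_insert_self _ _
  have hNc : N.card ≤ H * (2 * L + 2) := by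
    have h1 : (B.biUnion P).card ≤ B.card * (2 * L + 1) :=
      Finset.card_biUnion_le_card_mul _ _ _ hPc
    have h2 : N.card ≤ (B.biUnion P).card + 1 := Finset.card_insert_le _ _
    have h3 : (B.card + 1) * (2 * L + 2) ≤ H * (2 * L + 2) := Nat.mul_le_mul_right _ hB
    have h4 : (B.card + 1) * (2 * L + 2) = B.card * (2 * L + 1) + B.card + 2 * L + 2 := by ring
    omega
  have hNblob : Blob G (2 * L) (N : Set V) := by
    refine ⟨v, Finset.mem_coe.mpr hvN, ?_⟩
    intro y hy
    rcases Finset.mem_insert.mp (Finset.mem_coe.mp hy) with rfl | hy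
    · refine ⟨.nil, by simp, ?_⟩
      intro w hw
      simp only [SimpleGraph.Walk.support_nil, List.mem_singleton] at hw
      rw [hw]
      exact Finset.mem_coe.mpr hvN
    · obtain ⟨A, hA, hyA⟩ := Finset.mem_biUnion.mp hy
      obtain ⟨p, hp, hpP⟩ := hPw A hA y hyA
      refine ⟨p, hp, fun w hw => ?_⟩
      refine Finset.mem_coe.mpr (Finset.mem_insert_of_mem (Finset.mem_biUnion.mpr ⟨A, hA, ?_⟩))
      exact Finset.mem_coe.mp (hpP w hw)
  have hNadj : ∀ A ∈ B, ∃ a ∈ A, ∃ t ∈ N, G.Adj a t := by
    intro A hA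
    obtain ⟨a, ha, t, ht, hat⟩ := hPa A hA
    exact ⟨a, ha, t, Finset.mem_insert_of_mem (Finset.mem_biUnion.mpr ⟨A, hA, ht⟩), hat⟩
  have hNB : ∀ A ∈ B, Disjoint A N := fun A hA => (hs.disjU A hA).mono_right hNU
  have hUN : (U \ N).card + N.card = U.card := Finset.card_sdiff_add_card_eq_card hNU
  have hNpos : 0 < N.card := Finset.card_pos.mpr ⟨v, hvN⟩
  by_cases hbig : W.card < 2 * (U \ N).card
  · refine ih (U \ N) S (insert N B) ?_ ?_
    · have := Finset.card_insert_le N B
      omega
    · refine ⟨Finset.sdiff_subset.trans hs.subU, hs.subS, ?_, ?_, ?_, ?_, ?_, ?_, ?_, hbig, ?_⟩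
      · intro A hA
        rcases Finset.mem_insert.mp hA with rfl | hA
        · exact hNU.trans hs.subU
        · exact hs.subB A hA
      · intro A hA
        rcases Finset.mem_insert.mp hA with rfl | hA
        · exact Finset.disjoint_sdiff
        · exact (hs.disjU A hA).mono_right Finset.sdiff_subset
      · intro A hA A' hA' hne
        rcases Finset.mem_insert.mp hA with rfl | hA
        · rcases Finset.mem_insert.mp hA' with rfl | hA'
          · exact absurd rfl hne
          · exact (hNB A' hA').symm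
        · rcases Finset.mem_insert.mp hA' with rfl | hA'
          · exact hNB A hA
          · exact hs.disj A hA A' hA' hne
      · intro A hA
        rcases Finset.mem_insert.mp hA with rfl | hA
        · exact hNblob
        · exact hs.blob A hA
      · intro A hA A' hA' hne
        rcases Finset.mem_insert.mp hA with rfl | hA
        · rcases Finset.mem_insert.mp hA' with rfl | hA'
          · exact absurd rfl hne
          · obtain ⟨a, ha, t, ht, hat⟩ := hNadj A' hA'
            exact ⟨t, ht, a, ha, hat.symm⟩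
        · rcases Finset.mem_insert.mp hA' with rfl | hA'
          · exact hNadj A hA
          · exact hs.adj A hA A' hA' hne
      · intro A hA
        rcases Finset.mem_insert.mp hA with rfl | hA
        · exact hNc
        · exact hs.cardB A hA
      · have := hs.cardS
        omega
      · intro a ha b hbW hbU hbS hbB hab
        have hbN : b ∉ N := hbB N (Finset.mem_insert_self _ _)
        refine hs.sep a (Finset.mem_sdiff.mp ha).1 b hbW ?_ hbS
          (fun A hA => hbB A (Finset.mem_insert_of_mem hA)) hab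
        intro hb
        exact hbU (Finset.mem_sdiff.mpr ⟨hb, hbN⟩)
  · have hlN : l * N.card ≤ l * (H * (2 * L + 2)) := Nat.mul_le_mul_left _ hNc
    have hlS := hs.cardS
    have h1 : l * (S.card + N.card) = l * S.card + l * N.card := by ring
    refine hs.finish hB N ∅ hNU (by simp) (by simp) ?_ (by simp) ⟨?_, ?_⟩
    · rw [Finset.empty_union]
      omega
    · have h2 : l * (S ∪ N).card ≤ l * (S.card + N.card) :=
        Nat.mul_le_mul_left _ (Finset.card_union_le _ _)
      omega
    · omega

theorem sep_main [Finite V] [DecidableEq V] {D : ℕ → ℕ} (hD : Dens G D) {W : Finset V}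
    {l L H : ℕ} (hH : D (2 * L) + 2 ≤ H) (hL : W.card * l ^ L < (l + 1) ^ L) :
    ∀ (n : ℕ) (U S : Finset V) (B : Finset (Finset V)), 2 * U.card + B.card < n →
      State G W l L H U S B →
      ∃ Y : Finset V, Y ⊆ W ∧ l * Y.card ≤ W.card + l * (H * (H * (2 * L + 2))) ∧
      Small G ((W : Set V) \ (Y : Set V)) (W.card / 2) := by
  intro n
  induction n with
  | zero => intro U S B h; omega
  | succ n ihn =>
    intro U S B hn hs
    have ih : ∀ (U' S' : Finset V) (B' : Finset (Finset V)), 2 * U'.card + B'.card <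
      2 * U.card + B.card → State G W l L H U' S' B' →
      ∃ Y : Finset V, Y ⊆ W ∧ l * Y.card ≤ W.card + l * (H * (H * (2 * L + 2))) ∧
      Small G ((W : Set V) \ (Y : Set V)) (W.card / 2) := fun U' S' B' h hs' =>
        ihn U' S' B' (by omega) hs'
    have hB : B.card + 1 ≤ H := by
      have := hs.card_le hD
      omega
    by_cases hdrop : ∃ A ∈ B, ∀ a ∈ A, ∀ t ∈ U, ¬ G.Adj a t
    · obtain ⟨A, hA, hAU⟩ := hdrop
      have hc : (B.erase A).card < B.card := Finset.card_erase_lt_of_mem hA
      refine ih U S (B.erase A) (by omega) ?_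
      have hsub : ∀ A' ∈ B.erase A, A' ∈ B := fun A' h => Finset.mem_of_mem_erase h
      refine ⟨hs.subU, hs.subS, fun A' h => hs.subB A' (hsub A' h),
        fun A' h => hs.disjU A' (hsub A' h),
        fun A₁ h₁ A₂ h₂ => hs.disj A₁ (hsub A₁ h₁) A₂ (hsub A₂ h₂),
        fun A' h => hs.blob A' (hsub A' h),
        fun A₁ h₁ A₂ h₂ => hs.adj A₁ (hsub A₁ h₁) A₂ (hsub A₂ h₂),
        fun A' h => hs.cardB A' (hsub A' h), hs.cardS, hs.big, ?_⟩
      intro a ha b hbW hbU hbS hbB hab
      by_cases hbA : b ∈ A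
      · exact hAU b hbA a ha hab.symm
      · refine hs.sep a ha b hbW hbU hbS (fun A' hA' => ?_) hab
        by_cases h : A' = A
        · rw [h]; exact hbA
        · exact hbB A' (Finset.mem_erase.mpr ⟨h, hA'⟩)
    · push Not at hdrop
      have hUne : U.Nonempty := by
        rw [← Finset.card_pos]
        have := hs.big
        omega
      obtain ⟨v, hv⟩ := hUne
      by_cases hnear : ∀ A ∈ B, ∃ t ∈ U, (∃ a ∈ A, G.Adj a t) ∧
          Within G (U : Set V) (2 * L) v t
      · exact hs.grow hB v hv hnear ih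
      · push Not at hnear
        obtain ⟨A, hA, hfar⟩ := hnear
        classical
        set T : Finset V := U.filter (fun t => ∃ a ∈ A, G.Adj a t) with hT
        have hTU : T ⊆ U := Finset.filter_subset _ _
        have hTne : T.Nonempty := by
          obtain ⟨a, ha, t, ht, hat⟩ := hdrop A hA
          exact ⟨t, Finset.mem_filter.mpr ⟨ht, a, ha, hat⟩⟩
        have hdisj : Disjoint (gball G U {v} L) (gball G U T L) := by
          rw [Finset.disjoint_left]
          intro u hu1 hu2
          obtain ⟨huU, v', hv', h1⟩ := mem_gball.mp hu1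
          obtain ⟨-, t, ht, h2⟩ := mem_gball.mp hu2
          rw [Finset.mem_singleton.mp hv'] at h1
          obtain ⟨htU, a, ha, hat⟩ := Finset.mem_filter.mp ht
          refine hfar t htU ⟨a, ha, hat⟩ ?_
          rw [two_mul]
          exact h1.trans h2.symm
        have hsum : (gball G U {v} L).card + (gball G U T L).card ≤ U.card := by
          rw [← Finset.card_union_of_disjoint hdisj]
          exact Finset.card_le_card (Finset.union_subset gball_subset gball_subset)
        by_cases hc : 2 * (gball G U {v} L).card ≤ U.card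
        · exact hs.cut hB hL {v} (by simpa using hv) (by simp) hc ih
        · exact hs.cut hB hL T hTU hTne (by omega) ih

theorem sepProp_of_dens {V : Type*} [Finite V] {G : SimpleGraph V} {D : ℕ → ℕ}
    (hD : Dens G D) (hmono : Monotone D) : SepProp G D := by
  classical
  intro W l L hl hL
  rcases W.eq_empty_or_nonempty with rfl | hne
  · refine ⟨∅, by simp, by simp, ?_⟩
    intro v hv
    simp at hv
  have hH : D (2 * L) + 2 ≤ 2 * D (2 * L + 1) + 2 := by
    have := hmono (show 2 * L ≤ 2 * L + 1 by omega)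
    omega
  refine sep_main hD hH hL (2 * W.card + 1) W ∅ ∅ (by simp) ?_
  refine ⟨subset_rfl, by simp, by simp, by simp, by simp, by simp, by simp, by simp, by simp, ?_,
    ?_⟩
  · have : 0 < W.card := Finset.card_pos.mpr hne
    omega
  · intro a _ b hb hb'
    exact absurd hb hb'

end P67
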