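import Pool.Agent.Lib.P67f173.OrderFull
import Pool.Agent.Lib.P67f173.Sep

set_option autoImplicit false

/-!
Choice of the parameters: the strong coloring numbers are polynomial.
-/

namespace P67

/-- `f` is bounded by a polynomial for `r ≥ 1` -/
def PolyB (f : ℕ → ℕ) : Prop := ∃ a b : ℕ, ∀ r : ℕ, 1 ≤ r → f r ≤ a * r ^ b

theorem PolyB.const (c : ℕ) : PolyB (fun _ => c) := ⟨c, 0, fun r _ => by simp⟩

theorem PolyB.id : PolyB (fun r => r) := ⟨1, 1, fun r _ => by simp⟩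

theorem PolyB.add {f g : ℕ → ℕ} (hf : PolyB f) (hg : PolyB g) : PolyB (fun r => f r + g r) := by
  obtain ⟨a, b, h1⟩ := hf
  obtain ⟨a', b', h2⟩ := hg
  refine ⟨a + a', b + b', fun r hr => ?_⟩
  have e1 : r ^ b ≤ r ^ (b + b') := Nat.pow_le_pow_right hr (by omega)
  have e2 : r ^ b' ≤ r ^ (b + b') := Nat.pow_le_pow_right hr (by omega)
  calc f r + g r ≤ a * r ^ b + a' * r ^ b' := Nat.add_le_add (h1 r hr) (h2 r hr)
    _ ≤ a * r ^ (b + b') + a' * r ^ (b + b') :=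
        Nat.add_le_add (Nat.mul_le_mul_left _ e1) (Nat.mul_le_mul_left _ e2)
    _ = (a + a') * r ^ (b + b') := by ring

theorem PolyB.mul {f g : ℕ → ℕ} (hf : PolyB f) (hg : PolyB g) : PolyB (fun r => f r * g r) := by
  obtain ⟨a, b, h1⟩ := hf
  obtain ⟨a', b', h2⟩ := hg
  refine ⟨a * a', b + b', fun r hr => ?_⟩
  calc f r * g r ≤ (a * r ^ b) * (a' * r ^ b') := Nat.mul_le_mul (h1 r hr) (h2 r hr)
    _ = a * a' * r ^ (b + b') := by ring

theorem PolyB.pow {f : ℕ → ℕ} (hf : PolyB f) (n : ℕ) : PolyB (fun r => f r ^ n) := by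
  induction n with
  | zero => simpa using PolyB.const 1
  | succ n ih =>
    have := ih.mul hf
    simpa [pow_succ] using this

/-- Strong coloring numbers are polynomial for graphs with polynomially sparse shallow minors. -/
theorem exists_poly_order (c k : ℕ) : ∃ a b : ℕ, ∀ r : ℕ, 1 ≤ r → ∀ (n : ℕ)
    (G : SimpleGraph (Fin n)), Dens G (fun s => c * (s + 1) ^ k) →
    ∃ σ : Equiv.Perm (Fin n), ∀ v : Fin n,
      {u : Fin n | σ u < σ v ∧ ∃ p : G.Walk u v, p.length ≤ r ∧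
        ∀ w ∈ p.support, w ≠ u → w ≠ v → σ v < σ w}.ncard ≤ a * r ^ b := by
  obtain ⟨C, d, hfrag⟩ := exists_frag_of_sep c k
  let D : ℕ → ℕ := fun s => c * (s + 1) ^ k
  let ξ : ℕ → ℕ := fun r => 2 * D r + 1
  let q : ℕ → ℕ := fun r => ξ r * (ξ r * r + 1)
  let m' : ℕ → ℕ := fun r => 8 * (2 * (ξ r * r + 1))
  let m : ℕ → ℕ := fun r => m' r * q r * (1 + (r + 1) * (D r * (1 + r * q r ^ 2)))
  let K : ℕ → ℕ := fun r => C * m r ^ d
  have pc := PolyB.const
  have hD : PolyB D := (pc c).mul ((PolyB.id.add (pc 1)).pow k)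
  have hξ : PolyB ξ := ((pc 2).mul hD).add (pc 1)
  have hq : PolyB q := hξ.mul ((hξ.mul PolyB.id).add (pc 1))
  have hm' : PolyB m' := (pc 8).mul ((pc 2).mul ((hξ.mul PolyB.id).add (pc 1)))
  have hm : PolyB m := (hm'.mul hq).mul ((pc 1).add ((PolyB.id.add (pc 1)).mul
    (hD.mul ((pc 1).add (PolyB.id.mul (hq.pow 2))))))
  have hK : PolyB K := (pc C).mul (hm.pow d)
  obtain ⟨a, b, hab⟩ : PolyB (fun r => q r * m' r + (q r + K r)) :=
    (hq.mul hm').add (hq.add hK)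
  refine ⟨a, b, fun r hr n G hG => ?_⟩
  have hmono : Monotone (fun s => c * (s + 1) ^ k) := by
    intro s t hst
    exact Nat.mul_le_mul_left _ (Nat.pow_le_pow_left (by omega) _)
  have hq1 : 1 ≤ q r := Nat.mul_pos (Nat.succ_pos _) (Nat.succ_pos _)
  have hm1' : 1 ≤ m' r := by
    show 1 ≤ 8 * (2 * (ξ r * r + 1))
    omega
  have hm1 : 1 ≤ m r := Nat.mul_pos (Nat.mul_pos hm1' hq1) (by omega)
  obtain ⟨σ, hσ⟩ := exists_order_full n G hG r (ξ r) (q r) (m r) (m' r) (m' r) (K r) le_rfl le_rfl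
    le_rfl le_rfl Nat.lt_two_pow_self.le
    (fun W => hfrag (Fin n) G (sepProp_of_dens hG hmono) (m r) hm1 W)
  exact ⟨σ, fun v => (hσ v).trans (hab r hr)⟩

/-- Density of ordered pairs from the number of edges of shallow minors. -/
theorem dens_of_minors {n : ℕ} {G : SimpleGraph (Fin n)} {f : ℕ → ℕ}
    (h : ∀ (r m : ℕ) (H : SimpleGraph (Fin m)) (B : Fin m → Set (Fin n)),
        (∀ i j, i ≠ j → Disjoint (B i) (B j)) →
        (∀ i, ∃ x ∈ B i, ∀ y ∈ B i, ∃ p : G.Walk x y, p.length ≤ r ∧ ∀ w ∈ p.support, w ∈ B i) →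
        (∀ i j, H.Adj i j → ∃ a ∈ B i, ∃ b ∈ B j, G.Adj a b) →
        H.edgeSet.ncard ≤ f r * m) : Dens G (fun s => 2 * f s) := by
  classical
  intro s m B E h1 h2 h3
  let H : SimpleGraph (Fin m) :=
    { Adj := fun i j => i ≠ j ∧ ((i, j) ∈ E ∨ (j, i) ∈ E)
      symm := ⟨fun i j hij => ⟨hij.1.symm, hij.2.symm⟩⟩
      loopless := ⟨fun i hi => hi.1 rfl⟩ }
  have hH := h s m H B h1 h2 (by
    rintro i j ⟨-, hij | hij⟩
    · exact (h3 _ hij).2
    · obtain ⟨a, ha, b, hb, hab⟩ := (h3 _ hij).2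
      exact ⟨b, hb, a, ha, hab.symm⟩)
  have hsub : (↑(E.image (fun e => s(e.1, e.2))) : Set (Sym2 (Fin m))) ⊆ H.edgeSet := by
    intro z hz
    obtain ⟨e, he, rfl⟩ := Finset.mem_image.mp (Finset.mem_coe.mp hz)
    exact ⟨(h3 e he).1, Or.inl he⟩
  have hc1 : (E.image (fun e => s(e.1, e.2))).card ≤ H.edgeSet.ncard := by
    rw [← Set.ncard_coe_finset]
    exact Set.ncard_le_ncard hsub (Set.toFinite _)
  have hc2 : E.card ≤ 2 * (E.image (fun e => s(e.1, e.2))).card := by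
    apply Finset.card_le_mul_card_image
    intro z hz
    obtain ⟨e, he, rfl⟩ := Finset.mem_image.mp hz
    calc (E.filter (fun a => s(a.1, a.2) = s(e.1, e.2))).card
        ≤ ({(e.1, e.2), (e.2, e.1)} : Finset (Fin m × Fin m)).card := by
          apply Finset.card_le_card
          intro a ha
          have := (Finset.mem_filter.mp ha).2
          rw [Sym2.eq_iff] at this
          rw [Finset.mem_insert, Finset.mem_singleton]
          rcases this with ⟨h1, h2⟩ | ⟨h1, h2⟩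
          · exact Or.inl (Prod.ext h1 h2)
          · exact Or.inr (Prod.ext h1 h2)
      _ ≤ 2 := Finset.card_le_two
  show E.card ≤ 2 * f s * m
  calc E.card ≤ 2 * H.edgeSet.ncard := hc2.trans (Nat.mul_le_mul_left _ hc1)
    _ ≤ 2 * (f s * m) := Nat.mul_le_mul_left _ hH
    _ = 2 * f s * m := by ring

end P67
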