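import Mathlib
import Pool.Agent.Lib.P67f173.Final

set_option autoImplicit false

namespace P67

variable {V W : Type*}

theorem walk_to_path {G : SimpleGraph V} {x y : V} (p : G.Walk x y) (S : Set V) (r : ℕ)
    (h1 : p.length ≤ r) (h2 : ∀ w ∈ p.support, w ∈ S) :
    ∃ q : G.Walk x y, q.IsPath ∧ q.length ≤ r ∧ ∀ w ∈ q.support, w ∈ S := by
  classical
  exact ⟨p.bypass, p.bypass_isPath, p.length_bypass_le_length.trans h1,
    fun w hw => h2 w (p.support_bypass_subset_support hw)⟩

theorem poly_bound (p : Polynomial ℝ) : ∃ c k : ℕ, ∀ s : ℕ, p.eval (s : ℝ) ≤ c * ((s : ℝ) + 1) ^ k := by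
  obtain ⟨c, hc⟩ := exists_nat_ge (∑ i ∈ Finset.range (p.natDegree + 1), |p.coeff i|)
  refine ⟨c, p.natDegree, fun s => ?_⟩
  rw [Polynomial.eval_eq_sum_range]
  calc ∑ i ∈ Finset.range (p.natDegree + 1), p.coeff i * (s : ℝ) ^ i
      ≤ ∑ i ∈ Finset.range (p.natDegree + 1), |p.coeff i| * ((s : ℝ) + 1) ^ p.natDegree := by
        apply Finset.sum_le_sum
        intro i hi
        have hi' : i ≤ p.natDegree := by
          have := Finset.mem_range.1 hi
          omega
        have h0 : (0 : ℝ) ≤ s := Nat.cast_nonneg s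
        have h1 : (s : ℝ) ^ i ≤ ((s : ℝ) + 1) ^ p.natDegree :=
          (pow_le_pow_left₀ h0 (by linarith) i).trans (pow_le_pow_right₀ (by linarith) hi')
        calc p.coeff i * (s : ℝ) ^ i ≤ |p.coeff i| * (s : ℝ) ^ i :=
              mul_le_mul_of_nonneg_right (le_abs_self _) (by positivity)
          _ ≤ _ := mul_le_mul_of_nonneg_left h1 (abs_nonneg _)
    _ = (∑ i ∈ Finset.range (p.natDegree + 1), |p.coeff i|) * ((s : ℝ) + 1) ^ p.natDegree := by
        rw [Finset.sum_mul]
    _ ≤ _ := by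
        apply mul_le_mul_of_nonneg_right hc
        positivity

universe u

theorem main_poly (p : Polynomial ℝ) : ∃ c d : ℕ, 0 < c ∧ 0 < d ∧
    ∀ (V : Type u) [Finite V] (G : SimpleGraph V),
      (∀ (s m : ℕ) (H : SimpleGraph (Fin m)) (B : Fin m → Set V), 0 < m →
        (∀ i j, i ≠ j → Disjoint (B i) (B j)) →
        (∀ i, ∃ x ∈ B i, ∀ y ∈ B i, ∃ w : G.Walk x y, w.IsPath ∧ w.length ≤ s ∧
          ∀ z ∈ w.support, z ∈ B i) →
        (∀ i j, H.Adj i j → ∃ a ∈ B i, ∃ b ∈ B j, G.Adj a b) →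
        2 * (H.edgeSet.ncard : ℝ) / m ≤ p.eval (s : ℝ)) →
      ∀ r : ℕ, 1 ≤ r → ∃ σ : V → ℕ, Function.Injective σ ∧ ∀ v : V,
        {u : V | u = v ∨ (σ u < σ v ∧ ∃ w : G.Walk u v, w.IsPath ∧ w.length ≤ r ∧
          ∀ z ∈ w.support, z ≠ u → z ≠ v → σ v < σ z)}.ncard ≤ c * r ^ d := by
  classical
  obtain ⟨c, k, hck⟩ := poly_bound p
  obtain ⟨a, b, hab⟩ := exists_poly_order (2 * c) k
  refine ⟨a + 1, b + 1, Nat.succ_pos a, Nat.succ_pos b, ?_⟩
  intro V _ G hG r hr
  have : Fintype V := Fintype.ofFinite V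
  let e : V ≃ Fin (Fintype.card V) := Fintype.equivFin V
  let G' : SimpleGraph (Fin (Fintype.card V)) := G.comap e.symm
  let φ : G' →g G := ⟨e.symm, fun h => h⟩
  have hadj : ∀ a b : V, G.Adj a b → G'.Adj (e a) (e b) := by
    intro a b h
    show G.Adj (e.symm (e a)) (e.symm (e b))
    rwa [e.symm_apply_apply, e.symm_apply_apply]
  let ψ : G →g G' := ⟨e, fun {a b} h => hadj a b h⟩
  have hD : Dens G' (fun s => 2 * c * (s + 1) ^ k) := by
    have h1 := dens_of_minors (G := G') (f := fun s => c * (s + 1) ^ k) (by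
      intro s m H B h1 h2 h3
      rcases Nat.eq_zero_or_pos m with rfl | hm
      · have : H.edgeSet = ∅ := by
          ext z
          induction z with
          | _ x y => exact x.elim0
        rw [this]
        simp
      have h4 := hG s m H (fun i => {v | e v ∈ B i}) hm (by
        intro i j hij
        rw [Set.disjoint_left]
        intro x hx hx'
        exact Set.disjoint_left.1 (h1 i j hij) hx hx') (by
        intro i
        obtain ⟨x, hx, hx2⟩ := h2 i
        refine ⟨e.symm x, by simpa using hx, fun y hy => ?_⟩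
        obtain ⟨w, hw1, hw2⟩ := hx2 (e y) hy
        have h6 : φ (e y) = y := e.symm_apply_apply y
        obtain ⟨q, hq⟩ := walk_to_path ((w.map φ).copy rfl h6) {v | e v ∈ B i} s
          (by simpa using hw1) (by
          intro z hz
          simp only [SimpleGraph.Walk.support_copy, SimpleGraph.Walk.support_map,
            List.mem_map] at hz
          obtain ⟨z', hz', rfl⟩ := hz
          show e (e.symm z') ∈ B i
          rw [e.apply_symm_apply]
          exact hw2 z' hz')
        exact ⟨q, hq⟩) (by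
        intro i j hij
        obtain ⟨x, hx, y, hy, hxy⟩ := h3 i j hij
        exact ⟨e.symm x, by simpa using hx, e.symm y, by simpa using hy, hxy⟩)
      have hm' : (0 : ℝ) < m := by exact_mod_cast hm
      have h5 := h4.trans (hck s)
      rw [div_le_iff₀ hm'] at h5
      have h6 : (H.edgeSet.ncard : ℝ) ≤ (c : ℝ) * ((s : ℝ) + 1) ^ k * m := by
        have : (0 : ℝ) ≤ H.edgeSet.ncard := Nat.cast_nonneg _
        linarith
      exact_mod_cast h6)
    have h2 : (fun s : ℕ => 2 * (c * (s + 1) ^ k)) = fun s => 2 * c * (s + 1) ^ k := by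
      funext s
      ring
    rwa [h2] at h1
  obtain ⟨σ, hσ⟩ := hab r hr _ G' hD
  refine ⟨fun v => (σ (e v)).val, ?_, ?_⟩
  · intro x y hxy
    exact e.injective (σ.injective (Fin.ext hxy))
  · intro v
    have hsub : {u : V | u = v ∨ ((σ (e u)).val < (σ (e v)).val ∧ ∃ w : G.Walk u v, w.IsPath ∧
        w.length ≤ r ∧ ∀ z ∈ w.support, z ≠ u → z ≠ v → (σ (e v)).val < (σ (e z)).val)} ⊆
        insert v (e.symm '' {u | σ u < σ (e v) ∧ ∃ p : G'.Walk u (e v), p.length ≤ r ∧
          ∀ w ∈ p.support, w ≠ u → w ≠ e v → σ (e v) < σ w}) := by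
      rintro u (rfl | ⟨h1, w, -, h2, h3⟩)
      · exact Set.mem_insert _ _
      · refine Set.mem_insert_of_mem _ ⟨e u, ⟨h1, w.map ψ, by simpa using h2, ?_⟩,
          e.symm_apply_apply u⟩
        intro z hz hz1 hz2
        rw [SimpleGraph.Walk.support_map, List.mem_map] at hz
        obtain ⟨z', hz', rfl⟩ := hz
        exact h3 z' hz' (fun h => hz1 (by rw [h]; rfl)) (fun h => hz2 (by rw [h]; rfl))
    refine (Set.ncard_le_ncard hsub (Set.toFinite _)).trans ?_
    refine (Set.ncard_insert_le _ _).trans ?_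
    have h7 := (Set.ncard_image_le (f := e.symm) (Set.toFinite {u | σ u < σ (e v) ∧
      ∃ p : G'.Walk u (e v), p.length ≤ r ∧
          ∀ w ∈ p.support, w ≠ u → w ≠ e v → σ (e v) < σ w})).trans (hσ (e v))
    have h8 : 1 ≤ r ^ b := Nat.one_le_pow _ _ hr
    calc _ ≤ a * r ^ b + 1 := Nat.add_le_add_right h7 1
      _ ≤ (a + 1) * r ^ b := by nlinarith
      _ ≤ (a + 1) * r ^ (b + 1) := Nat.mul_le_mul_left _ (Nat.pow_le_pow_right hr (Nat.le_succ b))

end P67
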