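import Pool.Agent.Lib.P67f173.Closure

set_option autoImplicit false

/-!
Incremental closure: a closed set can be enlarged when new seeds arrive, with a total size which is
linear in the total number of seeds.
-/

namespace P67

variable {V : Type*} {G : SimpleGraph V}

open Classical in
/-- One step: a vertex which sees many pieces gives a new piece (the old pieces are kept). -/
theorem BSys.step' {r ξ : ℕ} (hξ : 1 ≤ ξ) {X : Finset V} {𝓑 : Finset (Finset V)}
    {E : Finset (Finset V × Finset V)} (h : BSys G r ξ X 𝓑 E) (u : V)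
    (hu : u ∉ 𝓑.biUnion id) (𝓢 : Finset (Finset V)) (hs : 𝓢 ⊆ 𝓑) (hc : 𝓢.card = ξ)
    (hsee : ∀ B ∈ 𝓢, ∃ x ∈ B, Sees G r (↑(𝓑.biUnion id) : Set V) u x) :
    ∃ 𝓑' E', BSys G r ξ X 𝓑' E' ∧ 𝓑'.card = 𝓑.card + 1 ∧ 𝓑 ⊆ 𝓑' := by
  -- choose the end vertices and paths
  have hsee' : ∀ B : Finset V, ∃ x : V, ∃ p : G.Walk u x, B ∈ 𝓢 → (x ∈ B ∧ p.IsPath ∧
      p.length ≤ r ∧ ∀ w ∈ p.support, w ∈ 𝓑.biUnion id → w = x) := by
    intro B
    by_cases hB : B ∈ 𝓢
    · obtain ⟨x, hx, -, p, hp, hpw⟩ := hsee B hB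
      refine ⟨x, p.toPath, fun _ => ⟨hx, p.toPath.2, ?_, ?_⟩⟩
      · exact (SimpleGraph.Walk.length_bypass_le_length p).trans hp
      · intro w hw hwX
        exact hpw w (SimpleGraph.Walk.support_toPath_subset_support p hw) (by simpa using hwX)
    · exact ⟨u, .nil, fun h => (hB h).elim⟩
  choose x p hp using hsee'
  let T : Finset V := 𝓢.biUnion (fun B => (p B).support.toFinset.erase (x B))
  have hTmem : ∀ y, y ∈ T ↔ ∃ B ∈ 𝓢, y ≠ x B ∧ y ∈ (p B).support := by
    intro y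
    simp [T]
  -- `T` avoids the old pieces
  have hTX : ∀ y ∈ T, y ∉ 𝓑.biUnion id := by
    intro y hy hyX
    obtain ⟨B, hB, hne, hys⟩ := (hTmem y).mp hy
    exact hne ((hp B hB).2.2.2 y hys hyX)
  have hxne : ∀ B ∈ 𝓢, u ≠ x B := by
    intro B hB he
    apply hu
    rw [he]
    exact Finset.mem_biUnion.mpr ⟨B, hs hB, (hp B hB).1⟩
  obtain ⟨B₀, hB₀⟩ : 𝓢.Nonempty := Finset.card_pos.mp (by omega)
  have huT : u ∈ T := (hTmem u).mpr ⟨B₀, hB₀, hxne B₀ hB₀, (p B₀).start_mem_support⟩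
  have hTn : T ∉ 𝓑 := by
    intro hT
    exact hTX u huT (Finset.mem_biUnion.mpr ⟨T, hT, huT⟩)
  have hTd : ∀ B ∈ 𝓑, Disjoint T B := by
    intro B hB
    rw [Finset.disjoint_left]
    intro y hy hyB
    exact hTX y hy (Finset.mem_biUnion.mpr ⟨B, hB, hyB⟩)
  refine ⟨insert T 𝓑, E ∪ 𝓢.image (fun B => (T, B)), ?_, Finset.card_insert_of_notMem hTn,
    Finset.subset_insert _ _⟩
  constructor
  · intro A hA B hB hne
    rcases Finset.mem_insert.mp hA with rfl | hA
    · rcases Finset.mem_insert.mp hB with rfl | hB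
      · exact (hne rfl).elim
      · exact hTd B hB
    · rcases Finset.mem_insert.mp hB with rfl | hB
      · exact (hTd A hA).symm
      · exact h.disj A hA B hB hne
  · intro A hA
    rcases Finset.mem_insert.mp hA with rfl | hA
    · refine ⟨u, by simpa using huT, fun y hy => ?_⟩
      obtain ⟨B, hB, hne, hys⟩ := (hTmem y).mp (by simpa using hy)
      refine ⟨(p B).takeUntil y hys, ?_, ?_⟩
      · exact (SimpleGraph.Walk.length_takeUntil_le_length _ hys).trans (hp B hB).2.2.1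
      · intro w hw
        have hw' : w ∈ (p B).support := SimpleGraph.Walk.support_takeUntil_subset_support _ hys hw
        have : w ≠ x B := by
          rintro rfl
          exact SimpleGraph.Walk.endpoint_notMem_support_takeUntil (hp B hB).2.1 hys
            (fun h => hne h.symm) hw
        simpa using (hTmem w).mpr ⟨B, hB, this, hw'⟩
    · exact h.blob A hA
  · intro A hA
    rcases Finset.mem_insert.mp hA with rfl | hA
    · have : T.card ≤ ∑ B ∈ 𝓢, ((p B).support.toFinset.erase (x B)).card :=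
        Finset.card_biUnion_le
      have h2 : ∀ B ∈ 𝓢, ((p B).support.toFinset.erase (x B)).card ≤ r := by
        intro B hB
        rw [Finset.card_erase_of_mem (by simp)]
        have h3 : (p B).support.toFinset.card ≤ (p B).support.length :=
          List.toFinset_card_le _
        rw [SimpleGraph.Walk.length_support] at h3
        have h4 := (hp B hB).2.2.1
        omega
      have h5 : ∑ B ∈ 𝓢, ((p B).support.toFinset.erase (x B)).card ≤ ∑ B ∈ 𝓢, r :=
        Finset.sum_le_sum h2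
      rw [Finset.sum_const, smul_eq_mul, hc] at h5
      omega
    · exact h.card A hA
  · intro e he
    rcases Finset.mem_union.mp he with he | he
    · obtain ⟨h1, h2, h3⟩ := h.adj e he
      exact ⟨Finset.mem_insert_of_mem h1, Finset.mem_insert_of_mem h2, h3⟩
    · obtain ⟨B, hB, rfl⟩ := Finset.mem_image.mp he
      refine ⟨Finset.mem_insert_self _ _, Finset.mem_insert_of_mem (hs hB), ?_, ?_⟩
      · intro heq
        have heq' : T = B := heq
        exact hTn (heq' ▸ hs hB)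
      · have hnn : ¬ (p B).Nil := SimpleGraph.Walk.not_nil_of_ne (hxne B hB)
        have hadj := (p B).adj_penultimate hnn
        refine ⟨(p B).penultimate, ?_, x B, (hp B hB).1, hadj⟩
        exact (hTmem _).mpr ⟨B, hB, hadj.ne,
          List.mem_of_mem_dropLast ((p B).penultimate_mem_dropLast_support hnn)⟩
  · have hE : (E ∪ 𝓢.image (fun B => (T, B))).card = E.card + ξ := by
      rw [Finset.card_union_of_disjoint, Finset.card_image_of_injective, hc]
      · intro A B hAB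
        exact (Prod.mk.inj hAB).2
      · rw [Finset.disjoint_left]
        intro e he he'
        obtain ⟨B, hB, rfl⟩ := Finset.mem_image.mp he'
        exact hTn (h.adj _ he).1
    rw [hE, Finset.card_insert_of_notMem hTn, Nat.mul_add]
    have := h.many
    omega
  · intro y hy
    obtain ⟨B, hB, hyB⟩ := h.sub y hy
    exact ⟨B, Finset.mem_insert_of_mem hB, hyB⟩

theorem BSys.pieces_le {D : ℕ → ℕ} (hD : Dens G D) {r ξ : ℕ} (hξ : 2 * D r + 1 ≤ ξ)
    {X : Finset V} {𝓑 : Finset (Finset V)} {E : Finset (Finset V × Finset V)}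
    (h : BSys G r ξ X 𝓑 E) : 𝓑.card ≤ 2 * X.card := by
  classical
  have h1 := hD.finset r 𝓑 E h.disj h.blob h.adj
  have h2 := h.many
  by_contra hlt
  push Not at hlt
  have h3 : 2 * (ξ * 𝓑.card) ≤ 2 * (D r * 𝓑.card) + 2 * (ξ * X.card) := by omega
  have h4 : 2 * (D r * 𝓑.card) < ξ * 𝓑.card ∨ 𝓑.card = 0 := by
    rcases Nat.eq_zero_or_pos 𝓑.card with h0 | h0
    · exact Or.inr h0
    · left
      calc 2 * (D r * 𝓑.card) = (2 * D r) * 𝓑.card := by ring
        _ < ξ * 𝓑.card := Nat.mul_lt_mul_of_pos_right (by omega) h0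
  have h5 : ξ * (2 * X.card) < ξ * 𝓑.card := Nat.mul_lt_mul_of_pos_left hlt (by omega)
  have h6 : ξ * (2 * X.card) = 2 * (ξ * X.card) := by ring
  rcases h4 with h4 | h4 <;> omega

open Classical in
theorem BSys.union_le {D : ℕ → ℕ} (hD : Dens G D) {r ξ : ℕ} (hξ : 2 * D r + 1 ≤ ξ)
    {X : Finset V} {𝓑 : Finset (Finset V)} {E : Finset (Finset V × Finset V)}
    (h : BSys G r ξ X 𝓑 E) : (𝓑.biUnion id).card ≤ 2 * (ξ * r + 1) * X.card := by
  calc (𝓑.biUnion id).card ≤ ∑ B ∈ 𝓑, (id B).card := Finset.card_biUnion_le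
    _ ≤ ∑ B ∈ 𝓑, (ξ * r + 1) := Finset.sum_le_sum (fun B hB => h.card B hB)
    _ = 𝓑.card * (ξ * r + 1) := by rw [Finset.sum_const, smul_eq_mul]
    _ ≤ (2 * X.card) * (ξ * r + 1) := Nat.mul_le_mul_right _ (h.pieces_le hD hξ)
    _ = 2 * (ξ * r + 1) * X.card := by ring

open Classical in
/-- add pieces until the union is closed -/
theorem BSys.close {D : ℕ → ℕ} (hD : Dens G D) {r ξ : ℕ} (hξ : 2 * D r + 1 ≤ ξ)
    {X : Finset V} {𝓑 : Finset (Finset V)} {E : Finset (Finset V × Finset V)}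
    (h : BSys G r ξ X 𝓑 E) : ∃ 𝓑' E', BSys G r ξ X 𝓑' E' ∧ 𝓑 ⊆ 𝓑' ∧ ∀ u ∉ 𝓑'.biUnion id,
      (𝓑'.filter (fun B => ∃ x ∈ B, Sees G r (↑(𝓑'.biUnion id) : Set V) u x)).card < ξ := by
  have hmax : ∀ N : ℕ, (∃ 𝓑' E', BSys G r ξ X 𝓑' E' ∧ 𝓑 ⊆ 𝓑' ∧ ∀ u ∉ 𝓑'.biUnion id,
      (𝓑'.filter (fun B => ∃ x ∈ B, Sees G r (↑(𝓑'.biUnion id) : Set V) u x)).card < ξ) ∨
      (∃ 𝓑' E', BSys G r ξ X 𝓑' E' ∧ 𝓑 ⊆ 𝓑' ∧ N ≤ 𝓑'.card) := by
    intro N
    induction N with
    | zero => exact Or.inr ⟨_, _, h, subset_rfl, Nat.zero_le _⟩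
    | succ N ih =>
      rcases ih with ih | ⟨𝓑₁, E₁, h₁, hsub, hN⟩
      · exact Or.inl ih
      · by_cases hcl : ∀ u ∉ 𝓑₁.biUnion id,
          (𝓑₁.filter (fun B => ∃ x ∈ B, Sees G r (↑(𝓑₁.biUnion id) : Set V) u x)).card < ξ
        · exact Or.inl ⟨𝓑₁, E₁, h₁, hsub, hcl⟩
        · push Not at hcl
          obtain ⟨u, hu, hle⟩ := hcl
          obtain ⟨𝓢, hs, hc⟩ := Finset.exists_subset_card_eq hle
          obtain ⟨𝓑₂, E₂, h₂, hc₂, hsub₂⟩ := h₁.step' (by omega) u hu 𝓢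
            (fun B hB => (Finset.mem_filter.mp (hs hB)).1) hc
            (fun B hB => (Finset.mem_filter.mp (hs hB)).2)
          exact Or.inr ⟨𝓑₂, E₂, h₂, hsub.trans hsub₂, by omega⟩
  rcases hmax (2 * X.card + 1) with h' | ⟨𝓑', E', h', -, hN⟩
  · exact h'
  · have := h'.pieces_le hD hξ
    omega

open Classical in
/-- add new seeds -/
theorem BSys.addSeeds {r ξ : ℕ} {X : Finset V} {𝓑 : Finset (Finset V)}
    {E : Finset (Finset V × Finset V)} (h : BSys G r ξ X 𝓑 E) (Z : Finset V) :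
    ∃ 𝓑', BSys G r ξ (X ∪ Z) 𝓑' E ∧ 𝓑 ⊆ 𝓑' := by
  set Z' : Finset V := Z \ 𝓑.biUnion id with hZ'
  have hXA : X ⊆ 𝓑.biUnion id := by
    intro x hx
    obtain ⟨B, hB, hxB⟩ := h.sub x hx
    exact Finset.mem_biUnion.mpr ⟨B, hB, hxB⟩
  have hZA : ∀ z ∈ Z', ∀ B ∈ 𝓑, z ∉ B := by
    intro z hz B hB hzB
    exact (Finset.mem_sdiff.mp hz).2 (Finset.mem_biUnion.mpr ⟨B, hB, hzB⟩)
  refine ⟨𝓑 ∪ Z'.image (fun x => ({x} : Finset V)), ?_, Finset.subset_union_left⟩
  have hmem : ∀ A, A ∈ 𝓑 ∪ Z'.image (fun x => ({x} : Finset V)) ↔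
      A ∈ 𝓑 ∨ ∃ z ∈ Z', A = {z} := by
    intro A
    rw [Finset.mem_union, Finset.mem_image]
    constructor
    · rintro (h | ⟨z, hz, rfl⟩)
      · exact Or.inl h
      · exact Or.inr ⟨z, hz, rfl⟩
    · rintro (h | ⟨z, hz, rfl⟩)
      · exact Or.inl h
      · exact Or.inr ⟨z, hz, rfl⟩
  constructor
  · intro A hA B hB hne
    rcases (hmem A).mp hA with hA | ⟨a, ha, rfl⟩
    · rcases (hmem B).mp hB with hB | ⟨b, hb, rfl⟩
      · exact h.disj A hA B hB hne
      · exact Finset.disjoint_singleton_right.mpr (hZA b hb A hA)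
    · rcases (hmem B).mp hB with hB | ⟨b, hb, rfl⟩
      · exact Finset.disjoint_singleton_left.mpr (hZA a ha B hB)
      · rw [Finset.disjoint_singleton]
        rintro rfl
        exact hne rfl
  · intro A hA
    rcases (hmem A).mp hA with hA | ⟨a, ha, rfl⟩
    · exact h.blob A hA
    · refine ⟨a, by simp, fun y hy => ?_⟩
      have : y = a := by simpa using hy
      subst this
      exact ⟨.nil, by simp, by simp⟩
  · intro A hA
    rcases (hmem A).mp hA with hA | ⟨a, ha, rfl⟩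
    · exact h.card A hA
    · simp
  · intro e he
    obtain ⟨h1, h2, h3⟩ := h.adj e he
    exact ⟨Finset.mem_union_left _ h1, Finset.mem_union_left _ h2, h3⟩
  · have h1 : (𝓑 ∪ Z'.image (fun x => ({x} : Finset V))).card ≤ 𝓑.card + Z'.card :=
      (Finset.card_union_le _ _).trans (Nat.add_le_add_left Finset.card_image_le _)
    have h2 : X.card + Z'.card ≤ (X ∪ Z).card := by
      rw [← Finset.card_union_of_disjoint]
      · apply Finset.card_le_card
        exact Finset.union_subset Finset.subset_union_left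
          (Finset.sdiff_subset.trans Finset.subset_union_right)
      · rw [Finset.disjoint_left]
        intro x hx hx'
        exact (Finset.mem_sdiff.mp hx').2 (hXA hx)
    have h3 := h.many
    calc ξ * (𝓑 ∪ Z'.image (fun x => ({x} : Finset V))).card ≤ ξ * (𝓑.card + Z'.card) :=
          Nat.mul_le_mul_left _ h1
      _ = ξ * 𝓑.card + ξ * Z'.card := by ring
      _ ≤ (E.card + ξ * X.card) + ξ * Z'.card := Nat.add_le_add_right h3 _
      _ = E.card + ξ * (X.card + Z'.card) := by ring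
      _ ≤ E.card + ξ * (X ∪ Z).card := Nat.add_le_add_left (Nat.mul_le_mul_left _ h2) _
  · intro x hx
    by_cases hxA : x ∈ 𝓑.biUnion id
    · obtain ⟨B, hB, hxB⟩ := Finset.mem_biUnion.mp hxA
      exact ⟨B, Finset.mem_union_left _ hB, hxB⟩
    · have hxZ : x ∈ Z := by
        rcases Finset.mem_union.mp hx with h' | h'
        · exact absurd (hXA h') hxA
        · exact h'
      exact ⟨{x}, Finset.mem_union_right _ (Finset.mem_image.mpr
        ⟨x, Finset.mem_sdiff.mpr ⟨hxZ, hxA⟩, rfl⟩), by simp⟩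

open Classical in
/-- the closed condition for pieces gives closedness for vertices -/
theorem BSys.sees_le [Finite V] {r ξ : ℕ} (hξ : 1 ≤ ξ)
    {X : Finset V} {𝓑 : Finset (Finset V)} {E : Finset (Finset V × Finset V)}
    (h : BSys G r ξ X 𝓑 E) (hcl : ∀ u ∉ 𝓑.biUnion id,
      (𝓑.filter (fun B => ∃ x ∈ B, Sees G r (↑(𝓑.biUnion id) : Set V) u x)).card < ξ) (u : V) :
    {x | Sees G r (↑(𝓑.biUnion id) : Set V) u x}.ncard ≤ ξ * (ξ * r + 1) := by
  by_cases hu : u ∈ 𝓑.biUnion id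
  · have hsub : {x | Sees G r (↑(𝓑.biUnion id) : Set V) u x} ⊆ {u} := by
      rintro x ⟨-, p, -, hp⟩
      exact (hp u p.start_mem_support (by simpa using hu)).symm
    calc _ ≤ ({u} : Set V).ncard := Set.ncard_le_ncard hsub (Set.finite_singleton u)
      _ = 1 := Set.ncard_singleton u
      _ ≤ 1 * 1 := by norm_num
      _ ≤ ξ * (ξ * r + 1) := Nat.mul_le_mul (by omega) (by omega)
  · let 𝓢 := 𝓑.filter (fun B => ∃ x ∈ B, Sees G r (↑(𝓑.biUnion id) : Set V) u x)
    have hsub : {x | Sees G r (↑(𝓑.biUnion id) : Set V) u x} ⊆ (↑(𝓢.biUnion id) : Set V) := by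
      intro x hx
      have hx0 : x ∈ 𝓑.biUnion id := by simpa using hx.1
      obtain ⟨B, hB, hxB⟩ := Finset.mem_biUnion.mp hx0
      exact Finset.mem_coe.mpr (Finset.mem_biUnion.mpr
        ⟨B, Finset.mem_filter.mpr ⟨hB, x, hxB, hx⟩, hxB⟩)
    calc _ ≤ (↑(𝓢.biUnion id) : Set V).ncard := Set.ncard_le_ncard hsub (Finset.finite_toSet _)
      _ = (𝓢.biUnion id).card := Set.ncard_coe_finset _
      _ ≤ ∑ B ∈ 𝓢, (id B).card := Finset.card_biUnion_le
      _ ≤ ∑ B ∈ 𝓢, (ξ * r + 1) :=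
        Finset.sum_le_sum (fun B hB => h.card B (Finset.mem_filter.mp hB).1)
      _ = 𝓢.card * (ξ * r + 1) := by rw [Finset.sum_const, smul_eq_mul]
      _ ≤ ξ * (ξ * r + 1) := Nat.mul_le_mul_right _ (hcl u hu).le

end P67
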