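import Pool.Agent.Lib.P67f173.IncClosure
import Pool.Agent.Lib.P67f173.BatchSep

set_option autoImplicit false

/-!
Levels of closed sets with retroactive additions, and the vertex order obtained from them.
-/

namespace P67

variable {V : Type*} {G : SimpleGraph V}

open Classical in
/-- One level: a closed set `A` (closure of the seeds `X`), a separator `S` inside `A`, and entering
times `g`, such that every vertex of `A \ S` sees few vertices of `A` which entered not later. -/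
structure Lvl (G : SimpleGraph V) (r ξ q m' K : ℕ) (X A S : Finset V) (g : V → ℕ) : Prop where
  sys : ∃ 𝓑 E, BSys G r ξ X 𝓑 E ∧ A = 𝓑.biUnion id
  closed : ∀ u, {x | Sees G r (A : Set V) u x}.ncard ≤ q
  subS : S ⊆ A
  cardS : m' * S.card ≤ A.card
  load : ∀ v ∈ A, v ∉ S → {u | u ∈ A ∧ g u ≤ g v ∧ ∃ p : G.Walk v u, p.length ≤ r ∧
    ∀ w ∈ p.support, w ∉ S ∧ (w ∈ A → w = u ∨ g v ≤ g w)}.ncard ≤ q + K

theorem Lvl.empty (r ξ q m' K : ℕ) : Lvl G r ξ q m' K ∅ ∅ ∅ (fun _ => 0) where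
  sys := by
    classical
    refine ⟨∅, ∅, ?_, by simp⟩
    exact ⟨by simp, by simp, by simp, by simp, by simp, by simp⟩
  closed := by
    intro u
    have : {x | Sees G r ((∅ : Finset V) : Set V) u x} = ∅ := by
      ext x
      simp [Sees]
    rw [this]
    simp
  subS := by simp
  cardS := by simp
  load := by simp

open Classical in
/-- Adding seeds to a level. -/
theorem Lvl.extend [Fintype V] {D : ℕ → ℕ} (hD : Dens G D) {r ξ q m m' K : ℕ}
    (hξ : 2 * D r + 1 ≤ ξ) (hq : ξ * (ξ * r + 1) ≤ q)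
    (hm : m' * q * (1 + (r + 1) * (D r * (1 + r * q ^ 2))) ≤ m)
    (hfrag : ∀ W : Finset V, ∃ Y : Finset V, Y ⊆ W ∧ m * Y.card ≤ W.card ∧
      Small G ((W : Set V) \ (Y : Set V)) K)
    {X A S : Finset V} {g : V → ℕ} (h : Lvl G r ξ q m' K X A S g) (Z : Finset V) :
    ∃ (A' S' : Finset V) (g' : V → ℕ), Lvl G r ξ q m' K (X ∪ Z) A' S' g' ∧ A ⊆ A' ∧ S ⊆ S' ∧
      X ∪ Z ⊆ A' := by
  obtain ⟨𝓑, E, hB, hA⟩ := h.sys
  obtain ⟨𝓑₁, hB₁, hsub₁⟩ := hB.addSeeds Z
  obtain ⟨𝓑₂, E₂, hB₂, hsub₂, hcl⟩ := hB₁.close hD hξ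
  set A' : Finset V := 𝓑₂.biUnion id with hA'
  have hAA' : A ⊆ A' := by
    rw [hA]
    exact Finset.biUnion_subset_biUnion_of_subset_left _ (hsub₁.trans hsub₂)
  have hclosed : ∀ u, {x | Sees G r (A' : Set V) u x}.ncard ≤ q :=
    fun u => (hB₂.sees_le (by omega) hcl u).trans hq
  obtain ⟨SN, hS1, hS2, hS3⟩ := exists_batch_sep hD r q m m' K hm hfrag A A' hclosed
  set T : ℕ := A.sup g + 1 with hT
  have hgT : ∀ w ∈ A, g w < T := fun w hw => Nat.lt_succ_of_le (Finset.le_sup hw)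
  set g' : V → ℕ := fun v => if v ∈ A then g v else T with hg'
  have hg1 : ∀ w, w ∈ A → g' w = g w := fun w hw => by simp [hg', hw]
  have hg2 : ∀ w, w ∉ A → g' w = T := fun w hw => by simp [hg', hw]
  refine ⟨A', S ∪ SN, g', ⟨⟨𝓑₂, E₂, hB₂, rfl⟩, hclosed, ?_, ?_, ?_⟩, hAA',
    Finset.subset_union_left, ?_⟩
  · exact Finset.union_subset (h.subS.trans hAA') (hS1.trans Finset.sdiff_subset)
  · have h1 : (A' \ A).card + A.card = A'.card := Finset.card_sdiff_add_card_eq_card hAA'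
    have h2 := h.cardS
    calc m' * (S ∪ SN).card ≤ m' * (S.card + SN.card) :=
          Nat.mul_le_mul_left _ (Finset.card_union_le _ _)
      _ = m' * S.card + m' * SN.card := by ring
      _ ≤ A'.card := by omega
  · intro v hv hvS
    rw [Finset.mem_union, not_or] at hvS
    by_cases hvA : v ∈ A
    · refine le_trans (Set.ncard_le_ncard ?_ (Set.toFinite _)) (h.load v hvA hvS.1)
      rintro u ⟨hu, hgu, p, hp, hpw⟩
      have huA : u ∈ A := by
        by_contra huA
        rw [hg1 v hvA, hg2 u huA] at hgu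
        have := hgT v hvA
        omega
      refine ⟨huA, ?_, p, hp, fun w hw => ?_⟩
      · rwa [hg1 v hvA, hg1 u huA] at hgu
      · obtain ⟨h1, h2⟩ := hpw w hw
        rw [Finset.mem_union, not_or] at h1
        refine ⟨h1.1, fun hwA => ?_⟩
        rcases h2 (hAA' hwA) with h3 | h3
        · exact Or.inl h3
        · rw [hg1 v hvA, hg1 w hwA] at h3
          exact Or.inr h3
    · have hvN : v ∈ A' \ A := Finset.mem_sdiff.mpr ⟨hv, hvA⟩
      have hsub : {u | u ∈ A' ∧ g' u ≤ g' v ∧ ∃ p : G.Walk v u, p.length ≤ r ∧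
          ∀ w ∈ p.support, w ∉ S ∪ SN ∧ (w ∈ A' → w = u ∨ g' v ≤ g' w)} ⊆
          {x | Sees G r (A : Set V) v x} ∪ {b | b ∈ A' \ A ∧ ∃ p : G.Walk v b, p.length ≤ r ∧
            ∀ w ∈ p.support, w ∉ A ∧ w ∉ SN} := by
        rintro u ⟨hu, hgu, p, hp, hpw⟩
        have key : ∀ w ∈ p.support, w ∈ A → w = u := by
          intro w hw hwA
          rcases (hpw w hw).2 (hAA' hwA) with h3 | h3
          · exact h3
          · rw [hg2 v hvA, hg1 w hwA] at h3
            have := hgT w hwA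
            omega
        by_cases huA : u ∈ A
        · left
          exact ⟨Finset.mem_coe.mpr huA, p, hp, fun w hw hwA => key w hw (Finset.mem_coe.mp hwA)⟩
        · right
          refine ⟨Finset.mem_sdiff.mpr ⟨hu, huA⟩, p, hp, fun w hw => ⟨fun hwA => ?_, ?_⟩⟩
          · exact huA (key w hw hwA ▸ hwA)
          · have := (hpw w hw).1
            rw [Finset.mem_union, not_or] at this
            exact this.2
      refine (Set.ncard_le_ncard hsub (Set.toFinite _)).trans ((Set.ncard_union_le _ _).trans ?_)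
      exact Nat.add_le_add (h.closed v) (hS3 v hvN hvS.2)
  · intro x hx
    obtain ⟨B, hB', hxB⟩ := hB₂.sub x hx
    exact Finset.mem_biUnion.mpr ⟨B, hB', hxB⟩

open Classical in
theorem Lvl.card_le {D : ℕ → ℕ} (hD : Dens G D) {r ξ q m' K : ℕ}
    (hξ : 2 * D r + 1 ≤ ξ) {X A S : Finset V} {g : V → ℕ} (h : Lvl G r ξ q m' K X A S g) :
    A.card ≤ 2 * (ξ * r + 1) * X.card := by
  obtain ⟨𝓑, E, hB, hA⟩ := h.sys
  rw [hA]
  exact hB.union_le hD hξ

/-- A system of levels. -/
structure Sys [Fintype V] (G : SimpleGraph V) (r ξ q m' K q' L : ℕ) (X A S : ℕ → Finset V)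
    (g : ℕ → V → ℕ) : Prop where
  lvl : ∀ J, Lvl G r ξ q m' K (X J) (A J) (S J) (g J)
  zero : A 0 = Finset.univ
  supp : ∀ J, L ≤ J → A J = ∅
  seeds : ∀ J, ∀ x ∈ X (J + 1), x ∈ S J ∨ ∃ i, J + 1 + q' ≤ i ∧ x ∈ A i

theorem sum_geom_le (b : ℕ → ℕ) (M : ℕ) (h : ∀ k, 2 ^ k * b k ≤ M) (N : ℕ) :
    ∑ k ∈ Finset.range N, b k ≤ 2 * M := by
  have key : 2 ^ N * ∑ k ∈ Finset.range N, b k + 2 * M ≤ 2 ^ (N + 1) * M := by
    induction N with
    | zero => simp
    | succ N ih =>
      rw [Finset.sum_range_succ]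
      have h1 := h N
      calc 2 ^ (N + 1) * (∑ k ∈ Finset.range N, b k + b N) + 2 * M
          = 2 * (2 ^ N * ∑ k ∈ Finset.range N, b k + 2 * M) + 2 * (2 ^ N * b N) - 2 * M := by
            rw [eq_comm, Nat.sub_eq_iff_eq_add (by omega)]
            ring
        _ ≤ 2 * (2 ^ (N + 1) * M) + 2 * M - 2 * M := by omega
        _ = 2 ^ (N + 1 + 1) * M := by
            rw [Nat.add_sub_cancel]
            ring
  have h2 : 2 ^ N * ∑ k ∈ Finset.range N, b k ≤ 2 ^ N * (2 * M) := by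
    calc 2 ^ N * ∑ k ∈ Finset.range N, b k ≤ 2 ^ (N + 1) * M := by omega
      _ = 2 ^ N * (2 * M) := by ring
  exact Nat.le_of_mul_le_mul_left h2 (Nat.pow_pos (by norm_num))

open Classical in
/-- the levels decrease geometrically -/
theorem Sys.pow_card_le [Fintype V] {D : ℕ → ℕ} (hD : Dens G D) {r ξ q m' K q' L : ℕ}
    (hξ : 2 * D r + 1 ≤ ξ) (hm' : 8 * (2 * (ξ * r + 1)) ≤ m')
    (hq' : 8 * (2 * (ξ * r + 1)) ≤ 2 ^ q')
    {X A S : ℕ → Finset V} {g : ℕ → V → ℕ} (h : Sys G r ξ q m' K q' L X A S g) (hL : 0 < L) :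
    ∀ J, 2 ^ J * (A J).card ≤ Fintype.card V := by
  obtain ⟨J₀, hJ₀, hmax⟩ := Finset.exists_max_image (Finset.range L)
    (fun J => 2 ^ J * (A J).card) ⟨0, Finset.mem_range.mpr hL⟩
  set M : ℕ := 2 ^ J₀ * (A J₀).card with hM
  have hle : ∀ J, 2 ^ J * (A J).card ≤ M := by
    intro J
    rcases lt_or_ge J L with hJ | hJ
    · exact hmax J (Finset.mem_range.mpr hJ)
    · rw [h.supp J hJ]
      simp
  suffices hMn : M ≤ Fintype.card V from fun J => (hle J).trans hMn
  rcases Nat.eq_zero_or_pos J₀ with h0 | hpos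
  · rw [hM, h0, h.zero]
    simp
  obtain ⟨J, rfl⟩ : ∃ J, J₀ = J + 1 := ⟨J₀ - 1, by omega⟩
  rcases Nat.eq_zero_or_pos M with hM0 | hMpos
  · omega
  exfalso
  set c₁ : ℕ := 2 * (ξ * r + 1) with hc₁
  -- number of seeds
  have hX : (X (J + 1)).card ≤ (S J).card + ∑ k ∈ Finset.range L, (A (J + 1 + q' + k)).card := by
    have hsub : X (J + 1) ⊆ S J ∪ (Finset.range L).biUnion (fun k => A (J + 1 + q' + k)) := by
      intro x hx
      rcases h.seeds J x hx with h1 | ⟨i, hi, h1⟩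
      · exact Finset.mem_union_left _ h1
      · apply Finset.mem_union_right
        have hiL : i < L := by
          by_contra hiL
          rw [h.supp i (by omega)] at h1
          simp at h1
        refine Finset.mem_biUnion.mpr ⟨i - (J + 1 + q'), Finset.mem_range.mpr (by omega), ?_⟩
        rwa [show J + 1 + q' + (i - (J + 1 + q')) = i by omega]
    refine (Finset.card_le_card hsub).trans ((Finset.card_union_le _ _).trans ?_)
    exact Nat.add_le_add_left Finset.card_biUnion_le _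
  have hsum : ∑ k ∈ Finset.range L, 2 ^ (J + 1 + q') * (A (J + 1 + q' + k)).card ≤ 2 * M := by
    apply sum_geom_le
    intro k
    calc 2 ^ k * (2 ^ (J + 1 + q') * (A (J + 1 + q' + k)).card)
        = 2 ^ (J + 1 + q' + k) * (A (J + 1 + q' + k)).card := by rw [pow_add _ (J + 1 + q') k]; ring
      _ ≤ M := hle _
  rw [← Finset.mul_sum] at hsum
  set sg : ℕ := ∑ k ∈ Finset.range L, (A (J + 1 + q' + k)).card with hsg
  have hA := (h.lvl (J + 1)).card_le hD hξ
  have hS := (h.lvl J).cardS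
  have hJM := hle J
  have key : m' * 2 ^ q' * M ≤ (2 * c₁ * 2 ^ q' + 2 * c₁ * m') * M := by
    calc m' * 2 ^ q' * M = m' * 2 ^ q' * 2 ^ (J + 1) * (A (J + 1)).card := by rw [hM]; ring
      _ ≤ m' * 2 ^ q' * 2 ^ (J + 1) * (c₁ * (X (J + 1)).card) := Nat.mul_le_mul_left _ hA
      _ ≤ m' * 2 ^ q' * 2 ^ (J + 1) * (c₁ * ((S J).card + sg)) :=
          Nat.mul_le_mul_left _ (Nat.mul_le_mul_left _ hX)
      _ = c₁ * 2 ^ q' * 2 ^ (J + 1) * (m' * (S J).card) +
          c₁ * m' * (2 ^ (J + 1 + q') * sg) := by rw [pow_add _ (J + 1) q']; ring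
      _ ≤ c₁ * 2 ^ q' * 2 ^ (J + 1) * (A J).card + c₁ * m' * (2 * M) :=
          Nat.add_le_add (Nat.mul_le_mul_left _ hS) (Nat.mul_le_mul_left _ hsum)
      _ = 2 * c₁ * 2 ^ q' * (2 ^ J * (A J).card) + 2 * c₁ * m' * M := by ring
      _ ≤ 2 * c₁ * 2 ^ q' * M + 2 * c₁ * m' * M :=
          Nat.add_le_add_right (Nat.mul_le_mul_left _ hJM) _
      _ = (2 * c₁ * 2 ^ q' + 2 * c₁ * m') * M := by ring
  have key2 : m' * 2 ^ q' ≤ 2 * c₁ * 2 ^ q' + 2 * c₁ * m' := Nat.le_of_mul_le_mul_right key hMpos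
  have h1 : 8 * c₁ * 2 ^ q' ≤ m' * 2 ^ q' := Nat.mul_le_mul_right _ hm'
  have h2 : 8 * c₁ * m' ≤ 2 ^ q' * m' := Nat.mul_le_mul_right _ hq'
  have h3 : 0 < m' * 2 ^ q' := Nat.mul_pos (by omega) (Nat.pow_pos (by norm_num))
  have h4 : 2 ^ q' * m' = m' * 2 ^ q' := Nat.mul_comm _ _
  have h5 : 8 * c₁ * 2 ^ q' = 4 * (2 * c₁ * 2 ^ q') := by ring
  have h6 : 8 * c₁ * m' = 4 * (2 * c₁ * m') := by ring
  omega

open Classical in
/-- enlarge one level -/
theorem Sys.extend [Fintype V] {D : ℕ → ℕ} (hD : Dens G D) {r ξ q m m' K q' L : ℕ}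
    (hξ : 2 * D r + 1 ≤ ξ) (hq : ξ * (ξ * r + 1) ≤ q)
    (hm : m' * q * (1 + (r + 1) * (D r * (1 + r * q ^ 2))) ≤ m)
    (hfrag : ∀ W : Finset V, ∃ Y : Finset V, Y ⊆ W ∧ m * Y.card ≤ W.card ∧
      Small G ((W : Set V) \ (Y : Set V)) K)
    {X A S : ℕ → Finset V} {g : ℕ → V → ℕ} (h : Sys G r ξ q m' K q' L X A S g)
    (J : ℕ) (hJ : J + 1 < L) (x : V) (hx : x ∈ S J ∨ ∃ i, J + 1 + q' ≤ i ∧ x ∈ A i)
    (hxA : x ∉ A (J + 1)) :
    ∃ X' A' S' g', Sys G r ξ q m' K q' L X' A' S' g' ∧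
      ∑ J ∈ Finset.range L, (A J).card < ∑ J ∈ Finset.range L, (A' J).card := by
  obtain ⟨A₁, S₁, g₁, h₁, hAA, hSS, hXA⟩ := (h.lvl (J + 1)).extend hD hξ hq hm hfrag {x}
  have hxA₁ : x ∈ A₁ := hXA (Finset.mem_union_right _ (Finset.mem_singleton_self x))
  have hA' : ∀ i, A i ⊆ Function.update A (J + 1) A₁ i := by
    intro i
    by_cases hi : i = J + 1
    · subst hi
      rw [Function.update_self]
      exact hAA
    · rw [Function.update_of_ne hi]
  have hS' : ∀ i, S i ⊆ Function.update S (J + 1) S₁ i := by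
    intro i
    by_cases hi : i = J + 1
    · subst hi
      rw [Function.update_self]
      exact hSS
    · rw [Function.update_of_ne hi]
  refine ⟨Function.update X (J + 1) (X (J + 1) ∪ {x}), Function.update A (J + 1) A₁,
    Function.update S (J + 1) S₁, Function.update g (J + 1) g₁, ⟨?_, ?_, ?_, ?_⟩, ?_⟩
  · intro i
    by_cases hi : i = J + 1
    · subst hi
      simp only [Function.update_self]
      exact h₁
    · simp only [Function.update_of_ne hi]
      exact h.lvl i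
  · rw [Function.update_of_ne (by omega)]
    exact h.zero
  · intro i hi
    rw [Function.update_of_ne (by omega)]
    exact h.supp i hi
  · intro i y hy
    have hmono : (y ∈ S i ∨ ∃ k, i + 1 + q' ≤ k ∧ y ∈ A k) →
        (y ∈ Function.update S (J + 1) S₁ i ∨
          ∃ k, i + 1 + q' ≤ k ∧ y ∈ Function.update A (J + 1) A₁ k) := by
      rintro (h1 | ⟨k, hk, h1⟩)
      · exact Or.inl (hS' i h1)
      · exact Or.inr ⟨k, hk, hA' k h1⟩
    apply hmono
    by_cases hi : i = J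
    · subst hi
      rw [Function.update_self] at hy
      rcases Finset.mem_union.mp hy with hy | hy
      · exact h.seeds i y hy
      · rw [Finset.mem_singleton.mp hy]
        exact hx
    · rw [Function.update_of_ne (by omega)] at hy
      exact h.seeds i y hy
  · apply Finset.sum_lt_sum
    · intro i _
      exact Finset.card_le_card (hA' i)
    · refine ⟨J + 1, Finset.mem_range.mpr hJ, ?_⟩
      rw [Function.update_self]
      exact Finset.card_lt_card ((Finset.ssubset_iff_of_subset hAA).mpr ⟨x, hxA₁, hxA⟩)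

open Classical in
/-- A stable system of levels. -/
theorem exists_stable [Fintype V] {D : ℕ → ℕ} (hD : Dens G D) {r ξ q m m' K q' L : ℕ}
    (hξ : 2 * D r + 1 ≤ ξ) (hq : ξ * (ξ * r + 1) ≤ q)
    (hm : m' * q * (1 + (r + 1) * (D r * (1 + r * q ^ 2))) ≤ m)
    (hfrag : ∀ W : Finset V, ∃ Y : Finset V, Y ⊆ W ∧ m * Y.card ≤ W.card ∧
      Small G ((W : Set V) \ (Y : Set V)) K)
    (hm' : 8 * (2 * (ξ * r + 1)) ≤ m') (hq' : 8 * (2 * (ξ * r + 1)) ≤ 2 ^ q')
    (hL0 : 0 < L) (hL : Fintype.card V < 2 ^ (L - 1)) :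
    ∃ X A S g, Sys G r ξ q m' K q' L X A S g ∧ (∀ J, S J ⊆ A (J + 1)) ∧
      ∀ J i, J + q' ≤ i → A i ⊆ A J := by
  have hmain : ∀ N : ℕ, (∃ X A S g, Sys G r ξ q m' K q' L X A S g ∧ (∀ J, S J ⊆ A (J + 1)) ∧
      ∀ J i, J + q' ≤ i → A i ⊆ A J) ∨
      ∃ X A S g, Sys G r ξ q m' K q' L X A S g ∧ N ≤ ∑ J ∈ Finset.range L, (A J).card := by
    intro N
    induction N with
    | zero =>
      right
      obtain ⟨A₀, S₀, g₀, h₀, -, -, hX₀⟩ :=
        (Lvl.empty (G := G) r ξ q m' K).extend hD hξ hq hm hfrag Finset.univ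
      refine ⟨fun J => if J = 0 then ∅ ∪ Finset.univ else ∅, fun J => if J = 0 then A₀ else ∅,
        fun J => if J = 0 then S₀ else ∅, fun J => if J = 0 then g₀ else fun _ => 0, ?_,
        Nat.zero_le _⟩
      refine ⟨?_, ?_, ?_, ?_⟩
      · intro J
        by_cases hJ : J = 0
        · simp only [hJ, if_true]
          exact h₀
        · simp only [hJ, if_false]
          exact Lvl.empty r ξ q m' K
      · simp only [if_true]
        rw [← Finset.univ_subset_iff]
        exact Finset.subset_union_right.trans hX₀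
      · intro J hJ
        simp only [show J ≠ 0 by omega, if_false]
      · intro J x hx
        simp at hx
    | succ N ih =>
      rcases ih with ih | ⟨X, A, S, g, h, hN⟩
      · exact Or.inl ih
      · by_cases hgood : (∀ J, S J ⊆ A (J + 1)) ∧ ∀ J i, J + q' ≤ i → A i ⊆ A J
        · exact Or.inl ⟨X, A, S, g, h, hgood⟩
        · right
          obtain ⟨J, hJ, x, hx, hxA⟩ : ∃ J, J + 1 < L ∧ ∃ x,
              (x ∈ S J ∨ ∃ i, J + 1 + q' ≤ i ∧ x ∈ A i) ∧ x ∉ A (J + 1) := by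
            rw [not_and_or] at hgood
            rcases hgood with hg | hg
            · push Not at hg
              obtain ⟨J, hJ⟩ := hg
              obtain ⟨x, hx, hxA⟩ := Finset.not_subset.mp hJ
              refine ⟨J, ?_, x, Or.inl hx, hxA⟩
              by_contra hJL
              have hxJ : x ∈ A J := (h.lvl J).subS hx
              have h1 : 0 < (A J).card := Finset.card_pos.mpr ⟨x, hxJ⟩
              have h2 := h.pow_card_le hD hξ hm' hq' hL0 J
              have h3 : 2 ^ (L - 1) ≤ 2 ^ J := Nat.pow_le_pow_right (by norm_num) (by omega)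
              have h4 : 2 ^ J * 1 ≤ 2 ^ J * (A J).card := Nat.mul_le_mul_left _ h1
              omega
            · push Not at hg
              obtain ⟨J, i, hi, hJ⟩ := hg
              obtain ⟨x, hx, hxA⟩ := Finset.not_subset.mp hJ
              have hJ0 : J ≠ 0 := by
                rintro rfl
                rw [h.zero] at hxA
                exact hxA (Finset.mem_univ x)
              obtain ⟨J', rfl⟩ : ∃ J', J = J' + 1 := ⟨J - 1, by omega⟩
              refine ⟨J', ?_, x, Or.inr ⟨i, by omega, hx⟩, hxA⟩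
              by_contra hJL
              rw [h.supp i (by omega)] at hx
              simp at hx
          obtain ⟨X', A', S', g', h', hlt⟩ := h.extend hD hξ hq hm hfrag J hJ x hx hxA
          exact ⟨X', A', S', g', h', by omega⟩
  rcases hmain (L * Fintype.card V + 1) with h | ⟨X, A, S, g, h, hN⟩
  · exact h
  · exfalso
    have h1 : ∑ J ∈ Finset.range L, (A J).card ≤ ∑ J ∈ Finset.range L, Fintype.card V :=
      Finset.sum_le_sum (fun J _ => Finset.card_le_univ _)
    rw [Finset.sum_const, Finset.card_range, smul_eq_mul] at h1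
    omega

end P67
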