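import Pool.Agent.Lib.P67f173.Levels

set_option autoImplicit false

/-!
The vertex order obtained from a stable system of levels.
-/

namespace P67

open Classical in
/-- The order obtained from a stable system of levels: no dependence on the number of vertices. -/
theorem exists_order_full (n : ℕ) (G : SimpleGraph (Fin n)) {D : ℕ → ℕ} (hD : Dens G D)
    (r ξ q m m' q' K : ℕ) (hξ : 2 * D r + 1 ≤ ξ) (hq : ξ * (ξ * r + 1) ≤ q)
    (hm : m' * q * (1 + (r + 1) * (D r * (1 + r * q ^ 2))) ≤ m)
    (hm' : 8 * (2 * (ξ * r + 1)) ≤ m') (hq' : 8 * (2 * (ξ * r + 1)) ≤ 2 ^ q')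
    (hfrag : ∀ W : Finset (Fin n), ∃ Y : Finset (Fin n), Y ⊆ W ∧ m * Y.card ≤ W.card ∧
      Small G ((W : Set (Fin n)) \ (Y : Set (Fin n))) K) :
    ∃ σ : Equiv.Perm (Fin n), ∀ v : Fin n,
      {u : Fin n | σ u < σ v ∧ ∃ p : G.Walk u v, p.length ≤ r ∧
        ∀ w ∈ p.support, w ≠ u → w ≠ v → σ v < σ w}.ncard ≤ q * q' + (q + K) := by
  have hq1 : 1 ≤ q' := by
    by_contra h
    have h0 : q' = 0 := by omega
    rw [h0] at hq'
    omega
  obtain ⟨X, A, S, g, h, hSA, hAA⟩ := exists_stable hD (L := n + 1) hξ hq hm hfrag hm' hq'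
    (Nat.succ_pos n) (by simpa using Nat.lt_two_pow_self)
  -- levels
  let lev : Fin n → ℕ := fun v => Nat.findGreatest (fun j => v ∈ A j) (n + 1)
  have hlevmem : ∀ v, v ∈ A (lev v) := by
    intro v
    exact Nat.findGreatest_spec (P := fun j => v ∈ A j) (Nat.zero_le _) (by simp [h.zero])
  have hlevle : ∀ v, lev v ≤ n + 1 := fun v => Nat.findGreatest_le _
  have hlevnot : ∀ v j, lev v < j → v ∉ A j := by
    intro v j hj hv
    rcases le_or_gt j (n + 1) with h1 | h1
    · exact Nat.findGreatest_is_greatest hj h1 hv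
    · rw [h.supp j h1.le] at hv
      simp at hv
  -- the order
  let f : Fin n → ℕ ×ₗ ℕ := fun v => toLex (n + 1 - lev v, g (lev v) v)
  have hσ : ∀ u v : Fin n, (Tuple.sort f).symm u < (Tuple.sort f).symm v →
      lev v < lev u ∨ (lev u = lev v ∧ g (lev v) u ≤ g (lev v) v) := by
    intro u v huv
    have h1 := Tuple.monotone_sort f huv.le
    simp only [Function.comp_apply, Equiv.apply_symm_apply, f] at h1
    rw [Prod.Lex.toLex_le_toLex] at h1
    have h2 := hlevle u
    have h3 := hlevle v
    rcases h1 with h1 | ⟨h1, h4⟩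
    · left
      omega
    · right
      have h5 : lev u = lev v := by omega
      refine ⟨h5, ?_⟩
      rwa [h5] at h4
  refine ⟨(Tuple.sort f).symm, fun v => ?_⟩
  have hsub : {u : Fin n | (Tuple.sort f).symm u < (Tuple.sort f).symm v ∧ ∃ p : G.Walk u v,
      p.length ≤ r ∧ ∀ w ∈ p.support, w ≠ u → w ≠ v →
        (Tuple.sort f).symm v < (Tuple.sort f).symm w} ⊆
      (⋃ j ∈ Finset.range q', {x | Sees G r (A (lev v + 1 + j) : Set (Fin n)) v x}) ∪
      {u | u ∈ A (lev v) ∧ g (lev v) u ≤ g (lev v) v ∧ ∃ p : G.Walk v u, p.length ≤ r ∧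
        ∀ w ∈ p.support, w ∉ S (lev v) ∧ (w ∈ A (lev v) → w = u ∨
          g (lev v) v ≤ g (lev v) w)} := by
    rintro u ⟨huv, p, hp, hpw⟩
    have hin : ∀ w ∈ p.support, w ≠ u → lev w ≤ lev v := by
      intro w hw h1
      by_cases h2 : w = v
      · rw [h2]
      · rcases hσ v w (hpw w hw h1 h2) with h3 | ⟨h3, -⟩
        · exact h3.le
        · exact h3.symm.le
    have hsees : ∀ j, lev v < j → u ∈ A j → Sees G r (A j : Set (Fin n)) v u := by
      intro j hj huj
      refine ⟨Finset.mem_coe.mpr huj, p.reverse, by simpa using hp, ?_⟩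
      intro w hw hwA
      by_contra hwu
      have hw' : w ∈ p.support := by simpa using hw
      exact hlevnot w j (lt_of_le_of_lt (hin w hw' hwu) hj) (by simpa using hwA)
    rcases hσ u v huv with hlt | ⟨heq, hgle⟩
    · left
      by_cases hnear : lev u < lev v + 1 + q'
      · refine Set.mem_biUnion (Finset.mem_coe.mpr
          (Finset.mem_range.mpr (show lev u - (lev v + 1) < q' by omega))) ?_
        have h1 : lev v + 1 + (lev u - (lev v + 1)) = lev u := by omega
        show Sees G r (A (lev v + 1 + (lev u - (lev v + 1))) : Set (Fin n)) v u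
        rw [h1]
        exact hsees _ hlt (hlevmem u)
      · refine Set.mem_biUnion (Finset.mem_coe.mpr (Finset.mem_range.mpr hq1)) ?_
        show Sees G r (A (lev v + 1 + 0) : Set (Fin n)) v u
        exact hsees _ (by omega) (hAA (lev v + 1 + 0) (lev u) (by omega) (hlevmem u))
    · right
      refine ⟨heq ▸ hlevmem u, hgle, p.reverse, by simpa using hp, ?_⟩
      intro w hw
      have hw' : w ∈ p.support := by simpa using hw
      have hwl : lev w ≤ lev v := by
        by_cases hwu : w = u
        · rw [hwu, heq]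
        · exact hin w hw' hwu
      refine ⟨fun hwS => hlevnot w (lev v + 1) (by omega) (hSA _ hwS), fun hwA => ?_⟩
      by_cases hwu : w = u
      · exact Or.inl hwu
      · right
        by_cases hwv : w = v
        · rw [hwv]
        · rcases hσ v w (hpw w hw' hwu hwv) with h3 | ⟨h3, h4⟩
          · exact absurd hwA (hlevnot w _ h3)
          · rwa [← h3] at h4
  have hvS : v ∉ S (lev v) := fun hvS => hlevnot v (lev v + 1) (Nat.lt_succ_self _) (hSA _ hvS)
  refine (Set.ncard_le_ncard hsub (Set.toFinite _)).trans ((Set.ncard_union_le _ _).trans ?_)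
  refine Nat.add_le_add ?_ ((h.lvl (lev v)).load v (hlevmem v) hvS)
  refine (Finset.set_ncard_biUnion_le _ _).trans ?_
  calc ∑ j ∈ Finset.range q', {x | Sees G r (A (lev v + 1 + j) : Set (Fin n)) v x}.ncard
      ≤ ∑ j ∈ Finset.range q', q :=
        Finset.sum_le_sum (fun j _ => (h.lvl (lev v + 1 + j)).closed v)
    _ = q * q' := by rw [Finset.sum_const, smul_eq_mul, Finset.card_range, mul_comm]

end P67
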